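import Pool.Agent.SAPF.Gap
import Pool.Agent.SAPF.GapT
import Pool.Agent.SAPF.Renew
import Pool.Agent.SAPF.Params

/-!
The speed of a pulled self-avoiding walk vanishes with the force: definitions.

The argument is by contradiction. `Ball v` says that the free energy has slope `v > 0` at zero
force.
-/

namespace Pool.Agent.SAPZ

open scoped ENNReal
open Filter Topology Pool.Agent.SAPF

/-- the free energy `u`, as a function of the force `c`, has slope `v > 0` at `0` -/
structure Ball (v : ℝ) : Prop where
  pos : 0 < v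
  lower : ∀ {u c u' c' : ℝ}, Params u c → Params u' c' → c < c' → v * (c' - c) ≤ u' - u
  upper : ∀ {ε : ℝ}, 0 < ε → ∃ u' c' : ℝ, Params u' c' ∧
    ∀ u c : ℝ, Params u c → c < c' → u' - u ≤ (v + ε) * (c' - c)

/-! ### excursions from a level -/

/-- excursions to the right of the edges between two columns, of extent at most `m` -/
def RX (m : ℕ) : Set Word :=
  {p | SAW p ∧ X p = 1 ∧ (∀ t, t <+: p → t ≠ [] → 0 < X t) ∧ ∀ t, t <+: p → X t ≤ m}

/-- excursions to the left, of extent at most `m` -/
def LX (m : ℕ) : Set Word :=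
  {p | SAW p ∧ X p = -1 ∧ (∀ t, t <+: p → t ≠ [] → X t < 0) ∧ ∀ t, t <+: p → -(m : ℤ) ≤ X t}

/-- `k` pairs of excursions followed by a bridge of span `r` -/
def TT (m : ℕ) : ℕ → ℤ → Set Word
  | 0, r => BrS r
  | k + 1, r => {w | ∃ p ∈ RX m, ∃ q ∈ LX m, ∃ w' ∈ TT m k r, w = p ++ (q ++ w')}

/-- words of span `s` which cross the level `x` at most `2 K + 1` times, with excursions of extent
at most `m` -/
def Lev (m K : ℕ) (s x : ℤ) : Set Word :=
  {w | ∃ k ≤ K, ∃ a ∈ BrS x, ∃ b ∈ TT m k (s - x), w = a ++ b}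

/-! ### cones -/

/-- words staying in the forward cone of their first vertex -/
def Fw (δ : ℝ) : Set Word := {w | ∀ t, t <+: w → |(Y t : ℝ)| ≤ δ * X t}

/-- words staying in the backward cone of their last vertex -/
def Bw (δ : ℝ) : Set Word := {w | ∀ t, t <:+ w → |(Y t : ℝ)| ≤ δ * X t}

/-- the law of the pieces at zero force has total mass one and finite mean length -/
structure Zero (u : ℝ) : Prop where
  one : mass (ex u 0 0) Irr = 1
  mean : mass (fun w => ex u 0 0 w * (w.length : ℝ≥0∞)) Irr ≠ ∞

end Pool.Agent.SAPZ
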