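import Mathlib

/-!
A law of large numbers for lists: with high probability all beginnings of a random sequence of
pieces have a small vertical displacement.
-/

namespace Pool.Agent.SAPZ
namespace Lln

open scoped ENNReal
open Filter Topology MeasureTheory ProbabilityTheory

/-- deterministic part: from averages to the last increment -/
lemma incr_div_tendsto {T : ℕ → ℝ} {m : ℝ} (h : Tendsto (fun n : ℕ => T n / n) atTop (𝓝 m)) :
    Tendsto (fun n : ℕ => (T (n + 1) - T n) / n) atTop (𝓝 0) := by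
  have h1 : Tendsto (fun n : ℕ => T (n + 1) / ((n + 1 : ℕ) : ℝ)) atTop (𝓝 m) :=
    h.comp (tendsto_add_atTop_nat 1)
  have h2 : Tendsto (fun n : ℕ => ((n + 1 : ℕ) : ℝ) / n) atTop (𝓝 1) := by
    have h3 : Tendsto (fun n : ℕ => 1 + 1 / (n : ℝ)) atTop (𝓝 (1 + 0)) :=
      tendsto_const_nhds.add tendsto_one_div_atTop_nhds_zero_nat
    rw [add_zero] at h3
    refine h3.congr' ?_
    filter_upwards [eventually_gt_atTop 0] with n hn
    have : (n : ℝ) ≠ 0 := by positivity
    push_cast
    field_simp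
  have h3 : Tendsto (fun n : ℕ => T (n + 1) / ((n + 1 : ℕ) : ℝ) * (((n + 1 : ℕ) : ℝ) / n) -
      T n / n) atTop (𝓝 (m * 1 - m)) := (h1.mul h2).sub h
  have e : m * 1 - m = 0 := by ring
  rw [e] at h3
  refine h3.congr' ?_
  filter_upwards [eventually_gt_atTop 0] with n hn
  have : (n : ℝ) ≠ 0 := by positivity
  have h4 : ((n + 1 : ℕ) : ℝ) ≠ 0 := by positivity
  field_simp

/-- deterministic part: a sequence with `a k / k → 0` -/
lemma exists_bound {a : ℕ → ℝ} (h : Tendsto (fun n : ℕ => a n / n) atTop (𝓝 0)) {δ : ℝ}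
    (hδ : 0 < δ) : ∃ R : ℕ, ∀ k : ℕ, a k ≤ δ * max (k : ℝ) R := by
  have h1 : ∀ᶠ n : ℕ in atTop, a n / n < δ := h.eventually_lt_const hδ
  obtain ⟨k₀, hk₀⟩ := eventually_atTop.1 (h1.and (eventually_gt_atTop 0))
  obtain ⟨R, hR⟩ := exists_nat_ge ((∑ k ∈ Finset.range k₀, |a k|) / δ)
  refine ⟨R, fun k => ?_⟩
  by_cases hk : k < k₀
  · have h2 : |a k| ≤ ∑ k ∈ Finset.range k₀, |a k| :=
      Finset.single_le_sum (f := fun k => |a k|) (fun _ _ => abs_nonneg _) (Finset.mem_range.2 hk)
    have h3 : ∑ k ∈ Finset.range k₀, |a k| ≤ R * δ := (div_le_iff₀ hδ).1 hR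
    calc a k ≤ |a k| := le_abs_self _
      _ ≤ δ * R := by linarith
      _ ≤ δ * max (k : ℝ) R := by gcongr; exact le_max_right _ _
  · have h2 := hk₀ k (not_lt.1 hk)
    have h3 : (0 : ℝ) < k := by exact_mod_cast h2.2
    have h4 : a k < δ * k := (div_lt_iff₀ h3).1 h2.1
    calc a k ≤ δ * k := h4.le
      _ ≤ δ * max (k : ℝ) R := by gcongr; exact le_max_left _ _

section prob
variable {W : Type*} [MeasurableSpace W] [DiscreteMeasurableSpace W]
  (μ : Measure W) [IsProbabilityMeasure μ]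

/-- the sequences of pieces -/
noncomputable def PP : Measure (ℕ → W) := Measure.infinitePi (fun _ : ℕ => μ)

instance : IsProbabilityMeasure (PP μ) := by unfold PP; infer_instance

lemma strong (f : W → ℝ) (hf : Integrable f μ) :
    ∀ᵐ ω ∂(PP μ), Tendsto (fun n : ℕ => (∑ i ∈ Finset.range n, f (ω i)) / n) atTop
      (𝓝 (∫ w, f w ∂μ)) := by
  have hm : Measurable f := Measurable.of_discrete
  have hmp : ∀ i : ℕ, MeasurePreserving (fun ω : ℕ → W => ω i) (PP μ) μ := fun i =>
    measurePreserving_eval_infinitePi (fun _ : ℕ => μ) i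
  have hind : iIndepFun (fun (i : ℕ) (ω : ℕ → W) => f (ω i)) (PP μ) :=
    iIndepFun_infinitePi (P := fun _ : ℕ => μ) (X := fun _ => f) (fun _ => hm)
  have h := strong_law_ae_real (μ := PP μ) (fun (i : ℕ) (ω : ℕ → W) => f (ω i))
    ((hmp 0).integrable_comp_of_integrable hf) (fun i j hij => hind.indepFun hij)
    (fun i => ⟨(hm.comp (hmp i).measurable).aemeasurable, (hm.comp (hmp 0).measurable).aemeasurable,
      by
        rw [← Function.comp_def f, ← Function.comp_def f,
          ← Measure.map_map hm (hmp i).measurable, ← Measure.map_map hm (hmp 0).measurable,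
          (hmp i).map_eq, (hmp 0).map_eq]⟩)
  have e : ∫ ω, f (ω 0) ∂(PP μ) = ∫ w, f w ∂μ := by
    conv_rhs => rw [← (hmp 0).map_eq]
    exact (integral_map (hmp 0).measurable.aemeasurable hm.aestronglyMeasurable).symm
  rw [e] at h
  exact h

/-- the displacement of the first `k` pieces, plus the length of the next piece -/
noncomputable def dev (y l : W → ℝ) (k : ℕ) (ω : ℕ → W) : ℝ :=
  |∑ i ∈ Finset.range k, y (ω i)| + l (ω k)

/-- the good sequences -/
def GE (y l : W → ℝ) (δ : ℝ) (R : ℕ) : Set (ℕ → W) :=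
  {ω | ∀ k : ℕ, dev y l k ω ≤ δ * max (k : ℝ) R}

omit [DiscreteMeasurableSpace W] in
lemma measurable_dev [DiscreteMeasurableSpace W] (y l : W → ℝ) (k : ℕ) :
    Measurable (dev y l k) := by
  have hy : Measurable y := Measurable.of_discrete
  have hl : Measurable l := Measurable.of_discrete
  unfold dev
  refine Measurable.add ?_ (hl.comp (measurable_pi_apply k))
  refine Measurable.abs ?_
  exact Finset.measurable_fun_sum _ fun i _ => hy.comp (measurable_pi_apply i)

lemma measurableSet_GE (y l : W → ℝ) (δ : ℝ) (R : ℕ) : MeasurableSet (GE y l δ R) := by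
  have : GE y l δ R = ⋂ k : ℕ, {ω | dev y l k ω ≤ δ * max (k : ℝ) R} := by
    ext ω; simp [GE]
  rw [this]
  exact MeasurableSet.iInter fun k => measurableSet_le (measurable_dev y l k) measurable_const

omit [MeasurableSpace W] [DiscreteMeasurableSpace W] in
lemma GE_mono (y l : W → ℝ) {δ : ℝ} (hδ : 0 < δ) : Monotone (GE y l δ) := by
  intro R R' h ω hω k
  refine (hω k).trans ?_
  gcongr

lemma ae_dev (y l : W → ℝ) (hy : Integrable y μ) (hl : Integrable l μ) (h0 : ∫ w, y w ∂μ = 0) :
    ∀ᵐ ω ∂(PP μ), Tendsto (fun n : ℕ => dev y l n ω / n) atTop (𝓝 0) := by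
  filter_upwards [strong μ y hy, strong μ l hl] with ω h1 h2
  rw [h0] at h1
  have h3 := incr_div_tendsto h2
  have h4 := h1.abs.add h3
  rw [abs_zero, add_zero] at h4
  refine h4.congr fun n => ?_
  rw [Finset.sum_range_succ, dev, abs_div, Nat.abs_cast]
  ring

/-- the good sequences have probability close to one -/
lemma exists_GE (y l : W → ℝ) (hy : Integrable y μ) (hl : Integrable l μ)
    (h0 : ∫ w, y w ∂μ = 0) {δ : ℝ} (hδ : 0 < δ) {ε : ℝ≥0∞} (hε : 0 < ε) :
    ∃ R : ℕ, PP μ (GE y l δ R)ᶜ ≤ ε := by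
  have h1 : Tendsto (PP μ ∘ fun R : ℕ => (GE y l δ R)ᶜ) atTop (𝓝 (PP μ (⋂ R, (GE y l δ R)ᶜ))) := by
    refine tendsto_measure_iInter_atTop (fun R => (measurableSet_GE y l δ R).compl.nullMeasurableSet)
      ?_ ⟨0, measure_ne_top _ _⟩
    intro R R' h
    exact Set.compl_subset_compl.2 (GE_mono y l hδ h)
  have h2 : PP μ (⋂ R, (GE y l δ R)ᶜ) = 0 := by
    rw [← Set.compl_iUnion]
    have h3 : ∀ᵐ ω ∂(PP μ), ω ∈ ⋃ R, GE y l δ R := by
      filter_upwards [ae_dev μ y l hy hl h0] with ω hω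
      obtain ⟨R, hR⟩ := exists_bound hω hδ
      exact Set.mem_iUnion.2 ⟨R, hR⟩
    exact h3
  rw [h2] at h1
  obtain ⟨R, hR⟩ := (h1.eventually_le_const hε).exists
  exact ⟨R, hR⟩

/-- the sequences that begin with a given list -/
def cyl (ps : List W) : Set (ℕ → W) := {ω | ∀ i : ℕ, ∀ h : i < ps.length, ω i = ps[i]}

lemma measurableSet_cyl (ps : List W) : MeasurableSet (cyl ps) := by
  have : cyl ps = ⋂ i : Fin ps.length, {ω : ℕ → W | ω i ∈ ({ps[i]} : Set W)} := by
    ext ω
    simp only [cyl, Set.mem_ofPred_eq, Set.mem_iInter, Set.mem_singleton_iff]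
    exact ⟨fun h i => h i i.2, fun h i hi => h ⟨i, hi⟩⟩
  rw [this]
  exact MeasurableSet.iInter fun i =>
    (measurable_pi_apply (i : ℕ)) (MeasurableSet.of_discrete (s := ({ps[i]} : Set W)))

lemma measure_cyl (ps : List W) : PP μ (cyl ps) = (ps.map fun w => μ {w}).prod := by
  have h1 : cyl ps = Set.pi (Finset.range ps.length : Set ℕ) (fun i => {w : W | ps[i]? = some w}) := by
    ext ω
    simp only [cyl, Set.mem_ofPred_eq, Set.mem_pi, Finset.coe_range, Set.mem_Iio]
    refine forall_congr' fun i => forall_congr' fun h => ?_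
    rw [List.getElem?_eq_getElem h, Option.some.injEq]
    exact eq_comm
  rw [h1, PP, Measure.infinitePi_pi _ (fun i _ => MeasurableSet.of_discrete), Finset.prod_range,
    ← Fin.prod_univ_fun_getElem ps (fun w => μ {w})]
  refine Finset.prod_congr rfl fun i _ => ?_
  congr 1
  ext w
  simp only [Set.mem_ofPred_eq, Set.mem_singleton_iff]
  rw [List.getElem?_eq_getElem i.2, Option.some.injEq]
  exact eq_comm

omit [MeasurableSpace W] [DiscreteMeasurableSpace W] in
lemma take_map_sum (f : W → ℝ) (ps : List W) {ω : ℕ → W} (h : ω ∈ cyl ps) {j : ℕ}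
    (hj : j ≤ ps.length) : ((ps.take j).map f).sum = ∑ i ∈ Finset.range j, f (ω i) := by
  induction j with
  | zero => simp
  | succ j ih =>
    rw [Finset.sum_range_succ, ← ih (by omega), List.take_add_one, List.getElem?_eq_getElem hj,
      h j hj, List.map_append, List.sum_append]
    simp

/-- the bound for lists -/
theorem lists_lln [Countable W] (y l : W → ℝ) (hy : Integrable y μ) (hl : Integrable l μ)
    (h0 : ∫ w, y w ∂μ = 0) {δ : ℝ} (hδ : 0 < δ) {ε : ℝ≥0∞} (hε : 0 < ε) :
    ∃ R : ℕ, ∀ A : Set (List W), (∀ ps ∈ A, ∀ qs ∈ A, ps <+: qs → ps = qs) →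
      (∀ ps ∈ A, ∃ j : ℕ, ∃ hj : j < ps.length,
        δ * max (j : ℝ) R < |((ps.take j).map y).sum| + l ps[j]) →
      ∑' ps : A, ((ps : List W).map fun w => μ {w}).prod ≤ ε := by
  obtain ⟨R, hR⟩ := exists_GE μ y l hy hl h0 hδ hε
  refine ⟨R, fun A hA hb => ?_⟩
  have hdisj : Pairwise (Function.onFun Disjoint fun ps : A => cyl (ps : List W)) := by
    intro ps qs hne
    rw [Function.onFun, Set.disjoint_left]
    intro ω h1 h2
    apply hne
    have key : ∀ ps ∈ A, ∀ qs ∈ A, ω ∈ cyl ps → ω ∈ cyl qs → ps.length ≤ qs.length → ps = qs := by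
      intro ps hps qs hqs h1 h2 hle
      refine hA ps hps qs hqs ?_
      rw [List.prefix_iff_eq_take]
      refine List.ext_getElem (by simp; omega) fun i hi hi' => ?_
      rw [List.getElem_take, ← h1 i hi, ← h2 i (by omega)]
    rcases le_total (ps : List W).length (qs : List W).length with h | h
    · exact Subtype.ext (key ps ps.2 qs qs.2 h1 h2 h)
    · exact Subtype.ext (key qs qs.2 ps ps.2 h2 h1 h).symm
  calc ∑' ps : A, ((ps : List W).map fun w => μ {w}).prod = ∑' ps : A, PP μ (cyl (ps : List W)) :=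
        tsum_congr fun ps => (measure_cyl μ ps).symm
    _ = PP μ (⋃ ps : A, cyl (ps : List W)) :=
        (measure_iUnion hdisj fun ps => measurableSet_cyl _).symm
    _ ≤ PP μ (GE y l δ R)ᶜ := by
        refine measure_mono ?_
        intro ω hω
        obtain ⟨ps, hps⟩ := Set.mem_iUnion.1 hω
        obtain ⟨j, hj, hlt⟩ := hb ps ps.2
        intro hG
        have h1 := hG j
        rw [dev, ← take_map_sum y ps hps hj.le, hps j hj] at h1
        exact absurd h1 (not_le.2 hlt)
    _ ≤ ε := hR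

end prob

end Lln
end Pool.Agent.SAPZ
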