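import Mathlib
import Pool.Agent.SAPZ.Defs
import Pool.Agent.SAPZ.LlnA

/-!
Law of large numbers for bridges at zero force: with high probability all beginnings and all endings
of a bridge have a small vertical displacement.
-/

namespace Pool.Agent.SAPZ

open scoped ENNReal
open Filter Topology Pool.Agent.SAPF

namespace Lln

open MeasureTheory

/-! ### sums over lists of pieces -/

lemma X_flatten (ps : List Word) : X ps.flatten = (ps.map X).sum := by
  induction ps with
  | nil => simp
  | cons p ps ih => simp [ih]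

lemma Y_flatten (ps : List Word) : Y ps.flatten = (ps.map Y).sum := by
  induction ps with
  | nil => simp
  | cons p ps ih => simp [ih]

lemma X_reverse (ps : List Word) : X ps.reverse.flatten = X ps.flatten := by
  rw [X_flatten, X_flatten, List.map_reverse, List.sum_reverse]

lemma Y_reverse (ps : List Word) : Y ps.reverse.flatten = Y ps.flatten := by
  rw [Y_flatten, Y_flatten, List.map_reverse, List.sum_reverse]

lemma length_reverse (ps : List Word) : ps.reverse.flatten.length = ps.flatten.length := by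
  rw [List.length_flatten, List.length_flatten, List.map_reverse, List.sum_reverse]

lemma ex_congr {u : ℝ} {v w : Word} (h : v.length = w.length) : ex u 0 0 v = ex u 0 0 w := by
  unfold ex
  rw [h]
  simp

lemma Y_real (ps : List Word) : ((ps.map fun w => (Y w : ℝ)).sum) = (Y ps.flatten : ℝ) := by
  induction ps with
  | nil => simp
  | cons p ps ih => simp [ih]

lemma allIrr_cons {p : Word} {ps : List Word} (h : AllIrr (p :: ps)) : IsIrr p ∧ AllIrr ps :=
  ⟨h p (by simp), fun q hq => h q (by simp [hq])⟩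

lemma length_le_X {ps : List Word} (h : AllIrr ps) : (ps.length : ℤ) ≤ X ps.flatten := by
  induction ps with
  | nil => simp
  | cons p ps ih =>
    have h1 := (allIrr_cons h).1.X_pos
    have h2 := ih (allIrr_cons h).2
    rw [List.flatten_cons, X_append, List.length_cons]
    push_cast
    omega

lemma allIrr_take {ps : List Word} (h : AllIrr ps) (j : ℕ) : AllIrr (ps.take j) :=
  fun q hq => h q (List.mem_of_mem_take hq)

lemma start_cases (ps : List Word) : ∀ t : Word, t <+: ps.flatten → t ≠ [] →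
    ∃ j : ℕ, ∃ hj : j < ps.length, ∃ t' : Word, t' <+: ps[j] ∧ t = (ps.take j).flatten ++ t' := by
  induction ps with
  | nil =>
    intro t ht h0
    exact absurd (List.prefix_nil.1 ht) h0
  | cons p ps ih =>
    intro t ht h0
    rw [List.flatten_cons] at ht
    rcases prefix_append_cases ht with h | ⟨b, hb, hb0, rfl⟩
    · exact ⟨0, by simp, t, by simpa using h, by simp⟩
    · obtain ⟨j, hj, t', ht', rfl⟩ := ih b hb hb0
      exact ⟨j + 1, by simpa using hj, t', by simpa using ht', by simp⟩

lemma end_cases (qs : List Word) : ∀ t : Word, t <:+ qs.reverse.flatten → t ≠ [] →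
    ∃ j : ℕ, ∃ hj : j < qs.length, ∃ t' : Word, t' <:+ qs[j] ∧
      t = t' ++ (qs.take j).reverse.flatten := by
  induction qs with
  | nil =>
    intro t ht h0
    exact absurd (List.suffix_nil.1 ht) h0
  | cons q qs ih =>
    intro t ht h0
    have e : (q :: qs).reverse.flatten = qs.reverse.flatten ++ q := by simp
    rw [e] at ht
    rcases suffix_append_cases ht with h | ⟨b, hb, hb0, rfl⟩
    · exact ⟨0, by simp, t, by simpa using h, by simp⟩
    · obtain ⟨j, hj, t', ht', rfl⟩ := ih b hb hb0
      exact ⟨j + 1, by simpa using hj, t', by simpa using ht', by simp⟩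

/-! ### the law of a piece -/

lemma isIrr_flipY {w : Word} (h : IsIrr w) : IsIrr (flipY w) := by
  refine ⟨h.br.flipY, ?_, ?_⟩
  · rw [Ne, flipY_eq_nil]; exact h.ne
  · intro u v huv hu hv
    have h1 : w = flipY u ++ flipY v := by
      rw [← flipY_append, ← huv, flipY_flipY]
    rcases h.irr h1 hu.flipY hv.flipY with h2 | h2
    · left; exact flipY_eq_nil.1 h2
    · right; exact flipY_eq_nil.1 h2

lemma ind_flipY (u : ℝ) (w : Word) :
    Irr.indicator (ex u 0 0) (flipY w) = Irr.indicator (ex u 0 0) w := by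
  by_cases h : w ∈ Irr
  · rw [Set.indicator_of_mem h, Set.indicator_of_mem (show flipY w ∈ Irr from isIrr_flipY h),
      ex_flipY, neg_zero]
  · rw [Set.indicator_of_notMem h, Set.indicator_of_notMem]
    intro h1
    apply h
    have := isIrr_flipY (w := flipY w) h1
    rwa [flipY_flipY] at this

/-- the law of a piece -/
noncomputable def law {u : ℝ} (h : Zero u) : PMF Word :=
  ⟨Irr.indicator (ex u 0 0), by
    have h1 := h.one
    rw [mass_eq_indicator] at h1
    rw [← h1]
    exact ENNReal.summable.hasSum⟩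

section
local instance : MeasurableSpace Word := ⊤
local instance : DiscreteMeasurableSpace Word := ⟨fun _ => trivial⟩

/-- the law of a piece, as a measure -/
noncomputable def mu {u : ℝ} (h : Zero u) : Measure Word := (law h).toMeasure

instance {u : ℝ} (h : Zero u) : IsProbabilityMeasure (mu h) := by unfold mu; infer_instance

lemma mu_singleton {u : ℝ} (h : Zero u) (w : Word) : mu h {w} = Irr.indicator (ex u 0 0) w := by
  unfold mu
  rw [PMF.toMeasure_apply_singleton _ _ MeasurableSet.of_discrete]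
  rfl

lemma prod_mu {u : ℝ} (h : Zero u) {ps : List Word} (hp : AllIrr ps) :
    (ps.map fun w => mu h {w}).prod = ex u 0 0 ps.flatten := by
  induction ps with
  | nil => simp
  | cons p ps ih =>
    rw [List.map_cons, List.prod_cons, ih (allIrr_cons hp).2, mu_singleton,
      Set.indicator_of_mem (show p ∈ Irr from (allIrr_cons hp).1), List.flatten_cons, ex_append]

lemma integrable_length {u : ℝ} (h : Zero u) :
    Integrable (fun w : Word => (w.length : ℝ)) (mu h) := by
  refine ⟨Measurable.of_discrete.aestronglyMeasurable, ?_⟩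
  rw [HasFiniteIntegral, lintegral_countable']
  have e : ∀ w : Word, ‖(w.length : ℝ)‖ₑ * mu h {w} =
      Irr.indicator (fun w => ex u 0 0 w * (w.length : ℝ≥0∞)) w := by
    intro w
    rw [mu_singleton]
    have h1 : ‖(w.length : ℝ)‖ₑ = (w.length : ℝ≥0∞) := by
      rw [Real.enorm_of_nonneg (Nat.cast_nonneg _), ENNReal.ofReal_natCast]
    rw [h1]
    by_cases hw : w ∈ Irr
    · rw [Set.indicator_of_mem hw, Set.indicator_of_mem hw, mul_comm]
    · rw [Set.indicator_of_notMem hw, Set.indicator_of_notMem hw, mul_zero]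
  rw [tsum_congr e, ← mass_eq_indicator]
  exact h.mean.lt_top

lemma abs_Y_real (w : Word) : |(Y w : ℝ)| ≤ w.length := by
  have := abs_Y_le w
  exact_mod_cast this

lemma integrable_Y {u : ℝ} (h : Zero u) : Integrable (fun w : Word => (Y w : ℝ)) (mu h) := by
  refine (integrable_length h).mono Measurable.of_discrete.aestronglyMeasurable ?_
  refine Eventually.of_forall fun w => ?_
  rw [Real.norm_eq_abs, Real.norm_eq_abs, Nat.abs_cast]
  exact abs_Y_real w

lemma map_flipY {u : ℝ} (h : Zero u) : (mu h).map flipY = mu h := by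
  refine Measure.ext_of_singleton fun w => ?_
  rw [Measure.map_apply Measurable.of_discrete MeasurableSet.of_discrete]
  have : flipY ⁻¹' {w} = {flipY w} := by
    ext v
    simp only [Set.mem_preimage, Set.mem_singleton_iff]
    constructor
    · rintro rfl; rw [flipY_flipY]
    · rintro rfl; rw [flipY_flipY]
  rw [this, mu_singleton, mu_singleton, ind_flipY]

lemma integral_Y {u : ℝ} (h : Zero u) : ∫ w, (Y w : ℝ) ∂(mu h) = 0 := by
  have h1 : ∫ w, (Y w : ℝ) ∂(mu h) = ∫ w, (Y (flipY w) : ℝ) ∂(mu h) := by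
    conv_lhs => rw [← map_flipY h]
    exact integral_map (Measurable.of_discrete.aemeasurable)
      (Measurable.of_discrete.aestronglyMeasurable)
  have h2 : ∫ w, (Y (flipY w) : ℝ) ∂(mu h) = -∫ w, (Y w : ℝ) ∂(mu h) := by
    rw [← integral_neg]
    refine integral_congr_ae (Eventually.of_forall fun w => ?_)
    simp
  linarith

/-- lists of pieces with a large deviation -/
def BadL (δ : ℝ) (R : ℕ) (s : ℤ) : Set (List Word) :=
  {ps | AllIrr ps ∧ X ps.flatten = s ∧ ∃ j : ℕ, ∃ hj : j < ps.length,
    δ * max (j : ℝ) R < |(Y (ps.take j).flatten : ℝ)| + (ps[j].length : ℝ)}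

lemma mass_BadL {u : ℝ} (h : Zero u) {δ ε : ℝ} (hδ : 0 < δ) (hε : 0 < ε) : ∃ R : ℕ, ∀ s : ℤ,
    mass (fun ps : List Word => ex u 0 0 ps.flatten) (BadL δ R s) ≤ ENNReal.ofReal ε := by
  obtain ⟨R, hR⟩ := lists_lln (mu h) (fun w => (Y w : ℝ)) (fun w => (w.length : ℝ))
    (integrable_Y h) (integrable_length h) (integral_Y h) hδ (ENNReal.ofReal_pos.2 hε)
  refine ⟨R, fun s => ?_⟩
  have h1 := hR (BadL δ R s) ?_ ?_
  · refine le_trans (le_of_eq ?_) h1
    rw [mass]
    exact tsum_congr fun ps => (prod_mu h ps.2.1).symm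
  · rintro ps ⟨hps, hX, -⟩ qs ⟨hqs, hX', -⟩ ⟨rs, rfl⟩
    have h2 : AllIrr rs := fun r hr => hqs r (List.mem_append_right _ hr)
    have h3 := length_le_X h2
    rw [List.flatten_append, X_append, hX] at hX'
    have h4 : rs = [] := List.length_eq_zero_iff.1 (by omega)
    rw [h4, List.append_nil]
  · rintro ps ⟨-, -, j, hj, hlt⟩
    refine ⟨j, hj, ?_⟩
    rw [Y_real]
    exact hlt

end

end Lln

open Lln in
theorem lln {u : ℝ} (h : Zero u) {δ ε : ℝ} (hδ : 0 < δ) (hε : 0 < ε) : ∃ R : ℕ, ∀ s : ℕ,
    mass (ex u 0 0) {w | w ∈ BrS s ∧ ¬∀ t, t <+: w → |(Y t : ℝ)| ≤ δ * max (X t : ℝ) R} ≤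
      ENNReal.ofReal ε ∧
    mass (ex u 0 0) {w | w ∈ BrS s ∧ ¬∀ t, t <:+ w → |(Y t : ℝ)| ≤ δ * max (X t : ℝ) R} ≤
      ENNReal.ofReal ε := by
  obtain ⟨R, hR⟩ := mass_BadL h hδ hε
  refine ⟨R, fun s => ⟨le_trans ?_ (hR s), le_trans ?_ (hR s)⟩⟩
  · refine mass_le_of_section List.flatten ?_
    rintro w ⟨⟨hw, hX⟩, hbad⟩
    push Not at hbad
    obtain ⟨t, ht, hlt⟩ := hbad
    obtain ⟨ps, hps, rfl⟩ := exists_factor hw
    refine ⟨ps, ⟨hps, hX, ?_⟩, rfl, le_rfl⟩
    have h0 : t ≠ [] := by
      rintro rfl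
      rw [Y_nil, X_nil] at hlt
      have : 0 ≤ δ * max ((0 : ℤ) : ℝ) (R : ℝ) := by positivity
      simp only [Int.cast_zero, abs_zero] at hlt this
      linarith
    obtain ⟨j, hj, t', ht', rfl⟩ := start_cases ps t ht h0
    refine ⟨j, hj, ?_⟩
    have h1 : (j : ℤ) ≤ X ((ps.take j).flatten ++ t') := by
      have h2 := length_le_X (allIrr_take hps j)
      have h3 := (hps ps[j] (List.getElem_mem hj)).br.nonneg ht'
      rw [List.length_take, min_eq_left hj.le] at h2
      rw [X_append]
      omega
    have h2 : (j : ℝ) ≤ X ((ps.take j).flatten ++ t') := by exact_mod_cast h1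
    have h3 : |(Y ((ps.take j).flatten ++ t') : ℝ)| ≤ |(Y (ps.take j).flatten : ℝ)| +
        (ps[j].length : ℝ) := by
      rw [Y_append]
      push_cast
      refine (abs_add_le _ _).trans ?_
      have h4 := abs_Y_real t'
      have h5 : (t'.length : ℝ) ≤ ps[j].length := by exact_mod_cast ht'.length_le
      linarith
    calc δ * max (j : ℝ) R ≤ δ * max (X ((ps.take j).flatten ++ t') : ℝ) R := by gcongr
      _ < _ := hlt
      _ ≤ _ := h3
  · refine mass_le_of_section (fun qs => qs.reverse.flatten) ?_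
    rintro w ⟨⟨hw, hX⟩, hbad⟩
    push Not at hbad
    obtain ⟨t, ht, hlt⟩ := hbad
    obtain ⟨ps, hps, rfl⟩ := exists_factor hw
    obtain ⟨qs, rfl⟩ : ∃ qs : List Word, ps = qs.reverse := ⟨ps.reverse, by simp⟩
    have hqs : AllIrr qs := fun q hq => hps q (by simpa using hq)
    refine ⟨qs, ⟨hqs, by rw [← X_reverse]; exact hX, ?_⟩, rfl,
      (ex_congr (Lln.length_reverse qs)).le⟩
    have h0 : t ≠ [] := by
      rintro rfl
      rw [Y_nil, X_nil] at hlt
      have : 0 ≤ δ * max ((0 : ℤ) : ℝ) (R : ℝ) := by positivity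
      simp only [Int.cast_zero, abs_zero] at hlt this
      linarith
    obtain ⟨j, hj, t', ht', rfl⟩ := end_cases qs t ht h0
    refine ⟨j, hj, ?_⟩
    have h1 : (j : ℤ) ≤ X (t' ++ (qs.take j).reverse.flatten) := by
      have h2 := length_le_X (allIrr_take hqs j)
      have h3 := (hqs qs[j] (List.getElem_mem hj)).br.suf ht'
      rw [List.length_take, min_eq_left hj.le] at h2
      rw [X_append, X_reverse]
      omega
    have h2 : (j : ℝ) ≤ X (t' ++ (qs.take j).reverse.flatten) := by exact_mod_cast h1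
    have h3 : |(Y (t' ++ (qs.take j).reverse.flatten) : ℝ)| ≤ |(Y (qs.take j).flatten : ℝ)| +
        (qs[j].length : ℝ) := by
      rw [Y_append, Y_reverse]
      push_cast
      refine (abs_add_le _ _).trans ?_
      have h4 := abs_Y_real t'
      have h5 : (t'.length : ℝ) ≤ qs[j].length := by exact_mod_cast ht'.length_le
      linarith
    calc δ * max (j : ℝ) R ≤ δ * max (X (t' ++ (qs.take j).reverse.flatten) : ℝ) R := by gcongr
      _ < _ := hlt
      _ ≤ _ := h3

end Pool.Agent.SAPZ
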