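import Pool.Agent.SAPZ.SpanL
import Pool.Agent.SAPZ.Lln

/-!
Bridges in a double cone have mass bounded below, at zero force.
-/

namespace Pool.Agent.SAPZ

open scoped ENNReal
open Filter Topology Pool.Agent.SAPF

namespace Cone

/-- the straight word -/
def st (R : ℕ) : Word := List.replicate R Dir.E

lemma X_st (R : ℕ) : X (st R) = R := X_replicate_E R
lemma Y_st (R : ℕ) : Y (st R) = 0 := Y_replicate_E R

lemma st_part {t : Word} (h : ∀ d ∈ t, d = Dir.E) : 0 ≤ X t ∧ Y t = 0 := by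
  have h1 : t = List.replicate t.length Dir.E := List.eq_replicate_iff.2 ⟨rfl, h⟩
  rw [h1]
  simp

lemma st_pre {R : ℕ} {t : Word} (h : t <+: st R) : 0 ≤ X t ∧ Y t = 0 := by
  refine st_part fun d hd => ?_
  exact List.eq_of_mem_replicate (h.subset hd)

lemma st_suf {R : ℕ} {t : Word} (h : t <:+ st R) : 0 ≤ X t ∧ Y t = 0 := by
  refine st_part fun d hd => ?_
  exact List.eq_of_mem_replicate (h.subset hd)

/-- the words of span `s` that satisfy both bounds -/
def Gd (δ : ℝ) (R s : ℕ) : Set Word := {w | w ∈ BrS s ∧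
  (∀ t, t <+: w → |(Y t : ℝ)| ≤ δ * max (X t : ℝ) R) ∧
  ∀ t, t <:+ w → |(Y t : ℝ)| ≤ δ * max (X t : ℝ) R}

lemma le_of_max {δ : ℝ} (hδ : 0 < δ) {R : ℕ} {x y : ℤ} {z : ℝ} (hx : 0 ≤ x)
    (h : |z| ≤ δ * max (x : ℝ) R) (hy : (R : ℤ) + x ≤ y) : |z| ≤ δ * y := by
  have h1 : (0 : ℝ) ≤ x := by exact_mod_cast hx
  have h2 : (0 : ℝ) ≤ R := by positivity
  have h3 : ((R : ℝ) + x) ≤ y := by exact_mod_cast hy
  refine h.trans ?_
  refine mul_le_mul_of_nonneg_left ?_ hδ.le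
  exact max_le (by linarith) (by linarith)

lemma good_mem {δ : ℝ} (hδ : 0 < δ) {R s : ℕ} (hs : 2 * R ≤ s) {w : Word}
    (hw : w ∈ Gd δ R (s - 2 * R)) : st R ++ (w ++ st R) ∈ BrS s ∩ Fw δ ∩ Bw δ := by
  obtain ⟨⟨hb, hX⟩, h1, h2⟩ := hw
  have hst : IsBr (st R) := isBr_replicate_E R
  refine ⟨⟨⟨hst.append (hb.append hst), ?_⟩, ?_⟩, ?_⟩
  · rw [X_append, X_append, X_st, hX]
    push_cast [Nat.cast_sub hs]
    ring
  · intro t ht
    rcases prefix_append_cases ht with h | ⟨b, hbp, -, rfl⟩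
    · obtain ⟨h3, h4⟩ := st_pre h
      rw [h4]
      have h5 : (0 : ℝ) ≤ X t := by exact_mod_cast h3
      simp only [Int.cast_zero, abs_zero]
      positivity
    · rcases prefix_append_cases hbp with h | ⟨c, hcp, -, rfl⟩
      · have h3 := h1 b h
        rw [X_append, Y_append, X_st, Y_st, zero_add]
        exact le_of_max hδ (hb.nonneg h) h3 le_rfl
      · obtain ⟨h3, h4⟩ := st_pre hcp
        have h5 := h1 w (List.prefix_refl w)
        rw [X_append, Y_append, X_append, Y_append, X_st, Y_st, h4, zero_add, add_zero]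
        exact le_of_max hδ hb.X_nonneg h5 (by linarith)
  · intro t ht
    rcases suffix_append_cases ht with h | ⟨b, hbp, -, rfl⟩
    · rcases suffix_append_cases h with h' | ⟨c, hcp, -, rfl⟩
      · obtain ⟨h3, h4⟩ := st_suf h'
        rw [h4]
        have h5 : (0 : ℝ) ≤ X t := by exact_mod_cast h3
        simp only [Int.cast_zero, abs_zero]
        positivity
      · have h3 := h2 c hcp
        rw [X_append, Y_append, X_st, Y_st, add_zero]
        exact le_of_max hδ (hb.suf hcp) h3 (by linarith)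
    · obtain ⟨h3, h4⟩ := st_suf hbp
      have h5 := h2 w (List.suffix_refl w)
      rw [X_append, Y_append, X_append, Y_append, X_st, Y_st, h4, zero_add, add_zero]
      exact le_of_max hδ hb.X_nonneg h5 (by linarith)

lemma mass_good_le {δ : ℝ} (hδ : 0 < δ) (u : ℝ) {R s : ℕ} (hs : 2 * R ≤ s) :
    (ex u 0 0 (st R) * ex u 0 0 (st R)) * mass (ex u 0 0) (Gd δ R (s - 2 * R)) ≤
      mass (ex u 0 0) (BrS s ∩ Fw δ ∩ Bw δ) := by
  rw [← mass_const_mul]
  refine mass_le_of_injOn (fun w => st R ++ (w ++ st R)) ?_ ?_ ?_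
  · intro a _ b _ h
    exact List.append_cancel_right (List.append_cancel_left h)
  · intro w hw
    exact good_mem hδ hs hw
  · intro w _
    show _ ≤ ex u 0 0 (st R ++ (w ++ st R))
    rw [ex_append, ex_append]
    exact le_of_eq (by ring)

end Cone

open Cone in
theorem cone_low {u : ℝ} (h : Zero u) {δ : ℝ} (hδ : 0 < δ) : ∃ κ > 0, ∃ s₀ : ℕ, ∀ s : ℕ, s₀ ≤ s →
    ENNReal.ofReal κ ≤ mass (ex u 0 0) (BrS s ∩ Fw δ ∩ Bw δ) := by
  obtain ⟨κ, hκ, hlow⟩ := span_low h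
  obtain ⟨R, hR⟩ := lln h hδ (ε := κ / 4) (by positivity)
  have hgood : ∀ s : ℕ, ENNReal.ofReal (κ / 2) ≤ mass (ex u 0 0) (Gd δ R s) := by
    intro s
    obtain ⟨h1, h2⟩ := hR s
    set B1 : Set Word := {w | w ∈ BrS s ∧ ¬∀ t, t <+: w → |(Y t : ℝ)| ≤ δ * max (X t : ℝ) R}
    set B2 : Set Word := {w | w ∈ BrS s ∧ ¬∀ t, t <:+ w → |(Y t : ℝ)| ≤ δ * max (X t : ℝ) R}
    have hsub : BrS (s : ℤ) ⊆ Gd δ R s ∪ (B1 ∪ B2) := by
      intro w hw
      by_cases ha : ∀ t, t <+: w → |(Y t : ℝ)| ≤ δ * max (X t : ℝ) R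
      · by_cases hb : ∀ t, t <:+ w → |(Y t : ℝ)| ≤ δ * max (X t : ℝ) R
        · exact Or.inl ⟨hw, ha, hb⟩
        · exact Or.inr (Or.inr ⟨hw, hb⟩)
      · exact Or.inr (Or.inl ⟨hw, ha⟩)
    have h3 : ENNReal.ofReal κ ≤ mass (ex u 0 0) (Gd δ R s) +
        (ENNReal.ofReal (κ / 4) + ENNReal.ofReal (κ / 4)) := by
      refine (hlow s).trans ((mass_mono hsub).trans ?_)
      refine (mass_union_le _ _ _).trans ?_
      gcongr
      refine (mass_union_le _ _ _).trans ?_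
      exact add_le_add h1 h2
    have h4 : ENNReal.ofReal κ = ENNReal.ofReal (κ / 2) +
        (ENNReal.ofReal (κ / 4) + ENNReal.ofReal (κ / 4)) := by
      rw [← ENNReal.ofReal_add (by positivity) (by positivity),
        ← ENNReal.ofReal_add (by positivity) (by positivity)]
      congr 1
      ring
    rw [h4] at h3
    have h5 : ENNReal.ofReal (κ / 4) + ENNReal.ofReal (κ / 4) ≠ ∞ :=
      ENNReal.add_ne_top.2 ⟨ENNReal.ofReal_ne_top, ENNReal.ofReal_ne_top⟩
    exact (ENNReal.add_le_add_iff_right h5).1 h3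
  set a := ex u 0 0 (st R) with ha
  have ha0 : 0 < a.toReal := ENNReal.toReal_pos (ex_pos _ _ _ _).ne' (ex_ne_top _ _ _ _)
  have ha1 : ENNReal.ofReal a.toReal = a := ENNReal.ofReal_toReal (ex_ne_top _ _ _ _)
  refine ⟨a.toReal * a.toReal * (κ / 2), by positivity, 2 * R, ?_⟩
  intro s hs
  rw [ENNReal.ofReal_mul (by positivity), ENNReal.ofReal_mul ha0.le, ha1]
  exact (mul_le_mul_right (hgood (s - 2 * R)) _).trans (mass_good_le hδ u hs)

end Pool.Agent.SAPZ
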