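import Pool.Agent.SAPZ.Defs

/-!
Breaking the stick: three bridges in double cones, the middle one turned by a quarter, give a
bridge of fixed span; there are too many of them.
-/

namespace Pool.Agent.SAPZ

open scoped ENNReal
open Filter Topology Pool.Agent.SAPF

namespace Stick

/-! ### quarter turns -/

/-- quarter turn of a step -/
def qd : Dir → Dir
  | Dir.E => Dir.N
  | Dir.N => Dir.W
  | Dir.W => Dir.S
  | Dir.S => Dir.E

/-- quarter turn of a step, in the other direction -/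
def qb : Dir → Dir
  | Dir.E => Dir.S
  | Dir.N => Dir.E
  | Dir.W => Dir.N
  | Dir.S => Dir.W

lemma qb_qd (d : Dir) : qb (qd d) = d := by cases d <;> rfl
lemma qd_qb (d : Dir) : qd (qb d) = d := by cases d <;> rfl

/-- the word turned by a quarter -/
def qt (w : Word) : Word := w.map qd
/-- the word turned back by a quarter -/
def qi (w : Word) : Word := w.map qb

@[simp] lemma qi_qt (w : Word) : qi (qt w) = w := by
  simp [qi, qt, Function.comp_def, qb_qd]
@[simp] lemma qt_qi (w : Word) : qt (qi w) = w := by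
  simp [qi, qt, Function.comp_def, qd_qb]
@[simp] lemma qt_append (u v : Word) : qt (u ++ v) = qt u ++ qt v := by simp [qt]
@[simp] lemma qi_append (u v : Word) : qi (u ++ v) = qi u ++ qi v := by simp [qi]
@[simp] lemma length_qt (w : Word) : (qt w).length = w.length := by simp [qt]
@[simp] lemma qt_nil : qt [] = [] := rfl
lemma qt_eq_nil {w : Word} : qt w = [] ↔ w = [] := by simp [qt]
lemma qi_eq_nil {w : Word} : qi w = [] ↔ w = [] := by simp [qi]
lemma qt_inj {v w : Word} (h : qt v = qt w) : v = w := by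
  rw [← qi_qt v, h, qi_qt]

@[simp] lemma X_qt (w : Word) : X (qt w) = -Y w := by
  induction w with
  | nil => simp
  | cons d w ih =>
    have : qt (d :: w) = qd d :: qt w := rfl
    rw [this, X_cons, Y_cons, ih]
    cases d <;> simp [qd, Dir.dx, Dir.dy] <;> ring
@[simp] lemma Y_qt (w : Word) : Y (qt w) = X w := by
  induction w with
  | nil => simp
  | cons d w ih =>
    have : qt (d :: w) = qd d :: qt w := rfl
    rw [this, X_cons, Y_cons, ih]
    cases d <;> simp [qd, Dir.dx, Dir.dy]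

lemma prefix_qt {u w : Word} (h : u <+: qt w) : ∃ v, v <+: w ∧ u = qt v := by
  obtain ⟨t, ht⟩ := h
  refine ⟨qi u, ⟨qi t, ?_⟩, by simp⟩
  rw [← qi_append, ht, qi_qt]
lemma suffix_qt {u w : Word} (h : u <:+ qt w) : ∃ v, v <:+ w ∧ u = qt v := by
  obtain ⟨t, ht⟩ := h
  refine ⟨qi u, ⟨qi t, ?_⟩, by simp⟩
  rw [← qi_append, ht, qi_qt]
lemma infix_qt {u w : Word} (h : u <:+: qt w) : ∃ v, v <:+: w ∧ u = qt v := by
  obtain ⟨s, t, ht⟩ := h
  refine ⟨qi u, ⟨qi s, qi t, ?_⟩, by simp⟩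
  rw [← qi_append, ← qi_append, ht, qi_qt]

lemma saw_qt {w : Word} (h : SAW w) : SAW (qt w) := by
  intro t ht hx hy
  obtain ⟨v, hv, rfl⟩ := infix_qt ht
  rw [X_qt] at hx
  rw [Y_qt] at hy
  rw [h v hv hy (by omega)]
  rfl

/-! ### diamonds -/

/-- bridges in double cones -/
def Dia (a : ℤ) : Set Word := BrS a ∩ Fw (1 / 20) ∩ Bw (1 / 20)

/-- integer form -/
structure Di (w : Word) : Prop where
  br : IsBr w
  fw : ∀ {t : Word}, t <+: w → 20 * Y t ≤ X t ∧ -(X t) ≤ 20 * Y t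
  bw : ∀ {t : Word}, t <:+ w → 20 * Y t ≤ X t ∧ -(X t) ≤ 20 * Y t

lemma cone_int {x y : ℤ} (h : |(y : ℝ)| ≤ 1 / 20 * x) : 20 * y ≤ x ∧ -x ≤ 20 * y := by
  have h1 := abs_le.1 h
  constructor
  · have : (20 * y : ℝ) ≤ x := by linarith [h1.2]
    exact_mod_cast this
  · have : (-x : ℝ) ≤ 20 * y := by linarith [h1.1]
    exact_mod_cast this

lemma di_of_mem {a : ℤ} {w : Word} (h : w ∈ Dia a) : Di w ∧ X w = a := by
  obtain ⟨⟨⟨hb, hX⟩, hf⟩, hbw⟩ := h
  exact ⟨⟨hb, fun ht => cone_int (hf _ ht), fun ht => cone_int (hbw _ ht)⟩, hX⟩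

lemma suf_le {w t : Word} (h : IsBr w) (ht : t <:+ w) : X t ≤ X w := by
  obtain ⟨s, rfl⟩ := ht
  have := h.nonneg (List.prefix_append s t)
  rw [X_append]
  omega

/-- conditions on the three pieces -/
structure Tri (N : ℤ) (A M D : Word) : Prop where
  pos : 0 < N
  dA : Di A
  dM : Di M
  dD : Di D
  a1 : 8 * N ≤ X A
  a2 : X A ≤ 12 * N
  l1 : 3 * N ≤ X M
  l2 : X M ≤ 6 * N
  dX : X D = 24 * N - X A + Y M

lemma Tri.saw {N : ℤ} {A M D : Word} (h : Tri N A M D) : SAW (A ++ (qt M ++ D)) := by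
  have hM := h.dM.fw (List.prefix_refl M)
  intro t ht hx hy
  rcases infix_append_cases ht with h1 | h1 | ⟨a, b, ha, hb, ha0, hb0, rfl⟩
  · exact h.dA.br.saw t h1 hx hy
  · rcases infix_append_cases h1 with h2 | h2 | ⟨a, b, ha, hb, ha0, hb0, rfl⟩
    · exact saw_qt h.dM.br.saw t h2 hx hy
    · exact h.dD.br.saw t h2 hx hy
    · exfalso
      obtain ⟨m, hm, rfl⟩ := suffix_qt ha
      have e1 := h.dM.bw hm
      have e2 := h.dD.fw hb
      have e3 := h.dD.br.pos hb hb0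
      rw [X_append, X_qt] at hx
      rw [Y_append, Y_qt] at hy
      omega
  · exfalso
    have e1 := h.dA.bw ha
    rw [X_append] at hx
    rw [Y_append] at hy
    rcases prefix_append_cases hb with h2 | ⟨c, hc, hc0, rfl⟩
    · obtain ⟨m, hm, rfl⟩ := prefix_qt h2
      have hm0 : m ≠ [] := fun h0 => hb0 (by rw [h0]; rfl)
      have e2 := h.dM.fw hm
      have e3 := h.dM.br.pos hm hm0
      rw [X_qt] at hx
      rw [Y_qt] at hy
      omega
    · have e2 := h.dD.fw hc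
      have e3 := h.dD.br.pos hc hc0
      rw [X_append, X_qt] at hx
      rw [Y_append, Y_qt] at hy
      omega

lemma Tri.br {N : ℤ} {A M D : Word} (h : Tri N A M D) :
    A ++ (qt M ++ D) ∈ BrS (24 * N) := by
  have hM := h.dM.fw (List.prefix_refl M)
  have h0 := h.pos
  have h3 := h.a1
  have h4 := h.a2
  have h5 := h.l1
  have h6 := h.l2
  have h7 := h.dX
  refine ⟨⟨h.saw, ?_, ?_⟩, ?_⟩
  · intro t ht ht0
    rcases prefix_append_cases ht with h1 | ⟨b, hb, hb0, rfl⟩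
    · exact h.dA.br.pos h1 ht0
    · rw [X_append]
      rcases prefix_append_cases hb with h2 | ⟨c, hc, hc0, rfl⟩
      · obtain ⟨m, hm, rfl⟩ := prefix_qt h2
        have e2 := h.dM.fw hm
        have e3 := h.dM.br.le hm
        rw [X_qt]
        omega
      · have e3 := h.dD.br.pos hc hc0
        rw [X_append, X_qt]
        omega
  · intro t ht
    rcases suffix_append_cases ht with h1 | ⟨b, hb, hb0, rfl⟩
    · rcases suffix_append_cases h1 with h2 | ⟨c, hc, hc0, rfl⟩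
      · exact h.dD.br.suf h2
      · obtain ⟨m, hm, rfl⟩ := suffix_qt hc
        have e2 := h.dM.bw hm
        have e3 := suf_le h.dM.br hm
        rw [X_append, X_qt]
        omega
    · have e1 := h.dA.br.suf hb
      rw [X_append, X_append, X_qt]
      omega
  · rw [X_append, X_append, X_qt]
    omega

lemma Tri.inj_aux {N : ℤ} {A M D A' M' D' c : Word} (h : Tri N A M D) (h' : Tri N A' M' D')
    (hA : A' = A ++ c) (hR : qt M ++ D = c ++ (qt M' ++ D')) : c = [] := by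
  by_contra hc0
  have hcA : c <:+ A' := ⟨A, hA.symm⟩
  have e1 := h'.dA.bw hcA
  rcases List.append_eq_append_iff.1 hR with ⟨e, he, hD⟩ | ⟨e, he, hD⟩
  · -- c = qt M ++ e, D = e ++ (qt M' ++ D')
    have p1 : e <+: D := ⟨_, hD.symm⟩
    have p2 : e ++ qt M' <+: D := ⟨D', by rw [hD, List.append_assoc]⟩
    have f1 := h.dD.fw p1
    have f2 := h.dD.fw p2
    have g1 := h.dD.br.le p1
    have g2 := h.dD.br.le p2
    rw [X_append, Y_append, X_qt, Y_qt] at f2
    rw [X_append, X_qt] at g2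
    have hM := h.dM.fw (List.prefix_refl M)
    have h0 := h.pos
    have h3 := h.a1
    have h6 := h.l2
    have h7 := h.dX
    have h8 := h'.l1
    omega
  · -- qt M = c ++ e
    have p1 : c <+: qt M := ⟨e, he.symm⟩
    obtain ⟨m, hm, rfl⟩ := prefix_qt p1
    have hm0 : m ≠ [] := fun h0 => hc0 (by rw [h0]; rfl)
    have f1 := h.dM.fw hm
    have f2 := h.dM.br.pos hm hm0
    rw [X_qt, Y_qt] at e1
    omega

lemma Tri.inj_aux2 {N : ℤ} {A M D A' M' D' e : Word} (h : Tri N A M D) (h' : Tri N A' M' D')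
    (hM : qt M' = qt M ++ e) (hD : D = e ++ D') : e = [] := by
  by_contra he0
  have p1 : e <+: D := ⟨_, hD.symm⟩
  have f1 := h.dD.fw p1
  have f2 := h.dD.br.pos p1 he0
  have p2 : e <:+ qt M' := ⟨_, hM.symm⟩
  obtain ⟨m, hm, rfl⟩ := suffix_qt p2
  have f3 := h'.dM.bw hm
  rw [X_qt, Y_qt] at f1
  rw [X_qt] at f2
  omega

lemma Tri.inj {N : ℤ} {A M D A' M' D' : Word} (h : Tri N A M D) (h' : Tri N A' M' D')
    (he : A ++ (qt M ++ D) = A' ++ (qt M' ++ D')) : A = A' ∧ M = M' ∧ D = D' := by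
  have key : A = A' ∧ qt M ++ D = qt M' ++ D' := by
    rcases List.append_eq_append_iff.1 he with ⟨c, hA, hR⟩ | ⟨c, hA, hR⟩
    · have hc := h.inj_aux h' hA hR
      rw [hc] at hA hR
      simp at hA hR
      exact ⟨hA.symm, hR⟩
    · have hc := h'.inj_aux h hA hR
      rw [hc] at hA hR
      simp at hA hR
      exact ⟨hA, hR.symm⟩
  refine ⟨key.1, ?_⟩
  rcases List.append_eq_append_iff.1 key.2 with ⟨c, hA, hR⟩ | ⟨c, hA, hR⟩
  · have hc := h.inj_aux2 h' hA hR
    rw [hc] at hA hR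
    simp at hA hR
    exact ⟨(qt_inj hA).symm, hR⟩
  · have hc := h'.inj_aux2 h hA hR
    rw [hc] at hA hR
    simp at hA hR
    exact ⟨qt_inj hA, hR.symm⟩

/-! ### masses -/

lemma ex_qt (u : ℝ) (w : Word) : ex u 0 0 (qt w) = ex u 0 0 w := by
  unfold ex
  rw [length_qt]
  simp

/-- words in diamonds of size in a given range -/
def Rg (p q : ℕ) : Set Word := {w | Di w ∧ (p : ℤ) ≤ X w ∧ X w < q}

lemma mass_Rg {u : ℝ} {κ : ℝ≥0∞} {p q : ℕ}
    (h : ∀ s : ℕ, p ≤ s → κ ≤ mass (ex u 0 0) (Dia s)) :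
    ((q - p : ℕ) : ℝ≥0∞) * κ ≤ mass (ex u 0 0) (Rg p q) := by
  classical
  calc ((q - p : ℕ) : ℝ≥0∞) * κ = ∑ i ∈ Finset.Ico p q, κ := by simp
    _ ≤ ∑ i ∈ Finset.Ico p q, mass (ex u 0 0) {w | w ∈ Rg p q ∧ X w = (i : ℤ)} := by
        refine Finset.sum_le_sum fun i hi => ?_
        rw [Finset.mem_Ico] at hi
        refine (h i hi.1).trans (mass_mono fun w hw => ?_)
        have h1 := di_of_mem hw
        refine ⟨⟨h1.1, ?_, ?_⟩, h1.2⟩
        · rw [h1.2]; exact_mod_cast hi.1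
        · rw [h1.2]; exact_mod_cast hi.2
    _ = mass (fun a => (((Finset.Ico p q).filter (fun i : ℕ => X a = (i : ℤ))).card : ℝ≥0∞) *
          ex u 0 0 a) (Rg p q) := sum_mass _ _ _ _
    _ ≤ mass (ex u 0 0) (Rg p q) := by
        refine mass_mono_fun fun a _ => ?_
        have h1 : ((Finset.Ico p q).filter (fun i : ℕ => X a = (i : ℤ))).card ≤ 1 := by
          refine Finset.card_le_one.2 fun i hi j hj => ?_
          have h2 := (Finset.mem_filter.1 hi).2
          have h3 := (Finset.mem_filter.1 hj).2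
          omega
        calc (((Finset.Ico p q).filter (fun i : ℕ => X a = (i : ℤ))).card : ℝ≥0∞) * ex u 0 0 a
            ≤ 1 * ex u 0 0 a := by
              gcongr
              exact_mod_cast h1
          _ = ex u 0 0 a := one_mul _

/-- the triples of pieces -/
def TT3 (N : ℤ) : Set (Word × (Word × Word)) := {p | Tri N p.1 p.2.1 p.2.2}

lemma mass_TT3_le {u : ℝ} (N : ℤ) :
    mass (fun p : Word × (Word × Word) => ex u 0 0 p.1 * (ex u 0 0 p.2.1 * ex u 0 0 p.2.2)) (TT3 N)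
      ≤ mass (ex u 0 0) (BrS (24 * N)) := by
  refine mass_le_of_injOn (fun p => p.1 ++ (qt p.2.1 ++ p.2.2)) ?_ (fun p hp => Tri.br hp) ?_
  · rintro ⟨A, M, D⟩ h ⟨A', M', D'⟩ h' he
    obtain ⟨e1, e2, e3⟩ := Tri.inj h h' he
    simp only at e1 e2 e3
    rw [e1, e2, e3]
  · rintro ⟨A, M, D⟩ _
    simp only [ex_append, ex_qt]
    exact le_rfl

lemma le_mass_TT3 {u : ℝ} {κ : ℝ≥0∞} {s₀ N : ℕ} (hN : 0 < N) (hN' : s₀ ≤ N)
    (h : ∀ s : ℕ, s₀ ≤ s → κ ≤ mass (ex u 0 0) (Dia s)) :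
    mass (ex u 0 0) (Rg (8 * N) (12 * N + 1)) * (mass (ex u 0 0) (Rg (3 * N) (6 * N + 1)) * κ) ≤
      mass (fun p : Word × (Word × Word) => ex u 0 0 p.1 * (ex u 0 0 p.2.1 * ex u 0 0 p.2.2))
        (TT3 N) := by
  rw [mass_eq_indicator (ex u 0 0) (Rg (8 * N) (12 * N + 1)),
    mass_eq_indicator (ex u 0 0) (Rg (3 * N) (6 * N + 1)), mass_eq_indicator _ (TT3 N),
    ENNReal.tsum_prod', ← ENNReal.tsum_mul_right]
  refine ENNReal.tsum_le_tsum fun A => ?_
  rw [ENNReal.tsum_prod', ← ENNReal.tsum_mul_right, ← ENNReal.tsum_mul_left]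
  refine ENNReal.tsum_le_tsum fun M => ?_
  by_cases hA : A ∈ Rg (8 * N) (12 * N + 1)
  · by_cases hM : M ∈ Rg (3 * N) (6 * N + 1)
    · rw [Set.indicator_of_mem hA, Set.indicator_of_mem hM]
      obtain ⟨hA1, hA2, hA3⟩ := hA
      obtain ⟨hM1, hM2, hM3⟩ := hM
      push_cast at hA2 hA3 hM2 hM3
      have hMY := hM1.fw (List.prefix_refl M)
      obtain ⟨d, hd⟩ := Int.eq_ofNat_of_zero_le
        (show 0 ≤ 24 * (N : ℤ) - X A + Y M by omega)
      have hd' : s₀ ≤ d := by omega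
      calc ex u 0 0 A * (ex u 0 0 M * κ)
          ≤ ex u 0 0 A * (ex u 0 0 M * mass (ex u 0 0) (Dia d)) := by
            gcongr
            exact h d hd'
        _ = ∑' D, ex u 0 0 A * (ex u 0 0 M * (Dia d).indicator (ex u 0 0) D) := by
            rw [mass_eq_indicator, ENNReal.tsum_mul_left, ENNReal.tsum_mul_left]
        _ ≤ _ := by
            refine ENNReal.tsum_le_tsum fun D => ?_
            by_cases hD : D ∈ Dia d
            · have h1 := di_of_mem hD
              have h2 : ((A, (M, D)) : Word × (Word × Word)) ∈ TT3 (N : ℤ) := by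
                refine ⟨by exact_mod_cast hN, hA1, hM1, h1.1, hA2, ?_, hM2, ?_, ?_⟩
                · show X A ≤ 12 * (N : ℤ)
                  omega
                · show X M ≤ 6 * (N : ℤ)
                  omega
                · show X D = 24 * (N : ℤ) - X A + Y M
                  rw [h1.2, hd]
              rw [Set.indicator_of_mem h2, Set.indicator_of_mem hD]
            · rw [Set.indicator_of_notMem hD]
              simp
    · rw [Set.indicator_of_notMem hM]
      simp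
  · rw [Set.indicator_of_notMem hA]
    simp

end Stick

open Stick in
theorem stick {u : ℝ} (h1 : ∀ s : ℕ, mass (ex u 0 0) (BrS s) ≤ 1) {κ : ℝ} (hκ : 0 < κ) {s₀ : ℕ}
    (h2 : ∀ s : ℕ, s₀ ≤ s → ENNReal.ofReal κ ≤ mass (ex u 0 0) (BrS s ∩ Fw (1 / 20) ∩ Bw (1 / 20))) :
    False := by
  obtain ⟨n, hn⟩ := exists_nat_gt (1 / κ ^ 3)
  set N : ℕ := n + s₀ + 1 with hNdef
  have hN : 0 < N := by omega
  have hs : s₀ ≤ N := by omega
  have h3 := le_mass_TT3 hN hs h2
  have h4 := mass_TT3_le (u := u) (N : ℤ)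
  have h5 := h1 (24 * N)
  push_cast at h5
  have h6 := mass_Rg (u := u) (κ := ENNReal.ofReal κ) (p := 8 * N) (q := 12 * N + 1)
    (fun s hs' => h2 s (by omega))
  have h7 := mass_Rg (u := u) (κ := ENNReal.ofReal κ) (p := 3 * N) (q := 6 * N + 1)
    (fun s hs' => h2 s (by omega))
  have e1 : 12 * N + 1 - 8 * N = 4 * N + 1 := by omega
  have e2 : 6 * N + 1 - 3 * N = 3 * N + 1 := by omega
  rw [e1] at h6
  rw [e2] at h7
  have h8 : ((4 * N + 1 : ℕ) : ℝ≥0∞) * ENNReal.ofReal κ *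
      (((3 * N + 1 : ℕ) : ℝ≥0∞) * ENNReal.ofReal κ * ENNReal.ofReal κ) ≤ 1 := by
    refine le_trans ?_ (h3.trans (h4.trans h5))
    gcongr
  have h9 : ENNReal.ofReal (((4 * N + 1 : ℕ) : ℝ) * κ * (((3 * N + 1 : ℕ) : ℝ) * κ * κ)) ≤ 1 := by
    rw [ENNReal.ofReal_mul (by positivity), ENNReal.ofReal_mul (by positivity),
      ENNReal.ofReal_mul (by positivity), ENNReal.ofReal_mul (by positivity),
      ENNReal.ofReal_natCast, ENNReal.ofReal_natCast]
    exact h8
  rw [ENNReal.ofReal_le_one] at h9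
  have h10 : (n : ℝ) ≤ N := by exact_mod_cast (by omega : n ≤ N)
  have h11 : (1 : ℝ) ≤ N := by exact_mod_cast hN
  have h12 : 1 < n * κ ^ 3 := by
    rw [div_lt_iff₀ (by positivity)] at hn
    exact hn
  have h13 : (n : ℝ) * κ ^ 3 ≤ N * κ ^ 3 := by gcongr
  have h14 : ((4 * N + 1 : ℕ) : ℝ) * κ * (((3 * N + 1 : ℕ) : ℝ) * κ * κ)
      = (4 * N + 1) * (3 * N + 1) * κ ^ 3 := by push_cast; ring
  rw [h14] at h9
  have h15 : (N : ℝ) * κ ^ 3 ≤ (4 * N + 1) * (3 * N + 1) * κ ^ 3 := by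
    gcongr
    nlinarith
  linarith

end Pool.Agent.SAPZ
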