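import Pool.Agent.SAPZ.Defs
import Pool.Agent.SAPX.Models

/-!
The law of the pieces at zero force.
-/

namespace Pool.Agent.SAPZ

open scoped ENNReal
open Filter Topology Pool.Agent.SAPF

namespace ZeroF

/-- parameters exist for every positive force -/
lemma exists_par {c : ℝ} (hc : 0 < c) : ∃ u : ℝ, Params u c := by
  obtain ⟨u, h⟩ := Pool.Agent.SAPX.exists_params (f := 2 * c) (by positivity)
  refine ⟨u, ?_⟩
  rwa [show 2 * c / 2 = c by ring] at h

/-- the tangent inequality for the weights of a word -/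
lemma ex_tangent {u c u₁ c₁ : ℝ} (hu : u₁ ≤ u) (hc : c₁ ≤ c) {w : Word} (hX : 0 ≤ X w) :
    ex u c 0 w + ENNReal.ofReal (u - u₁) * (ex u c 0 w * (w.length : ℝ≥0∞)) ≤
      ex u₁ c₁ 0 w + ENNReal.ofReal (c - c₁) * (ex u c 0 w * ENNReal.ofReal (X w)) := by
  have hX' : (0 : ℝ) ≤ X w := by exact_mod_cast hX
  have hl : (w.length : ℝ≥0∞) = ENNReal.ofReal (w.length : ℝ) := by simp
  have hu' : 0 ≤ u - u₁ := sub_nonneg.2 hu
  have hc' : 0 ≤ c - c₁ := sub_nonneg.2 hc
  unfold ex
  rw [hl, ← ENNReal.ofReal_mul (Real.exp_pos _).le, ← ENNReal.ofReal_mul hu',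
    ← ENNReal.ofReal_mul (Real.exp_pos _).le, ← ENNReal.ofReal_mul hc',
    ← ENNReal.ofReal_add (Real.exp_pos _).le (by positivity),
    ← ENNReal.ofReal_add (Real.exp_pos _).le (by positivity)]
  apply ENNReal.ofReal_le_ofReal
  set e := Real.exp (-u * w.length + c * X w + 0 * Y w) with he
  have h1 : Real.exp (-u₁ * w.length + c₁ * X w + 0 * Y w) =
      e * Real.exp ((u - u₁) * w.length - (c - c₁) * X w) := by
    rw [he, ← Real.exp_add]
    congr 1
    ring
  have h2 := Real.add_one_le_exp ((u - u₁) * w.length - (c - c₁) * X w)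
  have h3 := mul_le_mul_of_nonneg_left h2 (Real.exp_pos _ : 0 < e).le
  rw [h1]
  nlinarith

/-- the mean length of a piece -/
lemma mean_length {v : ℝ} (hv : Ball v) {C : ℝ≥0∞} {c' : ℝ}
    (h : ∀ u c, Params u c → c < c' → mass (fun w => ex u c 0 w * ENNReal.ofReal (X w)) Irr ≤ C)
    {u c : ℝ} (hp : Params u c) (hc : c < c') :
    mass (fun w => ex u c 0 w * (w.length : ℝ≥0∞)) Irr ≤ C / ENNReal.ofReal v := by
  obtain ⟨u₁, h1⟩ := exists_par (half_pos hp.c_pos)
  have hlow := hv.lower h1 hp (half_lt_self hp.c_pos)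
  have hc0 := hp.c_pos
  have hv0 := hv.pos
  have hcc : c - c / 2 = c / 2 := by ring
  rw [hcc] at hlow
  have hu : u₁ ≤ u := by
    have : 0 < v * (c / 2) := by positivity
    linarith
  have key : mass (fun w => ex u c 0 w + ENNReal.ofReal (u - u₁) *
      (ex u c 0 w * (w.length : ℝ≥0∞))) Irr ≤ mass (fun w => ex u₁ (c / 2) 0 w +
      ENNReal.ofReal (c - c / 2) * (ex u c 0 w * ENNReal.ofReal (X w))) Irr := by
    refine mass_mono_fun fun w hw => ?_
    exact ex_tangent hu (half_le_self hc0.le) (IsIrr.X_pos hw).le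
  rw [mass_add, mass_add, mass_const_mul, mass_const_mul, hcc] at key
  have e1 : mass (fun w => ex u c 0 w) Irr = 1 := hp.one
  have e2 : mass (fun w => ex u₁ (c / 2) 0 w) Irr = 1 := h1.one
  rw [e1, e2] at key
  have key2 := (ENNReal.add_le_add_iff_left ENNReal.one_ne_top).1 key
  set M := mass (fun w => ex u c 0 w * (w.length : ℝ≥0∞)) Irr
  have h3 : ENNReal.ofReal (c / 2) * (M * ENNReal.ofReal v) ≤ ENNReal.ofReal (c / 2) * C := by
    calc ENNReal.ofReal (c / 2) * (M * ENNReal.ofReal v)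
        = ENNReal.ofReal (v * (c / 2)) * M := by
          rw [ENNReal.ofReal_mul hv0.le]; ring
      _ ≤ ENNReal.ofReal (u - u₁) * M := by
          gcongr
      _ ≤ ENNReal.ofReal (c / 2) * mass (fun w => ex u c 0 w * ENNReal.ofReal (X w)) Irr := key2
      _ ≤ ENNReal.ofReal (c / 2) * C := by
          gcongr
          exact h u c hp hc
  have h4 : M * ENNReal.ofReal v ≤ C :=
    (ENNReal.mul_le_mul_iff_right (ENNReal.ofReal_pos.2 (half_pos hc0)).ne'
      ENNReal.ofReal_ne_top).1 h3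
  rw [ENNReal.le_div_iff_mul_le (Or.inl (ENNReal.ofReal_pos.2 hv0).ne')
    (Or.inl ENNReal.ofReal_ne_top)]
  exact h4

lemma tendsto_ex {un cn : ℕ → ℝ} {u : ℝ} (hu : Tendsto un atTop (𝓝 u))
    (hc : Tendsto cn atTop (𝓝 0)) (w : Word) :
    Tendsto (fun n => ex (un n) (cn n) 0 w) atTop (𝓝 (ex u 0 0 w)) := by
  unfold ex
  refine (ENNReal.continuous_ofReal.tendsto _).comp ((Real.continuous_exp.tendsto _).comp ?_)
  exact ((hu.neg.mul_const _).add (hc.mul_const _)).add tendsto_const_nhds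

/-- the words of length at most `N` in `A` -/
lemma fin_le (A : Set Word) (N : ℕ) : (A ∩ {w : Word | w.length ≤ N}).Finite :=
  (List.finite_length_le Dir N).subset Set.inter_subset_right

/-- Markov -/
lemma mass_long (φ : Word → ℝ≥0∞) (A : Set Word) {N : ℕ} (hN : 0 < N) :
    mass φ (A ∩ {w : Word | N < w.length}) ≤
      mass (fun w => φ w * (w.length : ℝ≥0∞)) A / (N : ℝ≥0∞) := by
  rw [ENNReal.le_div_iff_mul_le (Or.inl (by exact_mod_cast hN.ne')) (Or.inl (by simp)),
    mul_comm, ← mass_const_mul]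
  refine le_trans (mass_mono_fun fun w hw => ?_) (mass_mono Set.inter_subset_left)
  have h1 : (N : ℝ≥0∞) ≤ (w.length : ℝ≥0∞) := by
    have : N ≤ w.length := le_of_lt hw.2
    exact_mod_cast this
  calc (N : ℝ≥0∞) * φ w ≤ (w.length : ℝ≥0∞) * φ w := by gcongr
    _ = φ w * (w.length : ℝ≥0∞) := mul_comm _ _

end ZeroF

open ZeroF

theorem zero_force {v : ℝ} (hv : Ball v)
    (h : ∃ C : ℝ≥0∞, C ≠ ∞ ∧ ∃ c' > 0, ∀ u c, Params u c →
      c < c' → mass (fun w => ex u c 0 w * ENNReal.ofReal (X w)) Irr ≤ C) :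
    ∃ u, Zero u := by
  obtain ⟨C, hC, c', hc', h⟩ := h
  set K : ℝ≥0∞ := C / ENNReal.ofReal v with hK
  have hKt : K ≠ ∞ := ENNReal.div_ne_top hC (ENNReal.ofReal_pos.2 hv.pos).ne'
  -- the sequence of forces
  set cn : ℕ → ℝ := fun n => c' / ((n : ℝ) + 2) with hcn
  have hcpos : ∀ n, 0 < cn n := fun n => by simp only [hcn]; positivity
  have hclt : ∀ n, cn n < c' := fun n => by
    simp only [hcn]
    rw [div_lt_iff₀ (by positivity)]
    have : (0 : ℝ) ≤ n := Nat.cast_nonneg n
    nlinarith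
  have hcanti : ∀ n, cn (n + 1) < cn n := fun n => by
    simp only [hcn]
    push_cast
    exact div_lt_div_of_pos_left hc' (by positivity) (by linarith)
  have hctend : Tendsto cn atTop (𝓝 0) := by
    have h1 : Tendsto (fun n : ℕ => (n : ℝ) + 2) atTop atTop :=
      tendsto_atTop_add_const_right _ _ tendsto_natCast_atTop_atTop
    exact h1.const_div_atTop c'
  choose un hun using fun n => exists_par (hcpos n)
  have huanti : Antitone un := by
    refine antitone_nat_of_succ_le fun n => ?_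
    have h1 := hv.lower (hun (n + 1)) (hun n) (hcanti n)
    have h2 : 0 ≤ v * (cn n - cn (n + 1)) :=
      mul_nonneg hv.pos.le (sub_nonneg.2 (hcanti n).le)
    linarith
  have hubdd : BddBelow (Set.range un) := by
    refine ⟨0, ?_⟩
    rintro _ ⟨n, rfl⟩
    exact (hun n).u_pos.le
  set u : ℝ := ⨅ n, un n with hu
  have hutend : Tendsto un atTop (𝓝 u) := tendsto_atTop_ciInf huanti hubdd
  have hlen : ∀ n, mass (fun w => ex (un n) (cn n) 0 w * (w.length : ℝ≥0∞)) Irr ≤ K := fun n =>
    mean_length hv h (hun n) (hclt n)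
  have hsum : ∀ s : Finset Word, Tendsto (fun n => ∑ a ∈ s, ex (un n) (cn n) 0 a) atTop
      (𝓝 (∑ a ∈ s, ex u 0 0 a)) := fun s =>
    tendsto_finsetSum _ fun a _ => tendsto_ex hutend hctend a
  refine ⟨u, le_antisymm ?_ ?_, ?_⟩
  · refine mass_le_of_finset fun s hs => ?_
    refine le_of_tendsto' (hsum s) fun n => ?_
    rw [← (hun n).one]
    exact sum_le_mass hs
  · -- lower bound
    have key : ∀ N : ℕ, 0 < N → 1 ≤ mass (ex u 0 0) Irr + K / (N : ℝ≥0∞) := by
      intro N hN
      have hF := fin_le Irr N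
      have h1 : ∀ n, 1 ≤ ∑ a ∈ hF.toFinset, ex (un n) (cn n) 0 a + K / (N : ℝ≥0∞) := by
        intro n
        have h2 : Irr ⊆ (↑hF.toFinset : Set Word) ∪ (Irr ∩ {w : Word | N < w.length}) := by
          intro w hw
          rcases le_or_gt w.length N with h3 | h3
          · left
            rw [Set.Finite.coe_toFinset]
            exact ⟨hw, h3⟩
          · right
            exact ⟨hw, h3⟩
        calc (1 : ℝ≥0∞) = mass (ex (un n) (cn n) 0) Irr := (hun n).one.symm
          _ ≤ mass (ex (un n) (cn n) 0)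
              ((↑hF.toFinset : Set Word) ∪ (Irr ∩ {w : Word | N < w.length})) := mass_mono h2
          _ ≤ mass (ex (un n) (cn n) 0) (↑hF.toFinset : Set Word) +
              mass (ex (un n) (cn n) 0) (Irr ∩ {w : Word | N < w.length}) :=
              mass_union_le _ _ _
          _ ≤ ∑ a ∈ hF.toFinset, ex (un n) (cn n) 0 a + K / (N : ℝ≥0∞) := by
              refine add_le_add ?_ ?_
              · rw [mass]
                exact (Finset.tsum_subtype' hF.toFinset (ex (un n) (cn n) 0)).le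
              · refine (mass_long _ Irr hN).trans ?_
                exact ENNReal.div_le_div_right (hlen n) _
      have h3 : 1 ≤ ∑ a ∈ hF.toFinset, ex u 0 0 a + K / (N : ℝ≥0∞) :=
        ge_of_tendsto' ((hsum hF.toFinset).add tendsto_const_nhds) h1
      refine h3.trans ?_
      gcongr
      refine sum_le_mass ?_
      rw [Set.Finite.coe_toFinset]
      exact Set.inter_subset_left
    have ht : Tendsto (fun N : ℕ => mass (ex u 0 0) Irr + K / (N : ℝ≥0∞)) atTop
        (𝓝 (mass (ex u 0 0) Irr + 0)) := by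
      refine tendsto_const_nhds.add ?_
      exact ENNReal.Tendsto.const_div ENNReal.tendsto_nat_nhds_top (Or.inr hKt) |>.trans
        (by simp)
    rw [add_zero] at ht
    refine ge_of_tendsto ht ?_
    filter_upwards [eventually_gt_atTop 0] with N hN
    exact key N hN
  · refine ne_top_of_le_ne_top hKt ?_
    refine mass_le_of_finset fun s hs => ?_
    have h1 : Tendsto (fun n => ∑ a ∈ s, ex (un n) (cn n) 0 a * (a.length : ℝ≥0∞)) atTop
        (𝓝 (∑ a ∈ s, ex u 0 0 a * (a.length : ℝ≥0∞))) :=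
      tendsto_finsetSum _ fun a _ =>
        ENNReal.Tendsto.mul_const (tendsto_ex hutend hctend a) (Or.inr (by simp))
    refine le_of_tendsto' h1 fun n => ?_
    exact (sum_le_mass (φ := fun w => ex (un n) (cn n) 0 w * (w.length : ℝ≥0∞)) hs).trans (hlen n)

end Pool.Agent.SAPZ
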