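import Pool.Agent.SAPZ.MeanS
import Pool.Agent.SAPZ.Zero
import Pool.Agent.SAPZ.Cone
import Pool.Agent.SAPZ.Stick
import Pool.Agent.SAPY.MainY

/-!
The speed at zero force vanishes; mean area of polygons of macroscopic width.
-/

namespace Pool.Agent.SAPZ

open scoped ENNReal
open Filter Topology Pool.Agent.SAPF

/-- **The free energy is flat at zero force.** -/
theorem not_ball (v : ℝ) : ¬Ball v := by
  intro hv
  obtain ⟨u, h⟩ := zero_force hv (mean_span hv)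
  obtain ⟨κ, hκ, s₀, h2⟩ := cone_low h (δ := 1 / 20) (by norm_num)
  refine stick (u := u) (fun s => ?_) hκ h2
  rw [BrS_eq]
  exact mass_brZ_le_one (ex_append _ _ _) (ex_nil _ _ _) isSize_span h.one.le s

open Pool.Agent.SAPX Pool.Agent.SAPK Pool.Agent.SAPY

/-- every speed between `0` and `1` is reached -/
theorem exists_speed {α : ℝ} (h0 : 0 < α) (h1 : α < 1) :
    ∃ u c : ℝ, 0 < c ∧ Params u c ∧ 2 * muA Set.univ u c = α := by
  obtain ⟨v₀, hv0, -, h2, h3, h4⟩ := speed_range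
  refine h4 α (lt_of_le_of_lt (not_lt.1 fun hv => not_ball v₀ ⟨hv, ?_, ?_⟩) h0) h1
  · intro u c u' c' hP hP' hc
    refine le_trans ?_ (tangent hP hP')
    exact mul_le_mul_of_nonneg_right (h2 u c hP.c_pos hP) (by linarith)
  · intro ε hε
    obtain ⟨u', c', hc', hP', h⟩ := h3 (v₀ + ε) (by linarith)
    refine ⟨u', c', hP', fun u c hP hc => ?_⟩
    have h5 := tangent hP' hP
    have h6 : 2 * muA Set.univ u' c' * (c' - c) ≤ (v₀ + ε) * (c' - c) :=
      mul_le_mul_of_nonneg_right h.le (by linarith)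
    linarith

/-- **Main theorem.** -/
theorem mainZ {α : ℝ} (h0 : 0 < α) (h1 : α < 1) : ∃ C > 0, ∀ (J : ℕ → Set ℤ) (w : ℕ → ℤ) (B : ℝ),
    (∀ n, IsLeast (J n) (w n)) → (∀ n : ℕ, |(w n : ℝ) - α * n| ≤ B * Real.sqrt n) →
    Tendsto (fun n : ℕ =>
      mArea {v : ZMod (2 * n) → ℤ × ℤ | IsSAP (2 * n) v ∧ width v ∈ J n} /
        (n : ℝ) ^ (3 / 2 : ℝ)) atTop (𝓝 C) := by
  obtain ⟨u, c, hc, hP, h⟩ := exists_speed h0 h1
  exact areaY hc hP h

end Pool.Agent.SAPZ
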