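import Pool.Agent.SAPZ.Thin
import Pool.Agent.SAPZ.Main

/-!
Mean area of the polygons of macroscopic diameter.
-/

namespace Pool.Agent.SAPZ

open Filter Topology Pool.Agent.SAPF Pool.Agent.SAPX Pool.Agent.SAPK Pool.Agent.SAPY

/-- diameter in the supremum norm -/
noncomputable def diam {m : ℕ} (v : ZMod m → ℤ × ℤ) : ℤ := max (width v) (height v)

open Classical in
lemma sum_pred {n : ℕ} (hn : 2 ≤ n) (P : (ZMod (2 * n) → ℤ × ℤ) → Prop)
    (hP : ∀ i v, P (SAPF.rot i v) ↔ P v) (F : (ZMod (2 * n) → ℤ × ℤ) → ℝ)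
    (hF : ∀ i v, F (SAPF.rot i v) = F v) :
    ∑ v ∈ (finite_SAP hn).toFinset, (if P v then F v else 0) =
      (2 * n : ℕ) * ∑ p ∈ (can Set.univ n).filter (fun p => P (poly n p)), F (poly n p) := by
  have h1 := sum_SAc hn Set.univ (fun v => if P v then F v else 0)
    (fun i v => by simp only [hP, hF])
  rw [SAc_univ hn, finsum_mem_eq_finite_toFinset_sum _ (finite_SAP hn)] at h1
  rw [h1, Finset.sum_filter]

open Classical in
lemma finsum_pred {n : ℕ} (hn : 2 ≤ n) (P : (ZMod (2 * n) → ℤ × ℤ) → Prop)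
    (F : (ZMod (2 * n) → ℤ × ℤ) → ℝ) :
    ∑ᶠ v ∈ {v : ZMod (2 * n) → ℤ × ℤ | IsSAP (2 * n) v ∧ P v}, F v =
      ∑ v ∈ (finite_SAP hn).toFinset, (if P v then F v else 0) := by
  have hfin2 : {v : ZMod (2 * n) → ℤ × ℤ | IsSAP (2 * n) v ∧ P v}.Finite :=
    (finite_SAP hn).subset fun _ hv => hv.1
  rw [finsum_mem_eq_finite_toFinset_sum _ hfin2, ← Finset.sum_filter]
  congr 1
  ext v
  simp

open Classical in
lemma ncard_pred {n : ℕ} (hn : 2 ≤ n) (P : (ZMod (2 * n) → ℤ × ℤ) → Prop) :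
    ({v : ZMod (2 * n) → ℤ × ℤ | IsSAP (2 * n) v ∧ P v}.ncard : ℝ) =
      ∑ v ∈ (finite_SAP hn).toFinset, (if P v then (1 : ℝ) else 0) := by
  have hfin2 : {v : ZMod (2 * n) → ℤ × ℤ | IsSAP (2 * n) v ∧ P v}.Finite :=
    (finite_SAP hn).subset fun _ hv => hv.1
  rw [← finsum_pred hn P (fun _ => 1), finsum_mem_eq_finite_toFinset_sum _ hfin2,
    Set.ncard_eq_toFinset_card _ hfin2]
  simp

lemma sum_sw {n : ℕ} (hn : 2 ≤ n) (g : (ZMod (2 * n) → ℤ × ℤ) → ℝ) :
    ∑ v ∈ (finite_SAP hn).toFinset, g (sw v) = ∑ v ∈ (finite_SAP hn).toFinset, g v := by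
  refine Finset.sum_nbij' sw sw ?_ ?_ ?_ ?_ ?_
  · intro v hv
    simp only [Set.Finite.mem_toFinset, Set.mem_ofPred_eq] at hv ⊢
    exact isSAP_sw hv
  · intro v hv
    simp only [Set.Finite.mem_toFinset, Set.mem_ofPred_eq] at hv ⊢
    exact isSAP_sw hv
  · intro v _; rfl
  · intro v _; rfl
  · intro v _; rfl

section bounds
open Classical

variable {n : ℕ} (hn : 2 ≤ n) {J : Set ℤ} {w : ℤ} (hJ : IsLeast J w)
  {F : (ZMod (2 * n) → ℤ × ℤ) → ℝ} (h0 : ∀ v, 0 ≤ F v) (hs : ∀ v, IsSAP (2 * n) v → F (sw v) = F v)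
include hs h0

lemma D_le : ∑ v ∈ (finite_SAP hn).toFinset, (if diam v ∈ J then F v else 0) ≤
    2 * ∑ v ∈ (finite_SAP hn).toFinset, (if width v ∈ J then F v else 0) := by
  have h1 := sum_sw hn (fun v => if width v ∈ J then F v else 0)
  have e : 2 * ∑ v ∈ (finite_SAP hn).toFinset, (if width v ∈ J then F v else 0) =
      ∑ v ∈ (finite_SAP hn).toFinset, ((if width v ∈ J then F v else 0) +
        (if width (sw v) ∈ J then F (sw v) else 0)) := by
    rw [Finset.sum_add_distrib, h1]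
    ring
  rw [e]
  refine Finset.sum_le_sum fun v hv => ?_
  simp only [Set.Finite.mem_toFinset, Set.mem_ofPred_eq] at hv
  rw [hs v hv, width_sw]
  have h2 := h0 v
  by_cases hd : diam v ∈ J
  · rw [if_pos hd]
    rcases le_total (width v) (height v) with h | h
    · have : height v ∈ J := by
        have e : diam v = height v := max_eq_right h
        rwa [e] at hd
      rw [if_pos this]
      split_ifs <;> linarith
    · have : width v ∈ J := by
        have e : diam v = width v := max_eq_left h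
        rwa [e] at hd
      rw [if_pos this]
      split_ifs <;> linarith
  · rw [if_neg hd]
    split_ifs <;> linarith

include hJ in
lemma le_D : 2 * ∑ v ∈ (finite_SAP hn).toFinset, (if width v ∈ J then F v else 0) -
    2 * ∑ v ∈ (finite_SAP hn).toFinset, (if width v ∈ J ∧ w ≤ height v then F v else 0) ≤
    ∑ v ∈ (finite_SAP hn).toFinset, (if diam v ∈ J then F v else 0) := by
  have h1 := sum_sw hn (fun v => (if width v ∈ J then F v else 0) -
    (if width v ∈ J ∧ w ≤ height v then F v else 0))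
  have e : 2 * ∑ v ∈ (finite_SAP hn).toFinset, (if width v ∈ J then F v else 0) -
      2 * ∑ v ∈ (finite_SAP hn).toFinset, (if width v ∈ J ∧ w ≤ height v then F v else 0) =
      ∑ v ∈ (finite_SAP hn).toFinset, (((if width v ∈ J then F v else 0) -
        (if width v ∈ J ∧ w ≤ height v then F v else 0)) +
        ((if width (sw v) ∈ J then F (sw v) else 0) -
        (if width (sw v) ∈ J ∧ w ≤ height (sw v) then F (sw v) else 0))) := by
    rw [Finset.sum_add_distrib, h1, Finset.sum_sub_distrib]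
    ring
  rw [e]
  refine Finset.sum_le_sum fun v hv => ?_
  simp only [Set.Finite.mem_toFinset, Set.mem_ofPred_eq] at hv
  rw [hs v hv, width_sw, height_sw]
  have h2 := h0 v
  by_cases hw : width v ∈ J
  · have h3 := hJ.2 hw
    by_cases hh : w ≤ height v
    · rw [if_pos hw, if_pos ⟨hw, hh⟩]
      by_cases hh2 : height v ∈ J
      · rw [if_pos hh2, if_pos ⟨hh2, h3⟩]
        split_ifs <;> linarith
      · rw [if_neg hh2, if_neg (fun h => hh2 h.1)]
        split_ifs <;> linarith
    · have hh2 : height v ∉ J := fun h => hh (hJ.2 h)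
      have hd : diam v ∈ J := by
        have : diam v = width v := max_eq_left (by omega)
        rwa [this]
      rw [if_pos hw, if_neg (fun h => hh h.2), if_neg hh2, if_neg (fun h => hh2 h.1), if_pos hd]
      linarith
  · rw [if_neg hw, if_neg (fun h => hw h.1)]
    by_cases hh : height v ∈ J
    · have h3 := hJ.2 hh
      by_cases hw2 : w ≤ width v
      · rw [if_pos hh, if_pos ⟨hh, hw2⟩]
        split_ifs <;> linarith
      · have hd : diam v ∈ J := by
          have : diam v = height v := max_eq_right (by omega)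
          rwa [this]
        rw [if_pos hh, if_neg (fun h => hw2 h.2), if_pos hd]
        linarith
    · rw [if_neg hh, if_neg (fun h => hh h.1)]
      split_ifs <;> linarith

end bounds

lemma area_poly_le {A : Set Word} {n : ℕ} (hn : 2 ≤ n) {p : PW} (hp : p ∈ can A n) :
    (area (poly n p) : ℝ) ≤ 4 * (n : ℝ) ^ 2 := by
  obtain ⟨ha, -, -, -⟩ := isArcs_can hn hp
  have h1 := area_le hn ha (H := 2 * n) (fun t ht => ?_) (fun t ht => ?_)
  · have h2 := ha.width_le
    have h3 : (area (poly n p) : ℤ) ≤ 4 * (n : ℤ) ^ 2 := by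
      push_cast at h1
      nlinarith
    exact_mod_cast h3
  · have h2 := abs_Y_le t
    have h3 := ht.length_le
    have h4 := ha.len
    push_cast
    omega
  · have h2 := abs_Y_le t
    have h3 := ht.length_le
    have h4 := ha.len
    push_cast
    omega

/-- **Mean area at macroscopic diameter.** -/
theorem mainD {α : ℝ} (h0 : 0 < α) (h1 : α < 1) : ∃ C > 0, ∀ (J : ℕ → Set ℤ) (w : ℕ → ℤ) (B : ℝ),
    (∀ n, IsLeast (J n) (w n)) → (∀ n : ℕ, |(w n : ℝ) - α * n| ≤ B * Real.sqrt n) →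
    Tendsto (fun n : ℕ =>
      mArea {v : ZMod (2 * n) → ℤ × ℤ | IsSAP (2 * n) v ∧ diam v ∈ J n} /
        (n : ℝ) ^ (3 / 2 : ℝ)) atTop (𝓝 C) := by
  classical
  obtain ⟨u, c, hc, hP, h⟩ := exists_speed h0 h1
  obtain ⟨C, hC, harea⟩ := areaY hc hP h
  refine ⟨C, hC, fun J w B hJ hB => ?_⟩
  have hmain := harea J w B hJ hB
  have hthin := thin hc hP h h0 hJ hB
  -- the sums over polygons
  set Sa : ℕ → ℝ := fun n => if hn : 2 ≤ n then
    ∑ v ∈ (finite_SAP hn).toFinset, (if width v ∈ J n then (area v : ℝ) else 0) else 0 with hSa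
  set S1 : ℕ → ℝ := fun n => if hn : 2 ≤ n then
    ∑ v ∈ (finite_SAP hn).toFinset, (if width v ∈ J n then (1 : ℝ) else 0) else 0 with hS1
  set Ea : ℕ → ℝ := fun n => if hn : 2 ≤ n then
    ∑ v ∈ (finite_SAP hn).toFinset, (if width v ∈ J n ∧ w n ≤ height v then (area v : ℝ) else 0)
    else 0 with hEa
  set E1 : ℕ → ℝ := fun n => if hn : 2 ≤ n then
    ∑ v ∈ (finite_SAP hn).toFinset, (if width v ∈ J n ∧ w n ≤ height v then (1 : ℝ) else 0)
    else 0 with hE1
  set Da : ℕ → ℝ := fun n => if hn : 2 ≤ n then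
    ∑ v ∈ (finite_SAP hn).toFinset, (if diam v ∈ J n then (area v : ℝ) else 0) else 0 with hDa
  set D1 : ℕ → ℝ := fun n => if hn : 2 ≤ n then
    ∑ v ∈ (finite_SAP hn).toFinset, (if diam v ∈ J n then (1 : ℝ) else 0) else 0 with hD1
  have hlimS : Tendsto (fun n => Sa n / S1 n / (n : ℝ) ^ (3 / 2 : ℝ)) atTop (𝓝 C) := by
    refine hmain.congr' ?_
    filter_upwards [eventually_ge_atTop 2] with n hn
    unfold mArea
    rw [finsum_pred hn (fun v => width v ∈ J n), ncard_pred hn (fun v => width v ∈ J n)]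
    simp only [hSa, hS1, dif_pos hn]
  -- bounds for the sums over polygons of large diameter
  have hb : ∀ᶠ n : ℕ in atTop, (2 * Sa n - 2 * Ea n ≤ Da n ∧ Da n ≤ 2 * Sa n) ∧
      (2 * S1 n - 2 * E1 n ≤ D1 n ∧ D1 n ≤ 2 * S1 n) := by
    filter_upwards [eventually_ge_atTop 2] with n hn
    have : NeZero (2 * n) := ⟨by omega⟩
    simp only [hSa, hS1, hEa, hE1, hDa, hD1, dif_pos hn]
    refine ⟨⟨?_, ?_⟩, ?_, ?_⟩
    · exact le_D hn (hJ n) (F := fun v => (area v : ℝ)) (fun v => Nat.cast_nonneg _)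
        (fun v hv => by simp only [area_sw hv])
    · exact D_le hn (F := fun v => (area v : ℝ)) (fun v => Nat.cast_nonneg _)
        (fun v hv => by simp only [area_sw hv])
    · exact le_D hn (hJ n) (F := fun _ => (1 : ℝ)) (fun v => zero_le_one) (fun v hv => rfl)
    · exact D_le hn (F := fun _ => (1 : ℝ)) (fun v => zero_le_one) (fun v hv => rfl)
  -- the errors
  have hE : ∀ᶠ n : ℕ in atTop, Ea n ≤ 4 * (n : ℝ) ^ 2 * E1 n ∧ 0 ≤ E1 n ∧ 0 ≤ Ea n ∧
      (n : ℝ) ^ 3 * E1 n / S1 n = (n : ℝ) ^ 3 * ((tall n (J n) (w n)).card : ℝ) /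
        ((canJ Set.univ n (J n)).card : ℝ) := by
    filter_upwards [eventually_ge_atTop 2] with n hn
    have : NeZero (2 * n) := ⟨by omega⟩
    have hrot : ∀ (i : ZMod (2 * n)) (v : ZMod (2 * n) → ℤ × ℤ),
        (width (SAPF.rot i v) ∈ J n ∧ w n ≤ height (SAPF.rot i v)) ↔
          (width v ∈ J n ∧ w n ≤ height v) := by
      intro i v
      rw [width_rot, height_rot]
    have h2n : (0 : ℝ) < ((2 * n : ℕ) : ℝ) := by
      have : 0 < 2 * n := by omega
      exact_mod_cast this
    have e1 := sum_pred hn (fun v => width v ∈ J n ∧ w n ≤ height v) hrot (fun _ => (1 : ℝ))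
      (fun _ _ => rfl)
    have e2 := sum_pred hn (fun v => width v ∈ J n ∧ w n ≤ height v) hrot
      (fun v => (area v : ℝ)) (fun i v => by rw [area_rot])
    have e3 := sum_pred hn (fun v => width v ∈ J n) (fun i v => by rw [width_rot])
      (fun _ => (1 : ℝ)) (fun _ _ => rfl)
    have t1 : (can Set.univ n).filter (fun p => width (poly n p) ∈ J n ∧
        w n ≤ height (poly n p)) = tall n (J n) (w n) := by
      unfold tall canJ
      ext p
      simp only [Finset.mem_filter]
      constructor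
      · rintro ⟨h2, h3, h4⟩
        rw [width_poly hn h2] at h3
        exact ⟨⟨h2, h3⟩, h4⟩
      · rintro ⟨⟨h2, h3⟩, h4⟩
        exact ⟨h2, by rw [width_poly hn h2]; exact h3, h4⟩
    have t2 : (can Set.univ n).filter (fun p => width (poly n p) ∈ J n) =
        canJ Set.univ n (J n) := by
      unfold canJ
      refine Finset.filter_congr fun p hp => ?_
      rw [width_poly hn hp]
    simp only [hS1, hEa, hE1, dif_pos hn]
    have e1 : ∑ v ∈ (finite_SAP hn).toFinset,
        (if width v ∈ J n ∧ w n ≤ height v then (1 : ℝ) else 0) =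
        (2 * n : ℕ) * ∑ p ∈ tall n (J n) (w n), (1 : ℝ) := by
      rw [← t1]
      convert e1
    have e2 : ∑ v ∈ (finite_SAP hn).toFinset,
        (if width v ∈ J n ∧ w n ≤ height v then (area v : ℝ) else 0) =
        (2 * n : ℕ) * ∑ p ∈ tall n (J n) (w n), (area (poly n p) : ℝ) := by
      rw [← t1]
      convert e2
    have e3 : ∑ v ∈ (finite_SAP hn).toFinset, (if width v ∈ J n then (1 : ℝ) else 0) =
        (2 * n : ℕ) * ∑ p ∈ canJ Set.univ n (J n), (1 : ℝ) := by
      rw [← t2]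
      convert e3
    refine ⟨?_, ?_, ?_, ?_⟩
    · rw [e1, e2]
      have h5 : ∑ p ∈ tall n (J n) (w n), (area (poly n p) : ℝ) ≤
          ∑ p ∈ tall n (J n) (w n), 4 * (n : ℝ) ^ 2 * 1 := by
        refine Finset.sum_le_sum fun p hp => ?_
        unfold tall canJ at hp
        rw [Finset.mem_filter, Finset.mem_filter] at hp
        rw [mul_one]
        exact area_poly_le hn hp.1.1
      rw [← Finset.mul_sum] at h5
      calc _ ≤ ((2 * n : ℕ) : ℝ) * (4 * (n : ℝ) ^ 2 * ∑ p ∈ tall n (J n) (w n), (1 : ℝ)) :=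
            mul_le_mul_of_nonneg_left h5 h2n.le
        _ = _ := by ring
    · exact Finset.sum_nonneg fun v _ => by split_ifs <;> norm_num
    · exact Finset.sum_nonneg fun v _ => by split_ifs <;> positivity
    · rw [e1, e3]
      simp only [Finset.sum_const, nsmul_eq_mul, mul_one]
      rw [mul_left_comm, mul_div_mul_left _ _ h2n.ne']
  have hy : Tendsto (fun n : ℕ => (n : ℝ) ^ 3 * E1 n / S1 n) atTop (𝓝 0) := by
    refine hthin.congr' ?_
    filter_upwards [hE] with n hn
    exact hn.2.2.2.symm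
  have hpos : ∀ᶠ n : ℕ in atTop, 0 < S1 n := by
    have h2 := hlimS.eventually (lt_mem_nhds hC)
    filter_upwards [h2, eventually_ge_atTop 2] with n h3 hn
    have h4 : 0 ≤ S1 n := by
      simp only [hS1, dif_pos hn]
      exact Finset.sum_nonneg fun v _ => by split_ifs <;> norm_num
    rcases h4.eq_or_lt with h5 | h5
    · rw [← h5, div_zero, zero_div] at h3
      exact absurd h3 (lt_irrefl _)
    · exact h5
  -- the two error terms
  have hx1 : Tendsto (fun n => (2 * Sa n - Da n) / (2 * S1 n) / (n : ℝ) ^ (3 / 2 : ℝ)) atTop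
      (𝓝 0) := by
    have hy4 := hy.const_mul 4
    rw [mul_zero] at hy4
    refine squeeze_zero' ?_ ?_ hy4
    · filter_upwards [hb, hpos] with n h2 h3
      have := h2.1.2
      have h4 : 0 ≤ 2 * Sa n - Da n := by linarith
      positivity
    · filter_upwards [hb, hE, hpos, eventually_ge_atTop 2] with n h2 h3 h4 hn
      have hn1 : (1 : ℝ) ≤ n := by
        have : 1 ≤ n := by omega
        exact_mod_cast this
      have h5 : 1 ≤ (n : ℝ) ^ (3 / 2 : ℝ) := Real.one_le_rpow hn1 (by norm_num)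
      have h6 : 0 ≤ (2 * Sa n - Da n) / (2 * S1 n) := by
        have h7 : 0 ≤ 2 * Sa n - Da n := by linarith [h2.1.2]
        positivity
      calc (2 * Sa n - Da n) / (2 * S1 n) / (n : ℝ) ^ (3 / 2 : ℝ)
          ≤ (2 * Sa n - Da n) / (2 * S1 n) := div_le_self h6 h5
        _ ≤ (2 * (4 * (n : ℝ) ^ 2 * E1 n)) / (2 * S1 n) := by
            gcongr
            linarith [h2.1.1, h3.1]
        _ = 4 * ((n : ℝ) ^ 2 * E1 n / S1 n) := by
            field_simp
        _ ≤ 4 * ((n : ℝ) ^ 3 * E1 n / S1 n) := by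
            have h7 := h3.2.1
            have h8 : (n : ℝ) ^ 2 ≤ (n : ℝ) ^ 3 := pow_le_pow_right₀ hn1 (by norm_num)
            gcongr
  have hx2 : Tendsto (fun n => (2 * S1 n - D1 n) / (2 * S1 n)) atTop (𝓝 0) := by
    refine squeeze_zero' ?_ ?_ hy
    · filter_upwards [hb, hpos] with n h2 h3
      have h4 : 0 ≤ 2 * S1 n - D1 n := by linarith [h2.2.2]
      positivity
    · filter_upwards [hb, hE, hpos, eventually_ge_atTop 2] with n h2 h3 h4 hn
      have hn1 : (1 : ℝ) ≤ n := by
        have : 1 ≤ n := by omega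
        exact_mod_cast this
      calc (2 * S1 n - D1 n) / (2 * S1 n) ≤ (2 * E1 n) / (2 * S1 n) := by
            gcongr
            linarith [h2.2.1]
        _ = 1 * E1 n / S1 n := by
            field_simp
        _ ≤ (n : ℝ) ^ 3 * E1 n / S1 n := by
            have h7 := h3.2.1
            have h8 : (1 : ℝ) ≤ (n : ℝ) ^ 3 := one_le_pow₀ hn1
            gcongr
  have hfin := (hlimS.sub hx1).div (hx2.const_sub 1) (by norm_num)
  rw [sub_zero, sub_zero, div_one] at hfin
  refine hfin.congr' ?_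
  filter_upwards [hpos, eventually_ge_atTop 2] with n h2 hn
  unfold mArea
  rw [finsum_pred hn (fun v => diam v ∈ J n), ncard_pred hn (fun v => diam v ∈ J n)]
  have e1 : ∑ v ∈ (finite_SAP hn).toFinset, (if diam v ∈ J n then (area v : ℝ) else 0) = Da n := by
    simp only [hDa, dif_pos hn]
  have e2 : ∑ v ∈ (finite_SAP hn).toFinset, (if diam v ∈ J n then (1 : ℝ) else 0) = D1 n := by
    simp only [hD1, dif_pos hn]
  rw [e1, e2]
  simp only [Pi.div_apply]
  have hn0 : (0 : ℝ) < (n : ℝ) ^ (3 / 2 : ℝ) := by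
    apply Real.rpow_pos_of_pos
    have : 0 < n := by omega
    exact_mod_cast this
  have h3 : 1 - (2 * S1 n - D1 n) / (2 * S1 n) = D1 n / (2 * S1 n) := by
    field_simp
    ring
  have h4 : Sa n / S1 n / (n : ℝ) ^ (3 / 2 : ℝ) -
      (2 * Sa n - Da n) / (2 * S1 n) / (n : ℝ) ^ (3 / 2 : ℝ) =
      Da n / (2 * S1 n) / (n : ℝ) ^ (3 / 2 : ℝ) := by
    field_simp
    ring
  rw [h3, h4]
  rcases eq_or_ne (D1 n) 0 with h5 | h5
  · rw [h5]
    simp
  · field_simp

end Pool.Agent.SAPZ
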