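import Pool.Agent.SAPZ.Defs

/-!
Masses of excursions: `mass_TT`, `mass_Lev`.
-/

namespace Pool.Agent.SAPZ

open scoped ENNReal
open Filter Topology Pool.Agent.SAPF

namespace Exc

/-- at zero force bridges have less weight -/
lemma mass_BrS_le {u c : ℝ} (hc : 0 ≤ c) (h1 : ∀ s : ℕ, mass (ex u c 0) (BrS s) ≤ 1) (s : ℕ) :
    mass (ex u 0 0) (BrS s) ≤ 1 := by
  refine le_trans (mass_mono_fun fun w hw => ?_) (h1 s)
  unfold ex
  apply ENNReal.ofReal_le_ofReal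
  apply Real.exp_le_exp.2
  have h2 : (0 : ℝ) ≤ X w := by exact_mod_cast hw.1.X_nonneg
  have h3 : 0 ≤ c * (X w : ℝ) := mul_nonneg hc h2
  linarith

/-- the decomposition of an excursion at the last visit of its maximal level -/
lemma RX_decomp {m : ℕ} {p : Word} (hp : p ∈ RX m) : ∃ k : ℕ, k < m ∧
    ∃ a ∈ BrS ((k + 1 : ℕ) : ℤ), ∃ b ∈ BrS (k : ℤ), p = a ++ flipX b := by
  obtain ⟨hsaw, hX, hpos, hle⟩ := hp
  obtain ⟨a, v, rfl, ha, hv⟩ := exists_longest_prefix p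
    (fun x => x = [] ∨ ∀ t, t <+: p → X t ≤ X x) (Or.inl rfl)
  have hpne : a ++ v ≠ [] := by
    intro h
    rw [h] at hX
    simp at hX
  -- some beginning has maximal level
  have hamax : ∀ t, t <+: a ++ v → X t ≤ X a := by
    rcases ha with rfl | ha
    · exfalso
      -- the maximal level is attained
      have hex : ∃ t, t <+: ([] : Word) ++ v ∧ ∀ t', t' <+: ([] : Word) ++ v → X t' ≤ X t := by
        have hfin : {t : Word | t <+: ([] : Word) ++ v}.Finite := by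
          refine (List.finite_toSet (([] : Word) ++ v).inits).subset ?_
          intro t ht
          exact (List.mem_inits _ _).2 ht
        obtain ⟨t, ht, htm⟩ := Set.exists_max_image _ X hfin
          ⟨[], List.nil_prefix⟩
        exact ⟨t, ht, htm⟩
      obtain ⟨t, ht, htm⟩ := hex
      have ht0 : t ≠ [] := by
        rintro rfl
        have h1 := htm (([] : Word) ++ v) (List.prefix_refl _)
        rw [hX] at h1
        simp at h1
      exact hv t (by simpa using ht) ht0 (Or.inr (by simpa using htm))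
    · exact ha
  have hXa : 1 ≤ X a := by
    have h1 := hamax (a ++ v) (List.prefix_refl _)
    rw [hX] at h1
    exact h1
  have hXam := hle a (List.prefix_append a v)
  have hv' : ∀ t, t <+: v → t ≠ [] → X t < 0 := by
    intro t ht h0
    have h2 := hv t ht h0
    push Not at h2
    obtain ⟨_, t', ht', h3⟩ := h2
    have h4 := hamax t' ht'
    rw [X_append] at h3
    omega
  have hXv : X v = 1 - X a := by
    rw [X_append] at hX
    omega
  have hane : a ≠ [] := by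
    rintro rfl
    simp at hXa
  refine ⟨(X a - 1).toNat, by omega, a, ⟨⟨hsaw.left, ?_, ?_⟩, ?_⟩, flipX v,
    ⟨⟨hsaw.right.flipX, ?_, ?_⟩, ?_⟩, by rw [flipX_flipX]⟩
  · intro t ht h0
    exact hpos t (ht.trans (List.prefix_append a v)) h0
  · rintro q ⟨t, ht⟩
    have h2 := hamax t (by rw [← ht, List.append_assoc]; exact List.prefix_append t _)
    have h3 := congrArg X ht
    rw [X_append] at h3
    omega
  · push_cast
    omega
  · intro t ht h0
    have h2 := hv' _ (prefix_flipX.1 ht) (by rwa [Ne, flipX_eq_nil])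
    rw [X_flipX] at h2
    omega
  · rintro q ⟨t, ht⟩
    have h2 : 0 < X (a ++ flipX t) := by
      refine hpos _ ((List.prefix_append_right_inj a).2 (prefix_flipX.1 ⟨q, ht⟩)) ?_
      simp [hane]
    have h3 := congrArg X ht
    rw [X_append, X_flipX] at h2 h3
    omega
  · rw [X_flipX]
    omega

lemma mass_RX {u c : ℝ} (hc : 0 ≤ c) (h1 : ∀ s : ℕ, mass (ex u c 0) (BrS s) ≤ 1) (m : ℕ) :
    mass (ex u 0 0) (RX m) ≤ m := by
  have h2 : RX m ⊆ ⋃ k : Fin m, {w | ∃ a ∈ BrS ((k.1 + 1 : ℕ) : ℤ), ∃ b ∈ BrS ((k.1 : ℕ) : ℤ),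
      w = a ++ flipX b} := by
    intro p hp
    obtain ⟨k, hk, h3⟩ := RX_decomp hp
    exact Set.mem_iUnion.2 ⟨⟨k, hk⟩, h3⟩
  refine (mass_mono h2).trans ((mass_iUnion_le _ _).trans ?_)
  rw [tsum_fintype]
  have h3 : ∀ k : Fin m, mass (ex u 0 0) {w | ∃ a ∈ BrS ((k.1 + 1 : ℕ) : ℤ),
      ∃ b ∈ BrS ((k.1 : ℕ) : ℤ), w = a ++ flipX b} ≤ 1 := by
    intro k
    have h4 : mass (ex u 0 0) {w | ∃ a ∈ BrS ((k.1 + 1 : ℕ) : ℤ),
        ∃ b ∈ BrS ((k.1 : ℕ) : ℤ), w = a ++ flipX b} ≤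
        mass (ex u 0 0) (BrS ((k.1 + 1 : ℕ) : ℤ)) * mass (ex u 0 0) (BrS ((k.1 : ℕ) : ℤ)) := by
      rw [← mass_prod]
      refine mass_le_of_section (fun p : Word × Word => p.1 ++ flipX p.2) ?_
      rintro w ⟨a, ha, b, hb, rfl⟩
      refine ⟨(a, b), ⟨ha, hb⟩, rfl, ?_⟩
      show ex u 0 0 (a ++ flipX b) ≤ ex u 0 0 a * ex u 0 0 b
      rw [ex_append, ex_flipX, neg_zero]
    exact h4.trans (mul_le_one' (mass_BrS_le hc h1 _) (mass_BrS_le hc h1 _))
  calc ∑ k : Fin m, mass (ex u 0 0) {w | ∃ a ∈ BrS ((k.1 + 1 : ℕ) : ℤ),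
        ∃ b ∈ BrS ((k.1 : ℕ) : ℤ), w = a ++ flipX b} ≤ ∑ _k : Fin m, (1 : ℝ≥0∞) :=
        Finset.sum_le_sum fun k _ => h3 k
    _ = m := by simp

lemma mass_LX {u c : ℝ} (hc : 0 ≤ c) (h1 : ∀ s : ℕ, mass (ex u c 0) (BrS s) ≤ 1) (m : ℕ) :
    mass (ex u 0 0) (LX m) ≤ m := by
  refine le_trans ?_ (mass_RX hc h1 m)
  refine mass_le_of_section flipX ?_
  rintro w ⟨hsaw, hX, hneg, hle⟩
  refine ⟨flipX w, ⟨hsaw.flipX, by rw [X_flipX, hX]; rfl, ?_, ?_⟩, flipX_flipX w, ?_⟩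
  · intro t ht h0
    have h2 := hneg _ (prefix_flipX.1 ht) (by rwa [Ne, flipX_eq_nil])
    rw [X_flipX] at h2
    omega
  · intro t ht
    have h2 := hle _ (prefix_flipX.1 ht)
    rw [X_flipX] at h2
    omega
  · rw [ex_flipX, neg_zero]

end Exc

theorem mass_TT {u c : ℝ} (hc : 0 ≤ c) (h1 : ∀ s : ℕ, mass (ex u c 0) (BrS s) ≤ 1) (m k : ℕ)
    (r : ℤ) : mass (ex u c 0) (TT m k r) ≤ (m : ℝ≥0∞) ^ (2 * k) * mass (ex u c 0) (BrS r) := by
  induction k with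
  | zero => simp [TT]
  | succ k ih =>
    have h2 : mass (ex u c 0) (TT m (k + 1) r) ≤
        mass (ex u 0 0) (RX m) * (mass (ex u 0 0) (LX m) * mass (ex u c 0) (TT m k r)) := by
      rw [← mass_prod (ex u 0 0) (ex u c 0) (LX m), ← mass_prod]
      refine mass_le_of_section (fun p : Word × (Word × Word) => p.1 ++ (p.2.1 ++ p.2.2)) ?_
      rintro w ⟨p, hp, q, hq, w', hw', rfl⟩
      refine ⟨(p, (q, w')), ⟨hp, hq, hw'⟩, rfl, ?_⟩
      show ex u c 0 (p ++ (q ++ w')) ≤ ex u 0 0 p * (ex u 0 0 q * ex u c 0 w')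
      rw [ex_append, ex_append, ← mul_assoc, ← mul_assoc]
      refine mul_le_mul_left ?_ _
      unfold ex
      rw [← ENNReal.ofReal_mul (Real.exp_pos _).le, ← ENNReal.ofReal_mul (Real.exp_pos _).le,
        ← Real.exp_add, ← Real.exp_add, hp.2.1, hq.2.1]
      apply ENNReal.ofReal_le_ofReal
      apply Real.exp_le_exp.2
      push_cast
      linarith
    refine h2.trans ?_
    calc mass (ex u 0 0) (RX m) * (mass (ex u 0 0) (LX m) * mass (ex u c 0) (TT m k r))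
        ≤ (m : ℝ≥0∞) * ((m : ℝ≥0∞) * ((m : ℝ≥0∞) ^ (2 * k) * mass (ex u c 0) (BrS r))) := by
          gcongr
          · exact Exc.mass_RX hc h1 m
          · exact Exc.mass_LX hc h1 m
      _ = (m : ℝ≥0∞) ^ (2 * (k + 1)) * mass (ex u c 0) (BrS r) := by ring

theorem mass_Lev {u c : ℝ} (hc : 0 ≤ c) (h1 : ∀ s : ℕ, mass (ex u c 0) (BrS s) ≤ 1) {m : ℕ}
    (hm : 1 ≤ m) (K : ℕ) (s x : ℤ) : mass (ex u c 0) (Lev m K s x) ≤
      ((K + 1 : ℕ) : ℝ≥0∞) * (m : ℝ≥0∞) ^ (2 * K) *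
        (mass (ex u c 0) (BrS x) * mass (ex u c 0) (BrS (s - x))) := by
  have h2 : Lev m K s x ⊆ ⋃ k : Fin (K + 1), {w | ∃ a ∈ BrS x, ∃ b ∈ TT m k.1 (s - x),
      w = a ++ b} := by
    rintro w ⟨k, hk, h3⟩
    exact Set.mem_iUnion.2 ⟨⟨k, by omega⟩, h3⟩
  refine (mass_mono h2).trans ((mass_iUnion_le _ _).trans ?_)
  rw [tsum_fintype]
  have hm1 : (1 : ℝ≥0∞) ≤ m := by exact_mod_cast hm
  have h3 : ∀ k : Fin (K + 1), mass (ex u c 0) {w | ∃ a ∈ BrS x, ∃ b ∈ TT m k.1 (s - x),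
      w = a ++ b} ≤ (m : ℝ≥0∞) ^ (2 * K) *
        (mass (ex u c 0) (BrS x) * mass (ex u c 0) (BrS (s - x))) := by
    intro k
    have h4 : mass (ex u c 0) {w | ∃ a ∈ BrS x, ∃ b ∈ TT m k.1 (s - x), w = a ++ b} ≤
        mass (ex u c 0) (BrS x) * mass (ex u c 0) (TT m k.1 (s - x)) :=
      mass_le_mul (fun a _ b _ => (ex_append u c 0 a b).le) fun w hw => hw
    have h5 := mass_TT hc h1 m k.1 (s - x)
    have h6 : (m : ℝ≥0∞) ^ (2 * k.1) ≤ (m : ℝ≥0∞) ^ (2 * K) :=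
      pow_le_pow_right₀ hm1 (by have := k.2; omega)
    calc _ ≤ _ := h4
      _ ≤ mass (ex u c 0) (BrS x) *
          ((m : ℝ≥0∞) ^ (2 * K) * mass (ex u c 0) (BrS (s - x))) := by
        gcongr
        exact h5.trans (by gcongr)
      _ = _ := by ring
  calc _ ≤ ∑ _k : Fin (K + 1), (m : ℝ≥0∞) ^ (2 * K) *
        (mass (ex u c 0) (BrS x) * mass (ex u c 0) (BrS (s - x))) :=
        Finset.sum_le_sum fun k _ => h3 k
    _ = _ := by
      rw [Finset.sum_const, Finset.card_univ, Fintype.card_fin, nsmul_eq_mul, mul_assoc]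

end Pool.Agent.SAPZ
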