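import Pool.Agent.SAPZ.Defs

/-!
Most levels are crossed few times, with short excursions.
-/

namespace Pool.Agent.SAPZ

open scoped ENNReal
open Filter Topology Pool.Agent.SAPF

namespace LevC

/-- number of horizontal steps between the levels `x` and `x + 1` of the path of a word started at
the level `a` -/
def crx (x : ℤ) : ℤ → Word → ℕ
  | _, [] => 0
  | a, d :: w => (if (a = x ∧ d = Dir.E) ∨ (a = x + 1 ∧ d = Dir.W) then 1 else 0) +
      crx x (a + d.dx) w

lemma crx_append (x : ℤ) (v : Word) : ∀ (u : Word) (a : ℤ),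
    crx x a (u ++ v) = crx x a u + crx x (a + X u) v := by
  intro u
  induction u with
  | nil => intro a; simp [crx]
  | cons d u ih =>
    intro a
    simp only [List.cons_append, crx, X_cons]
    rw [ih, add_assoc, add_assoc]

lemma sum_crx_le (F : Finset ℤ) : ∀ (w : Word) (a : ℤ), ∑ x ∈ F, crx x a w ≤ w.length := by
  intro w
  induction w with
  | nil => intro a; simp [crx]
  | cons d w ih =>
    intro a
    simp only [crx, List.length_cons]
    rw [Finset.sum_add_distrib, add_comm w.length 1]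
    refine add_le_add ?_ (ih _)
    rw [Finset.sum_boole, Nat.cast_id]
    refine Finset.card_le_one.2 ?_
    intro x hx y hy
    simp only [Finset.mem_filter] at hx hy
    obtain ⟨_, hx⟩ := hx
    obtain ⟨_, hy⟩ := hy
    rcases hx with ⟨h1, h2⟩ | ⟨h1, h2⟩ <;> rcases hy with ⟨h3, h4⟩ | ⟨h3, h4⟩
    · rw [← h1, ← h3]
    · rw [h2] at h4
      exact absurd h4 (by decide)
    · rw [h2] at h4
      exact absurd h4 (by decide)
    · omega

lemma one_le_crx_E (x : ℤ) (v : Word) : 1 ≤ crx x x (Dir.E :: v) := by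
  simp [crx]

lemma one_le_crx_W (x : ℤ) (v : Word) : 1 ≤ crx x (x + 1) (Dir.W :: v) := by
  simp [crx]

/-- intermediate values -/
lemma ivt (m : ℤ) : ∀ (c a : Word), (X a ≤ m ∧ m ≤ X (a ++ c)) ∨ (X (a ++ c) ≤ m ∧ m ≤ X a) →
    ∃ d, d <+: c ∧ X (a ++ d) = m := by
  intro c
  induction c with
  | nil =>
    intro a h
    refine ⟨[], List.nil_prefix, ?_⟩
    rw [List.append_nil] at h ⊢
    omega
  | cons e c ih =>
    intro a h
    by_cases ha : X a = m
    · exact ⟨[], List.nil_prefix, by rw [List.append_nil]; exact ha⟩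
    · have h1 := dx_le e
      have h2 := neg_le_dx e
      have h3 : a ++ e :: c = (a ++ [e]) ++ c := by simp
      rw [h3] at h
      have h4 : X (a ++ [e]) = X a + e.dx := by simp
      obtain ⟨d, hd, h5⟩ := ih (a ++ [e]) (by rw [h4]; omega)
      refine ⟨e :: d, (List.prefix_cons_inj e).2 hd, ?_⟩
      rw [← h5]
      simp

/-- the level `x` is next to a bad slab -/
def Bd (L s : ℕ) (w : Word) (x : ℕ) : Prop :=
  ∃ j ∈ bads L (s / L) w, x / L = j + 1 ∨ x / L + 1 = j

lemma bd_right {L s x : ℕ} (hL : 0 < L) {w : Word} (hw : w ∈ BrS s) {a0 p t v : Word}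
    (hwe : w = a0 ++ (p ++ v)) (hX : X a0 = x) (hp : X p = 1) (ht : t <+: p)
    (h : 2 * (L : ℤ) < X t) : Bd L s w x := by
  obtain ⟨c, rfl⟩ := ht
  have hL' : (0 : ℤ) < L := by exact_mod_cast hL
  have hi1 : x / L * L ≤ x := Nat.div_mul_le_self x L
  have hi2 : x < x / L * L + L := Nat.lt_div_mul_add hL
  obtain ⟨i, hi⟩ : ∃ i, x / L = i := ⟨_, rfl⟩
  rw [hi] at hi1 hi2
  have hi1' : (i : ℤ) * L ≤ x := by exact_mod_cast hi1
  have hi2' : (x : ℤ) < ((i : ℤ) + 1) * L := by
    have h0 : (x : ℤ) < (i : ℤ) * L + L := by exact_mod_cast hi2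
    linarith
  have hpre : a0 ++ t <+: w := by
    rw [hwe]
    exact ⟨c ++ v, by simp⟩
  -- the level of `a0 ++ t` is at most `s`
  have hs : X (a0 ++ t) ≤ s := by
    have := hw.1.le hpre
    rw [hw.2] at this
    exact this
  have hXt : X (a0 ++ t) = x + X t := by rw [X_append, hX]
  -- the beginning at the level `(i + 2) L`
  obtain ⟨d, hd, h1⟩ := ivt (((i : ℤ) + 2) * L) t a0 (Or.inl ⟨by rw [hX]; nlinarith, by
    rw [hXt]; nlinarith⟩)
  obtain ⟨d', hd', h2⟩ := ivt (((i : ℤ) + 1) * L) c (a0 ++ t) (Or.inr ⟨by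
    have h3 : X (a0 ++ t ++ c) = x + 1 := by
      rw [List.append_assoc, X_append, hX, hp]
    rw [h3]; omega, by rw [hXt]; nlinarith⟩)
  refine ⟨i + 1, mem_bads.2 ⟨?_, ?_⟩, Or.inr (by rw [hi])⟩
  · have h3 : (((i + 2) * L : ℕ) : ℤ) ≤ s := by
      push_cast
      nlinarith
    have h4 : (i + 2) * L ≤ s := by exact_mod_cast h3
    have h5 : i + 2 ≤ s / L := (Nat.le_div_iff_mul_le hL).2 h4
    omega
  · intro hg
    refine hg (a0 ++ d) (a0 ++ t ++ d') ?_ ?_ ?_ ?_
    · obtain ⟨e, rfl⟩ := hd
      exact ⟨e ++ d', by simp⟩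
    · obtain ⟨e, rfl⟩ := hd'
      rw [hwe]
      exact ⟨e ++ v, by simp⟩
    · rw [h1]
      push_cast
      ring
    · rw [h2]
      push_cast
      ring

lemma bd_left {L s x : ℕ} (hL : 0 < L) (hxs : x < s) {w : Word} (hw : w ∈ BrS s)
    {a0 q t v : Word} (hwe : w = a0 ++ (q ++ v)) (hX : X a0 = x + 1)
    (ht : t <+: q) (h : X t < -(2 * (L : ℤ))) : Bd L s w x := by
  obtain ⟨c, rfl⟩ := ht
  have hL' : (0 : ℤ) < L := by exact_mod_cast hL
  have hi1 : x / L * L ≤ x := Nat.div_mul_le_self x L
  have hi2 : x < x / L * L + L := Nat.lt_div_mul_add hL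
  obtain ⟨i, hi⟩ : ∃ i, x / L = i := ⟨_, rfl⟩
  rw [hi] at hi1 hi2
  have hi1' : (i : ℤ) * L ≤ x := by exact_mod_cast hi1
  have hi2' : (x : ℤ) < ((i : ℤ) + 1) * L := by
    have h0 : (x : ℤ) < (i : ℤ) * L + L := by exact_mod_cast hi2
    linarith
  have hpre : a0 ++ t <+: w := by
    rw [hwe]
    exact ⟨c ++ v, by simp⟩
  have h0 : 0 ≤ X (a0 ++ t) := hw.1.nonneg hpre
  have hXt : X (a0 ++ t) = x + 1 + X t := by rw [X_append, hX]
  have hi3 : 1 ≤ i := by
    by_contra hlt
    have h1 : i = 0 := by omega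
    rw [h1] at hi2'
    have h2 : (x : ℤ) < L := by simpa using hi2'
    omega
  obtain ⟨j, hj⟩ : ∃ j, i = j + 1 := ⟨i - 1, by omega⟩
  have hji : (i : ℤ) = (j : ℤ) + 1 := by exact_mod_cast hj
  -- split `t` at the level `i L`
  obtain ⟨d, hd, h1⟩ := ivt (((j : ℤ) + 1) * L) t a0 (Or.inr ⟨by rw [hXt]; nlinarith, by
    rw [hX]; nlinarith⟩)
  obtain ⟨e, rfl⟩ := hd
  obtain ⟨d', hd', h2⟩ := ivt ((j : ℤ) * L) e (a0 ++ d) (Or.inr ⟨by
    rw [List.append_assoc, hXt]; nlinarith, by rw [h1]; nlinarith⟩)
  refine ⟨j, mem_bads.2 ⟨?_, ?_⟩, Or.inl (hi.trans hj)⟩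
  · have h3 : i * L ≤ s := by omega
    have h5 : i ≤ s / L := (Nat.le_div_iff_mul_le hL).2 h3
    omega
  · intro hg
    refine hg (a0 ++ d) (a0 ++ d ++ d') ?_ ?_ ?_ ?_
    · exact ⟨d', rfl⟩
    · obtain ⟨e', rfl⟩ := hd'
      rw [hwe]
      exact ⟨e' ++ (c ++ v), by simp⟩
    · rw [h1]
    · rw [h2]

lemma dir_of_dx_neg {d : Dir} (h : d.dx = -1) : d = Dir.W := by
  cases d <;> simp [Dir.dx] at h ⊢

lemma dir_of_dx_pos {d : Dir} (h : d.dx = 1) : d = Dir.E := by
  cases d <;> simp [Dir.dx] at h ⊢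

lemma decomp {L s x : ℕ} (hL : 0 < L) {w : Word} (hw : w ∈ BrS s) (hxs : x < s) :
    ∀ (n : ℕ) (a0 v : Word), v.length ≤ n → w = a0 ++ v → X a0 = x → (∃ v', v = Dir.E :: v') →
      ∃ k, (v ∈ TT (2 * L) k ((s : ℤ) - x) ∨ Bd L s w x) ∧ 2 * k + 1 ≤ crx x x v := by
  intro n
  induction n with
  | zero =>
    rintro a0 v hn _ _ ⟨v', rfl⟩
    simp at hn
  | succ n ih =>
    rintro a0 v hn hwe hX ⟨v', hv'⟩
    have hXv : X v = s - x := by
      have h1 := hw.2
      rw [hwe, X_append, hX] at h1
      omega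
    have hbr : IsBr (a0 ++ v) := hwe ▸ hw.1
    by_cases hall : ∀ t, t <+: v → t ≠ [] → 0 < X t
    · refine ⟨0, Or.inl ⟨hbr.of_suffix hall, hXv⟩, ?_⟩
      rw [hv']
      exact one_le_crx_E _ _
    · push Not at hall
      obtain ⟨t, ht, ht0, htX⟩ := hall
      obtain ⟨v1, rest, hv1, ⟨h10, h1X⟩, hsh⟩ := exists_shortest_prefix v
        (fun t => t ≠ [] ∧ X t ≤ 0) ⟨t, ht, ht0, htX⟩
      rcases List.eq_nil_or_concat v1 with h0 | ⟨p, d, hpd⟩
      · exact absurd h0 h10
      have hpd' : v1 = p ++ [d] := by simpa using hpd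
      subst hpd'
      have hppos : ∀ t, t <+: p → t ≠ [] → 0 < X t := by
        intro t ht h0
        have h2 := hsh t (ht.trans (List.prefix_append _ _)) (by
          rintro rfl
          have h3 := ht.length_le
          simp at h3)
        by_contra h4
        exact h2 ⟨h0, not_lt.1 h4⟩
      have hp0 : p ≠ [] := by
        rintro rfl
        rw [List.nil_append] at hv1 h1X
        rw [hv1, List.singleton_append, List.cons.injEq] at hv'
        rw [hv'.1] at h1X
        simp [Dir.dx] at h1X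
      have hXp := hppos p (List.prefix_refl p) hp0
      have hd1 := neg_le_dx d
      rw [X_append, X_cons, X_nil, add_zero] at h1X
      have hXp1 : X p = 1 := by omega
      have hdW : d = Dir.W := dir_of_dx_neg (by omega)
      subst hdW
      -- `p` begins with `E`
      obtain ⟨p', hp'⟩ : ∃ p', p = Dir.E :: p' := by
        cases p with
        | nil => exact absurd rfl hp0
        | cons e p =>
          rw [hv1, List.cons_append, List.cons_append, List.cons.injEq] at hv'
          exact ⟨p, by rw [hv'.1]⟩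
      -- the excursion to the left
      have hv2 : v = p ++ (Dir.W :: rest) := by rw [hv1]; simp
      have hXv2 : X (Dir.W :: rest) = s - x - 1 := by
        rw [hv2, X_append, hXp1] at hXv
        omega
      obtain ⟨u2, rest', hu2, ⟨h20, h2X⟩, hsh2⟩ := exists_shortest_prefix (Dir.W :: rest)
        (fun t => t ≠ [] ∧ 0 ≤ X t) ⟨_, List.prefix_refl _, List.cons_ne_nil _ _, by
          rw [hXv2]; omega⟩
      rcases List.eq_nil_or_concat u2 with h0 | ⟨q, d', hqd⟩
      · exact absurd h0 h20
      have hqd' : u2 = q ++ [d'] := by simpa using hqd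
      subst hqd'
      have hqneg : ∀ t, t <+: q → t ≠ [] → X t < 0 := by
        intro t ht h0
        have h2 := hsh2 t (ht.trans (List.prefix_append _ _)) (by
          rintro rfl
          have h3 := ht.length_le
          simp at h3)
        by_contra h4
        exact h2 ⟨h0, not_lt.1 h4⟩
      have hq0 : q ≠ [] := by
        rintro rfl
        rw [List.nil_append] at hu2 h2X
        rw [List.singleton_append, List.cons.injEq] at hu2
        rw [← hu2.1] at h2X
        simp [Dir.dx] at h2X
      have hXq := hqneg q (List.prefix_refl q) hq0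
      have hd2 := dx_le d'
      rw [X_append, X_cons, X_nil, add_zero] at h2X
      have hXq1 : X q = -1 := by omega
      have hdE : d' = Dir.E := dir_of_dx_pos (by omega)
      subst hdE
      obtain ⟨q', hq'⟩ : ∃ q', q = Dir.W :: q' := by
        cases q with
        | nil => exact absurd rfl hq0
        | cons e q =>
          rw [List.cons_append, List.cons_append, List.cons.injEq] at hu2
          exact ⟨q, by rw [← hu2.1]⟩
      have hv3 : v = p ++ (q ++ (Dir.E :: rest')) := by rw [hv2, hu2]; simp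
      have hwe3 : w = (a0 ++ p ++ q) ++ (Dir.E :: rest') := by
        rw [hwe, hv3]
        simp
      have hlen : (Dir.E :: rest').length ≤ n := by
        have h1 := congrArg List.length hv3
        have h2 := List.length_pos_iff.2 hp0
        rw [List.length_append, List.length_append] at h1
        omega
      have hX3 : X (a0 ++ p ++ q) = x := by
        rw [X_append, X_append, hX, hXp1, hXq1]
        omega
      obtain ⟨k, hk1, hk2⟩ := ih _ _ hlen hwe3 hX3 ⟨rest', rfl⟩
      refine ⟨k + 1, ?_, ?_⟩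
      · rcases hk1 with hk1 | hk1
        swap
        · exact Or.inr hk1
        have hsawp : SAW p := by
          refine hw.1.saw.factor ⟨a0, q ++ (Dir.E :: rest'), ?_⟩
          rw [hwe3]
          simp
        have hsawq : SAW q := by
          refine hw.1.saw.factor ⟨a0 ++ p, Dir.E :: rest', ?_⟩
          rw [hwe3]
        by_cases hpm : ∀ t, t <+: p → X t ≤ ((2 * L : ℕ) : ℤ)
        · by_cases hqm : ∀ t, t <+: q → -((2 * L : ℕ) : ℤ) ≤ X t
          · left
            rw [hv3]
            exact ⟨p, ⟨hsawp, hXp1, hppos, hpm⟩, q, ⟨hsawq, hXq1, hqneg, hqm⟩, _, hk1, rfl⟩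
          · right
            push Not at hqm
            obtain ⟨t, ht, htl⟩ := hqm
            refine bd_left hL hxs hw (a0 := a0 ++ p) (q := q) (v := Dir.E :: rest')
              (by rw [hwe3]; simp) (by rw [X_append, hX, hXp1]) ht ?_
            push_cast at htl
            linarith
        · right
          push Not at hpm
          obtain ⟨t, ht, htl⟩ := hpm
          refine bd_right hL hw (a0 := a0) (p := p) (v := q ++ Dir.E :: rest')
            (by rw [hwe3]; simp) hX hXp1 ht ?_
          push_cast at htl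
          linarith
      · rw [hv3, crx_append, crx_append, hXp1, hXq1]
        have h1 : 1 ≤ crx x x p := by
          rw [hp']
          exact one_le_crx_E _ _
        have h2 : 1 ≤ crx x (x + 1) q := by
          rw [hq']
          exact one_le_crx_W _ _
        have h3 : (x : ℤ) + 1 + -1 = x := by ring
        rw [h3]
        omega

lemma lev_or {L s x K : ℕ} (hL : 0 < L) {w : Word} (hw : w ∈ BrS s) (hxs : x < s)
    (h : w ∉ Lev (2 * L) K s x) : K ≤ crx x 0 w ∨ Bd L s w x := by
  -- the beginning before the first crossing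
  have hXw : X w = s := hw.2
  obtain ⟨a, v, hav, hXa, hlt⟩ := exists_first_ge w (x + 1) (by omega)
    ⟨w, List.prefix_refl w, by rw [hXw]; omega⟩
  rcases List.eq_nil_or_concat a with h0 | ⟨a0, d, had⟩
  · rw [h0] at hXa
    simp at hXa
    omega
  have had' : a = a0 ++ [d] := by simpa using had
  subst had'
  have hd1 := dx_le d
  have hXa0 := hlt a0 (List.prefix_append _ _) (by simp)
  rw [X_append, X_cons, X_nil, add_zero] at hXa
  have hXa0' : X a0 = x := by omega
  have hdE : d = Dir.E := dir_of_dx_pos (by omega)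
  subst hdE
  have hwe : w = a0 ++ (Dir.E :: v) := by rw [hav]; simp
  obtain ⟨k, hk1, hk2⟩ := decomp hL hw hxs _ a0 (Dir.E :: v) le_rfl hwe hXa0' ⟨v, rfl⟩
  rcases hk1 with hk1 | hk1
  swap
  · exact Or.inr hk1
  left
  have hbra : a0 ∈ BrS (x : ℤ) := by
    refine ⟨?_, hXa0'⟩
    have hbr : IsBr (a0 ++ (Dir.E :: v)) := hwe ▸ hw.1
    refine hbr.of_prefix ?_
    rintro t ⟨t', ht'⟩
    have h2 := hlt t' (by
      rw [← ht', List.append_assoc]
      exact List.prefix_append _ _) (by
      rintro h3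
      have h4 := congrArg List.length h3
      have h5 := congrArg List.length ht'
      rw [List.length_append] at h4 h5
      simp at h4
      omega)
    have h3 := congrArg X ht'
    rw [X_append] at h3
    omega
  have hkK : K < k := by
    by_contra hle
    exact h ⟨k, not_lt.1 hle, a0, hbra, _, hk1, hwe⟩
  have h4 : crx x x (Dir.E :: v) ≤ crx x 0 w := by
    rw [hwe, crx_append, zero_add, hXa0']
    omega
  omega

end LevC

open Classical in
theorem bad_levels {L s : ℕ} (hL : 0 < L) {w : Word} (hw : w ∈ BrS s) (K : ℕ) :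
    K * ((Finset.range s).filter (fun x : ℕ => w ∉ Lev (2 * L) K s x)).card ≤
      w.length + K * (2 * L * (bads L (s / L) w).card) := by
  set F := (Finset.range s).filter (fun x : ℕ => w ∉ Lev (2 * L) K s x) with hF
  set A := (Finset.range s).filter (fun x : ℕ => K ≤ LevC.crx x 0 w) with hA
  set Bset := (Finset.range s).filter (fun x : ℕ => LevC.Bd L s w x) with hB
  have h1 : F ⊆ A ∪ Bset := by
    intro x hx
    rw [hF, Finset.mem_filter] at hx
    have hxs : x < s := Finset.mem_range.1 hx.1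
    rcases LevC.lev_or hL hw hxs hx.2 with h2 | h2
    · exact Finset.mem_union_left _ (Finset.mem_filter.2 ⟨hx.1, h2⟩)
    · exact Finset.mem_union_right _ (Finset.mem_filter.2 ⟨hx.1, h2⟩)
  have h2 : K * A.card ≤ w.length := by
    have h3 : K * A.card ≤ ∑ x ∈ A, LevC.crx x 0 w := by
      rw [mul_comm, ← smul_eq_mul]
      exact Finset.card_nsmul_le_sum _ _ _ fun x hx => (Finset.mem_filter.1 hx).2
    have h4 : ∑ x ∈ A, LevC.crx x 0 w =
        ∑ x ∈ A.map (⟨fun n : ℕ => (n : ℤ), Nat.cast_injective⟩ : ℕ ↪ ℤ), LevC.crx x 0 w := by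
      rw [Finset.sum_map]
      rfl
    rw [h4] at h3
    exact h3.trans (LevC.sum_crx_le _ w 0)
  have h3 : Bset.card ≤ 2 * L * (bads L (s / L) w).card := by
    have h4 : Bset ⊆ (bads L (s / L) w).biUnion fun j =>
        (Finset.Ico ((j + 1) * L) ((j + 2) * L)) ∪ (Finset.Ico ((j - 1) * L) ((j - 1 + 1) * L)) := by
      intro x hx
      obtain ⟨j, hj, h5⟩ := (Finset.mem_filter.1 hx).2
      refine Finset.mem_biUnion.2 ⟨j, hj, ?_⟩
      have hi1 : x / L * L ≤ x := Nat.div_mul_le_self x L
      have hi2 : x < x / L * L + L := Nat.lt_div_mul_add hL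
      generalize x / L = i at hi1 hi2 h5
      rcases h5 with h5 | h5
      · rw [h5] at hi1 hi2
        refine Finset.mem_union_left _ (Finset.mem_Ico.2 ⟨hi1, ?_⟩)
        have h6 : (j + 2) * L = (j + 1) * L + L := by ring
        omega
      · have h6 : i = j - 1 := by omega
        rw [h6] at hi1 hi2
        refine Finset.mem_union_right _ (Finset.mem_Ico.2 ⟨hi1, ?_⟩)
        have h7 : (j - 1 + 1) * L = (j - 1) * L + L := by ring
        omega
    refine (Finset.card_le_card h4).trans (Finset.card_biUnion_le.trans ?_)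
    have h5 : ∀ j ∈ bads L (s / L) w, ((Finset.Ico ((j + 1) * L) ((j + 2) * L)) ∪
        (Finset.Ico ((j - 1) * L) ((j - 1 + 1) * L))).card ≤ 2 * L := by
      intro j _
      refine (Finset.card_union_le _ _).trans ?_
      rw [Nat.card_Ico, Nat.card_Ico]
      have h6 : (j + 2) * L = (j + 1) * L + L := by ring
      have h7 : (j - 1 + 1) * L = (j - 1) * L + L := by ring
      omega
    refine (Finset.sum_le_card_nsmul _ _ _ h5).trans ?_
    rw [smul_eq_mul, mul_comm]
  calc K * F.card ≤ K * (A.card + Bset.card) :=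
        Nat.mul_le_mul_left _ ((Finset.card_le_card h1).trans (Finset.card_union_le _ _))
    _ = K * A.card + K * Bset.card := by ring
    _ ≤ w.length + K * (2 * L * (bads L (s / L) w).card) :=
        add_le_add h2 (Nat.mul_le_mul_left _ h3)

open Classical in
theorem bad_levels_int {L s : ℕ} (hL : 0 < L) {w : Word} (hw : w ∈ BrS s) (K : ℕ) :
    K * ((Finset.range s).filter (fun x => w ∉ Lev (2 * L) K s x)).card ≤
      w.length + K * (2 * L * (bads L (s / L) w).card) := by
  refine le_trans (Nat.mul_le_mul_left _ ?_) (bad_levels hL hw K)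
  have h1 : (Bind.bind (Finset.range s) fun a : ℕ => (pure (a : ℤ) : Finset ℤ)) =
      (Finset.range s).image (fun a : ℕ => (a : ℤ)) := by
    ext y
    have h2 : y ∈ (Bind.bind (Finset.range s) fun a : ℕ => (pure (a : ℤ) : Finset ℤ)) ↔
        ∃ a ∈ Finset.range s, y ∈ (pure (a : ℤ) : Finset ℤ) := by
      let _ : DecidableEq ℤ := fun a b => Classical.propDecidable (a = b)
      exact Finset.mem_sup
    rw [h2, Finset.mem_image]
    simp only [Finset.pure_def, Finset.mem_singleton, eq_comm]
  rw [h1, Finset.filter_image]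
  exact Finset.card_image_le

end Pool.Agent.SAPZ
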