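import Pool.Agent.SAPZ.Defs

/-!
Marked pieces, the mean span of a piece.
-/

namespace Pool.Agent.SAPZ

open scoped ENNReal
open Filter Topology Pool.Agent.SAPF

namespace Mark

/-- Cauchy products -/
lemma cauchy (u v : ℕ → ℝ≥0∞) :
    ∑' n, ∑ k ∈ Finset.range (n + 1), u k * v (n - k) = (∑' n, u n) * ∑' n, v n := by
  have h1 : ∀ n, ∑ k ∈ Finset.range (n + 1), u k * v (n - k) =
      ∑ p ∈ Finset.HasAntidiagonal.antidiagonal n, u (Prod.fst p) * v (Prod.snd p) := by
    intro n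
    rw [Finset.Nat.sum_antidiagonal_eq_sum_range_succ (fun i j => u i * v j)]
  calc ∑' n, ∑ k ∈ Finset.range (n + 1), u k * v (n - k)
      = ∑' n, ∑' p : Finset.HasAntidiagonal.antidiagonal n, u p.1.1 * v p.1.2 := by
        refine tsum_congr fun n => ?_
        rw [h1, tsum_fintype]
        exact (Finset.sum_coe_sort (Finset.HasAntidiagonal.antidiagonal n) fun p : ℕ × ℕ => u p.1 * v p.2).symm
    _ = ∑' x : (Σ n, Finset.HasAntidiagonal.antidiagonal n), u x.2.1.1 * v x.2.1.2 :=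
        (ENNReal.tsum_sigma fun (n : ℕ) (p : Finset.HasAntidiagonal.antidiagonal n) => u p.1.1 * v p.1.2).symm
    _ = ∑' p : ℕ × ℕ, u p.1 * v p.2 :=
        Equiv.tsum_eq Finset.HasAntidiagonal.sigmaAntidiagonalEquivProd (fun p : ℕ × ℕ => u p.1 * v p.2)
    _ = ∑' a, ∑' b, u a * v b := ENNReal.tsum_prod (f := fun a b => u a * v b)
    _ = _ := by simp [ENNReal.tsum_mul_left, ENNReal.tsum_mul_right]

theorem renewal_mean {f B at' : ℕ → ℝ≥0∞} {C : ℝ≥0∞} (f0 : f 0 = 0) (B0 : B 0 = 1)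
    (B1 : ∀ n, B n ≤ 1)
    (hB : ∀ n, 1 ≤ n → B n = ∑ k ∈ Finset.range (n + 1), f k * B (n - k))
    (hf : ∑' k, f k = 1) (hat : ∑' s : ℕ, (s : ℝ≥0∞) * at' s ≠ ∞)
    (h : ∀ s : ℕ, (s : ℝ≥0∞) * B s ≤ (s : ℝ≥0∞) * at' s +
      C * ∑ x ∈ Finset.range s, B x * B (s - x)) :
    ∑' k : ℕ, (k : ℝ≥0∞) * f k ≤ C := by
  rcases eq_or_ne C ∞ with rfl | hC
  · exact le_top
  set A := ∑' s : ℕ, (s : ℝ≥0∞) * at' s with hA
  have f1 : ∀ n, f n ≤ 1 := fun n => hf ▸ ENNReal.le_tsum n
  -- the generating functions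
  have key : ∀ z : ℝ≥0∞, z < 1 →
      (∑' k : ℕ, (k : ℝ≥0∞) * (z ^ k * f k)) ≤ A / (∑' n : ℕ, z ^ n * B n) ^ 2 + C := by
    intro z hz
    set U := ∑' n : ℕ, z ^ n * B n with hU
    set F := ∑' k : ℕ, z ^ k * f k with hF
    set DU := ∑' n : ℕ, (n : ℝ≥0∞) * (z ^ n * B n) with hDU
    set DF := ∑' k : ℕ, (k : ℝ≥0∞) * (z ^ k * f k) with hDF
    have hUfin : U ≠ ∞ := by
      have h1 : U ≤ ∑' n : ℕ, z ^ n := ENNReal.tsum_le_tsum fun n => by
        calc z ^ n * B n ≤ z ^ n * 1 := by gcongr; exact B1 n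
          _ = z ^ n := mul_one _
      rw [ENNReal.tsum_geometric] at h1
      exact ne_top_of_le_ne_top (ENNReal.inv_ne_top.2 (tsub_pos_of_lt hz).ne') h1
    have hU1 : 1 ≤ U := by
      calc (1 : ℝ≥0∞) = z ^ 0 * B 0 := by rw [B0]; simp
        _ ≤ U := ENNReal.le_tsum (f := fun n : ℕ => z ^ n * B n) 0
    have hconv : ∀ n, 1 ≤ n → z ^ n * B n =
        ∑ k ∈ Finset.range (n + 1), (z ^ k * f k) * (z ^ (n - k) * B (n - k)) := by
      intro n hn
      rw [hB n hn, Finset.mul_sum]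
      refine Finset.sum_congr rfl fun k hk => ?_
      have hk' := Finset.mem_range.1 hk
      have : z ^ n = z ^ k * z ^ (n - k) := by rw [← pow_add]; congr 1; omega
      rw [this]; ring
    -- U = 1 + F U
    have e1 : U = 1 + F * U := by
      rw [hU, hF, ← cauchy]
      rw [← tsum_ite_eq 0 (fun _ => (1 : ℝ≥0∞)), ← ENNReal.tsum_add]
      refine tsum_congr fun n => ?_
      rcases Nat.eq_zero_or_pos n with rfl | hn
      · simp [f0, B0]
      · rw [if_neg (by omega), zero_add, hconv n hn]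
    -- DU = DF U + F DU
    have e2 : DU = DF * U + F * DU := by
      rw [hDU, hDF, hU, hF, ← cauchy, ← cauchy, ← ENNReal.tsum_add]
      refine tsum_congr fun n => ?_
      rcases Nat.eq_zero_or_pos n with rfl | hn
      · simp
      · rw [hconv n hn, Finset.mul_sum, ← Finset.sum_add_distrib]
        refine Finset.sum_congr rfl fun k hk => ?_
        have hk' := Finset.mem_range.1 hk
        have : (n : ℝ≥0∞) = (k : ℝ≥0∞) + ((n - k : ℕ) : ℝ≥0∞) := by
          rw [← Nat.cast_add]; congr 1; omega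
        rw [this]; ring
    have hle : DU ≤ A + C * U ^ 2 := by
      have h2 : U ^ 2 = ∑' n, ∑ k ∈ Finset.range (n + 1), (z ^ k * B k) * (z ^ (n - k) * B (n - k)) := by
        rw [cauchy (fun n => z ^ n * B n) (fun n => z ^ n * B n), sq]
      rw [hDU, hA, h2, ← ENNReal.tsum_mul_left, ← ENNReal.tsum_add]
      refine ENNReal.tsum_le_tsum fun n => ?_
      have hzn : z ^ n ≤ 1 := pow_le_one' hz.le n
      calc (n : ℝ≥0∞) * (z ^ n * B n) = z ^ n * ((n : ℝ≥0∞) * B n) := by ring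
        _ ≤ z ^ n * ((n : ℝ≥0∞) * at' n + C * ∑ x ∈ Finset.range n, B x * B (n - x)) := by
            gcongr; exact h n
        _ = z ^ n * ((n : ℝ≥0∞) * at' n) + C * (z ^ n * ∑ x ∈ Finset.range n, B x * B (n - x)) := by
            ring
        _ ≤ 1 * ((n : ℝ≥0∞) * at' n) + C * (∑ k ∈ Finset.range (n + 1),
              (z ^ k * B k) * (z ^ (n - k) * B (n - k))) := by
            gcongr ?_ * _ + C * ?_
            rw [Finset.mul_sum]
            calc ∑ i ∈ Finset.range n, z ^ n * (B i * B (n - i))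
                = ∑ i ∈ Finset.range n, (z ^ i * B i) * (z ^ (n - i) * B (n - i)) := by
                  refine Finset.sum_congr rfl fun k hk => ?_
                  have hk' := Finset.mem_range.1 hk
                  have : z ^ n = z ^ k * z ^ (n - k) := by rw [← pow_add]; congr 1; omega
                  rw [this]; ring
              _ ≤ _ := Finset.sum_le_sum_of_subset (Finset.range_subset_range.2 (by omega))
        _ = _ := by rw [one_mul]
    have hDUfin : DU ≠ ∞ := by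
      refine ne_top_of_le_ne_top ?_ hle
      exact ENNReal.add_ne_top.2 ⟨hat, ENNReal.mul_ne_top hC (ENNReal.pow_ne_top hUfin)⟩
    have hFfin : F ≠ ∞ := by
      refine ne_top_of_le_ne_top ENNReal.one_ne_top ?_
      rw [← hf]
      refine ENNReal.tsum_le_tsum fun k => ?_
      calc z ^ k * f k ≤ 1 * f k := by gcongr; exact pow_le_one' hz.le k
        _ = f k := one_mul _
    have e3 : DU = DF * U ^ 2 := by
      have h3 : DU + F * U * DU = DF * U ^ 2 + F * U * DU := by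
        calc DU + F * U * DU = (1 + F * U) * DU := by ring
          _ = U * DU := by rw [← e1]
          _ = U * (DF * U + F * DU) := by rw [← e2]
          _ = DF * U ^ 2 + F * U * DU := by ring
      exact (ENNReal.add_left_inj (ENNReal.mul_ne_top (ENNReal.mul_ne_top hFfin hUfin) hDUfin)).1 h3
    rw [e3] at hle
    have hU0 : U ^ 2 ≠ 0 := (ENNReal.pow_pos (lt_of_lt_of_le one_pos hU1) 2).ne'
    have hUf2 : U ^ 2 ≠ ∞ := ENNReal.pow_ne_top hUfin
    calc DF = DF * U ^ 2 / U ^ 2 := (ENNReal.mul_div_cancel_right hU0 hUf2).symm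
      _ ≤ (A + C * U ^ 2) / U ^ 2 := by gcongr
      _ = A / U ^ 2 + C * U ^ 2 / U ^ 2 := ENNReal.add_div
      _ = A / U ^ 2 + C := by rw [ENNReal.mul_div_cancel_right hU0 hUf2]
  -- the sum of B is infinite
  have hBtop : ∑' n, B n = ∞ := by
    by_contra hcon
    have e1 : ∑' n, B n = 1 + (∑' n, f n) * ∑' n, B n := by
      rw [← cauchy]
      rw [← tsum_ite_eq 0 (fun _ => (1 : ℝ≥0∞)), ← ENNReal.tsum_add]
      refine tsum_congr fun n => ?_
      rcases Nat.eq_zero_or_pos n with rfl | hn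
      · simp [f0, B0]
      · rw [if_neg (by omega), zero_add, hB n hn]
    rw [hf, one_mul] at e1
    have := ENNReal.lt_add_right hcon one_ne_zero
    rw [add_comm, ← e1] at this
    exact lt_irrefl _ this
  -- finite sums
  have hcont : ∀ (g : ℕ → ℝ≥0∞) (_ : ∀ n, g n ≠ ∞) (N : ℕ),
      Continuous fun z : ℝ≥0∞ => ∑ k ∈ Finset.range N, g k * z ^ k := by
    intro g hg N
    refine continuous_finsetSum _ fun k _ => ?_
    exact (ENNReal.continuous_const_mul (hg k)).comp (ENNReal.continuous_pow k)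
  have fin : ∀ N M : ℕ, 1 ≤ M → ∑ k ∈ Finset.range N, (k : ℝ≥0∞) * f k ≤
      A / (∑ n ∈ Finset.range M, B n) ^ 2 + C := by
    intro N M hM
    haveI : (𝓝[<] (1 : ℝ≥0∞)).NeBot := nhdsLT_neBot_of_exists_lt ⟨0, by simp⟩
    have t1 : Tendsto (fun z : ℝ≥0∞ => ∑ k ∈ Finset.range N, ((k : ℝ≥0∞) * f k) * z ^ k)
        (𝓝[<] 1) (𝓝 (∑ k ∈ Finset.range N, (k : ℝ≥0∞) * f k)) := by
      have h1 := (hcont (fun k => (k : ℝ≥0∞) * f k) (fun n => ENNReal.mul_ne_top
        (ENNReal.natCast_ne_top n) (ne_top_of_le_ne_top ENNReal.one_ne_top (f1 n))) N).tendsto 1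
      simp only [one_pow, mul_one] at h1
      exact h1.mono_left nhdsWithin_le_nhds
    have t2 : Tendsto (fun z : ℝ≥0∞ => ∑ k ∈ Finset.range M, B k * z ^ k)
        (𝓝[<] 1) (𝓝 (∑ k ∈ Finset.range M, B k)) := by
      have h1 := (hcont B (fun n => (ne_top_of_le_ne_top ENNReal.one_ne_top (B1 n))) M).tendsto 1
      simp only [one_pow, mul_one] at h1
      exact h1.mono_left nhdsWithin_le_nhds
    have hne : (∑ k ∈ Finset.range M, B k) ^ 2 ≠ 0 := by
      have h1 : (1 : ℝ≥0∞) ≤ ∑ k ∈ Finset.range M, B k := by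
        calc (1 : ℝ≥0∞) = B 0 := B0.symm
          _ ≤ _ := Finset.single_le_sum (f := B) (fun _ _ => zero_le)
            (Finset.mem_range.2 (by omega))
      exact (ENNReal.pow_pos (lt_of_lt_of_le one_pos h1) 2).ne'
    have t3 : Tendsto (fun z : ℝ≥0∞ => A / (∑ k ∈ Finset.range M, B k * z ^ k) ^ 2 + C)
        (𝓝[<] 1) (𝓝 (A / (∑ k ∈ Finset.range M, B k) ^ 2 + C)) := by
      refine Tendsto.add ?_ tendsto_const_nhds
      refine ENNReal.Tendsto.div tendsto_const_nhds (Or.inr hne) ?_ (Or.inr hat)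
      exact ENNReal.Tendsto.pow t2
    refine le_of_tendsto_of_tendsto t1 t3 ?_
    filter_upwards [self_mem_nhdsWithin] with z hz
    calc ∑ k ∈ Finset.range N, ((k : ℝ≥0∞) * f k) * z ^ k
        = ∑ k ∈ Finset.range N, (k : ℝ≥0∞) * (z ^ k * f k) :=
          Finset.sum_congr rfl fun k _ => by ring
      _ ≤ ∑' k : ℕ, (k : ℝ≥0∞) * (z ^ k * f k) := ENNReal.sum_le_tsum _
      _ ≤ _ := key z hz
      _ ≤ _ := by
          gcongr
          calc ∑ k ∈ Finset.range M, B k * z ^ k = ∑ k ∈ Finset.range M, z ^ k * B k :=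
                Finset.sum_congr rfl fun k _ => by ring
            _ ≤ _ := ENNReal.sum_le_tsum _
  have fin2 : ∀ N : ℕ, ∑ k ∈ Finset.range N, (k : ℝ≥0∞) * f k ≤ C := by
    intro N
    have t : Tendsto (fun M : ℕ => A / (∑ n ∈ Finset.range M, B n) ^ 2 + C) atTop
        (𝓝 (A / ∞ + C)) := by
      refine Tendsto.add ?_ tendsto_const_nhds
      refine ENNReal.Tendsto.div tendsto_const_nhds (Or.inr (by simp)) ?_ (Or.inr hat)
      have h1 := ENNReal.tendsto_nat_tsum B
      rw [hBtop] at h1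
      have h2 := ENNReal.Tendsto.pow (n := 2) h1
      simpa using h2
    rw [ENNReal.div_top, zero_add] at t
    refine ge_of_tendsto t ?_
    filter_upwards [eventually_ge_atTop 1] with M hM
    exact fin N M hM
  exact le_of_tendsto' (ENNReal.tendsto_nat_tsum fun k : ℕ => (k : ℝ≥0∞) * f k) fin2

end Mark

theorem mean_le {u c : ℝ} (hone : mass (ex u c 0) Irr = 1) {C : ℝ≥0∞} {at' : ℕ → ℝ≥0∞}
    (hat : ∑' s : ℕ, (s : ℝ≥0∞) * at' s ≠ ∞)
    (h : ∀ s : ℕ, (s : ℝ≥0∞) * mass (ex u c 0) (BrS s) ≤ (s : ℝ≥0∞) * at' s +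
      C * ∑ x ∈ Finset.range s, mass (ex u c 0) (BrS x) * mass (ex u c 0) (BrS ((s - x : ℕ) : ℤ))) :
    mass (fun w => ex u c 0 w * ENNReal.ofReal (X w)) Irr ≤ C := by
  have e : mass (fun w => ex u c 0 w * ENNReal.ofReal (X w)) Irr =
      ∑' k : ℕ, (k : ℝ≥0∞) * mass (ex u c 0) (IrrZ (fun w => (X w).toNat) k) := by
    rw [← tsum_irrZ _ (fun w => (X w).toNat)]
    refine tsum_congr fun k => ?_
    rw [← mass_const_mul]
    refine mass_congr fun w hw => ?_
    have h1 : X w = k := by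
      have h2 : (X w).toNat = k := hw.2
      have h3 := (IsIrr.X_pos hw.1)
      omega
    rw [h1, mul_comm]
    congr 1
    simp
  rw [e]
  refine Mark.renewal_mean (B := fun s => mass (ex u c 0) (BrS s)) (at' := at')
    (mass_irrZ_zero isSize_span) ?_ ?_ ?_ ?_ hat h
  · simp only [BrS_eq]
    exact mass_brZ_zero isSize_span (ex_nil _ _ _)
  · intro n
    simp only [BrS_eq]
    exact mass_brZ_le_one (ex_append _ _ _) (ex_nil _ _ _) isSize_span hone.le n
  · intro n hn
    simp only [BrS_eq]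
    exact renewal (ex_append _ _ _) isSize_span hn
  · rw [tsum_irrZ, hone]

end Pool.Agent.SAPZ
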