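import Pool.Agent.SAPZ.Defs

/-!
Slow bridges and bridges with many bad slabs are rare.
-/

namespace Pool.Agent.SAPZ

open scoped ENNReal
open Filter Topology Pool.Agent.SAPF

namespace RareZ

lemma exists_params {c : ℝ} (hc : 0 < c) : ∃ u : ℝ, Params u c := by
  obtain ⟨u, u', hu', hu, hchi, h1, h2⟩ := exists_uc c hc
  have hchiu : chi u ≠ ∞ := by
    refine ne_top_of_le_ne_top hchi ?_
    refine mass_mono_fun fun w _ => ?_
    unfold ex
    apply ENNReal.ofReal_le_ofReal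
    apply Real.exp_le_exp.2
    have : (0 : ℝ) ≤ w.length := by positivity
    nlinarith
  exact ⟨u, params_of hc hu' hu hchi h1 h2 (mass_gap hc hchiu h1)⟩

lemma brS_le {u c : ℝ} (hP : Params u c) (s : ℕ) : mass (ex u c 0) (BrS s) ≤ 1 := by
  rw [BrS_eq]
  exact mass_brZ_le_one (ex_append _ _ _) (ex_nil _ _ _) isSize_span hP.one.le s

lemma KHW_ne_top (c : ℝ) : Prm.KHW c ≠ ∞ := ENNReal.ofReal_ne_top

lemma chi_ne_top {u c : ℝ} (hP : Params u c) : chi u ≠ ∞ := by
  refine ne_top_of_le_ne_top ?_ (Prm.chi_le hP.c_pos (brS_le hP))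
  exact ENNReal.mul_ne_top ENNReal.ofReal_ne_top (ENNReal.mul_ne_top (KHW_ne_top c) (KHW_ne_top c))

/-- comparison of the weights of two laws on the words of span `s` -/
lemma ex_le {u c u₁ c₁ E : ℝ} {w : Word} {s : ℕ} (hs : X w = s)
    (h : (u₁ - u) * w.length + (c - c₁) * s ≤ E) :
    ex u c 0 w ≤ ENNReal.ofReal (Real.exp E) * ex u₁ c₁ 0 w := by
  unfold ex
  rw [← ENNReal.ofReal_mul (Real.exp_pos _).le, ← Real.exp_add]
  apply ENNReal.ofReal_le_ofReal
  apply Real.exp_le_exp.2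
  have hs' : ((X w : ℤ) : ℝ) = s := by rw [hs]; simp
  rw [hs']
  nlinarith

lemma mass_le_const {φ ψ : Word → ℝ≥0∞} {S T : Set Word} {K : ℝ≥0∞}
    (h : ∀ w ∈ S, φ w ≤ K * ψ w) (hST : S ⊆ T) : mass φ S ≤ K * mass ψ T := by
  refine (mass_mono_fun h).trans ?_
  rw [mass_const_mul]
  exact mul_le_mul_right (mass_mono hST) K

end RareZ

open RareZ

theorem slow_rare {v : ℝ} (hv : Ball v) {u c : ℝ} (hP : Params u c) {η : ℝ} (hη : 0 < η) :
    ∃ ε > 0, ∀ s : ℕ, mass (ex u c 0) {w | w ∈ BrS s ∧ (1 + η) * s < v * w.length} ≤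
      ENNReal.ofReal (Real.exp (-(ε * s))) := by
  have hc := hP.c_pos
  obtain ⟨u₁, hP₁⟩ := exists_params (c := c / 2) (by positivity)
  have hlow := hv.lower hP₁ hP (by linarith : c / 2 < c)
  refine ⟨c * η / 2, by positivity, fun s => ?_⟩
  have h1 : mass (ex u c 0) {w | w ∈ BrS s ∧ (1 + η) * s < v * w.length} ≤
      ENNReal.ofReal (Real.exp (-(c * η / 2 * s))) * mass (ex u₁ (c / 2) 0) (BrS s) := by
    refine mass_le_const ?_ fun w hw => hw.1
    rintro w ⟨hw, hlen⟩
    refine ex_le hw.2 ?_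
    have hn : (0 : ℝ) ≤ w.length := Nat.cast_nonneg _
    have h2 : (u - u₁) * w.length ≥ v * (c - c / 2) * w.length :=
      mul_le_mul_of_nonneg_right hlow hn
    nlinarith
  refine h1.trans ?_
  calc ENNReal.ofReal (Real.exp (-(c * η / 2 * s))) * mass (ex u₁ (c / 2) 0) (BrS s)
      ≤ ENNReal.ofReal (Real.exp (-(c * η / 2 * s))) * 1 := by
        gcongr
        exact brS_le hP₁ s
    _ = _ := mul_one _

theorem bads_rare {v : ℝ} (hv : Ball v) {η : ℝ} (hη : 0 < η) : ∃ c' > 0, ∃ η₁ > 0, η₁ ≤ 1 ∧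
    ∃ L : ℕ, 0 < L ∧ ∀ u c, Params u c → c < c' → ∃ A > 0, ∃ ε > 0, ∀ s : ℕ,
      mass (ex u c 0) {w | w ∈ BrS s ∧ v * w.length ≤ (1 + η₁) * s ∧
        η * s ≤ (L : ℝ) * (bads L (s / L) w).card} ≤
      ENNReal.ofReal (A * Real.exp (-(ε * s))) := by
  have hv0 := hv.pos
  set η₁ : ℝ := min η 1 / 3 with hη₁
  have hη₁0 : 0 < η₁ := by
    rw [hη₁]
    have : 0 < min η 1 := lt_min hη one_pos
    positivity
  have hη₁1 : 3 * η₁ ≤ 1 := by
    have : min η 1 ≤ 1 := min_le_right _ _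
    rw [hη₁]; linarith
  have hη₁η : 3 * η₁ ≤ η := by
    have : min η 1 ≤ η := min_le_left _ _
    rw [hη₁]; linarith
  obtain ⟨u', c', hP', hup⟩ := hv.upper (ε := η₁ * v) (by positivity)
  have hc' := hP'.c_pos
  have hchi := chi_ne_top hP'
  set X₀ : ℝ := (chi u').toReal with hX₀
  have hX₀0 : 0 ≤ X₀ := ENNReal.toReal_nonneg
  have hchi' : chi u' = ENNReal.ofReal X₀ := (ENNReal.ofReal_toReal hchi).symm
  set M : ℝ := max 1 (2 * X₀ ^ 2) with hM
  have hM1 : 1 ≤ M := le_max_left _ _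
  set l : ℝ := Real.log M with hl
  have hl0 : 0 ≤ l := Real.log_nonneg hM1
  have hexpl : Real.exp l = M := Real.exp_log (by linarith)
  have h2chi : 2 * chi u' ^ 2 ≤ ENNReal.ofReal (Real.exp l) := by
    rw [hchi', hexpl, ← ENNReal.ofReal_pow hX₀0, show (2 : ℝ≥0∞) = ENNReal.ofReal 2 by simp,
      ← ENNReal.ofReal_mul (by norm_num)]
    exact ENNReal.ofReal_le_ofReal (le_max_right _ _)
  set L : ℕ := ⌈2 * l * (1 + 2 * η) / (η * c')⌉₊ + 1 with hL
  have hL0 : 0 < L := Nat.succ_pos _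
  have hLr : (0 : ℝ) < L := by exact_mod_cast hL0
  have hLl : 2 * l * (1 + 2 * η) ≤ η * c' * L := by
    have h1 : 2 * l * (1 + 2 * η) / (η * c') ≤ L := by
      rw [hL]
      push_cast
      have := Nat.le_ceil (2 * l * (1 + 2 * η) / (η * c'))
      linarith
    rw [div_le_iff₀ (by positivity)] at h1
    linarith
  refine ⟨c', hc', η₁, hη₁0, by linarith, L, hL0, fun u c hP hcc => ?_⟩
  have hc := hP.c_pos
  have hup' := hup u c hP hcc
  refine ⟨(X₀ + 1) * Real.exp (2 * l + c' * L), by positivity, η * c' / 2, by positivity,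
    fun s => ?_⟩
  set m₀ : ℕ := ⌈η * s / L⌉₊ with hm₀
  have hs0 : (0 : ℝ) ≤ s := Nat.cast_nonneg s
  have h1 : mass (ex u c 0) {w | w ∈ BrS s ∧ v * w.length ≤ (1 + η₁) * s ∧
        η * s ≤ (L : ℝ) * (bads L (s / L) w).card} ≤
      ENNReal.ofReal (Real.exp ((1 + η) * c' * s)) *
        mass (ex u' 0 0) {w | w ∈ BrS s ∧ m₀ ≤ (bads L (s / L) w).card} := by
    refine mass_le_const ?_ ?_
    · rintro w ⟨hw, hlen, -⟩
      refine ex_le hw.2 ?_
      have hn : (0 : ℝ) ≤ w.length := Nat.cast_nonneg _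
      have hcc' : 0 ≤ c' - c := by linarith
      have h2 : (u' - u) * w.length ≤ (v + η₁ * v) * (c' - c) * w.length :=
        mul_le_mul_of_nonneg_right hup' hn
      have h3 : (v + η₁ * v) * (c' - c) * w.length = (1 + η₁) * (c' - c) * (v * w.length) := by
        ring
      have h4 : (1 + η₁) * (c' - c) * (v * w.length) ≤
          (1 + η₁) * (c' - c) * ((1 + η₁) * s) :=
        mul_le_mul_of_nonneg_left hlen (by positivity)
      have h5 : (1 + η₁) * (1 + η₁) ≤ 1 + η := by nlinarith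
      have h6 : (1 + η₁) * (c' - c) * ((1 + η₁) * s) = (1 + η₁) * (1 + η₁) * ((c' - c) * s) := by
        ring
      have h7 : (1 + η₁) * (1 + η₁) * ((c' - c) * s) ≤ (1 + η) * ((c' - c) * s) :=
        mul_le_mul_of_nonneg_right h5 (by positivity)
      have h8 : 0 ≤ η * (c * s) := by positivity
      nlinarith
    · rintro w ⟨hw, -, hb⟩
      refine ⟨hw, ?_⟩
      rw [hm₀]
      refine Nat.ceil_le.2 ?_
      rw [div_le_iff₀ hLr]
      linarith
  have h2 := mass_bads_le (u := u') (brS_le hP') L hL0 s m₀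
  set n : ℕ := s / L + 2 * m₀ with hn
  -- arithmetic
  have hnL : (s : ℝ) - L + 2 * η * s ≤ n * L := by
    have a1 : (s : ℝ) < ((s / L : ℕ) : ℝ) * L + L := by
      have := Nat.lt_div_mul_add hL0 (a := s)
      exact_mod_cast this
    have a2 : η * s / L ≤ m₀ := Nat.le_ceil _
    rw [div_le_iff₀ hLr] at a2
    rw [hn]
    push_cast
    nlinarith
  have hnU : (n : ℝ) * L ≤ (1 + 2 * η) * s + 2 * L := by
    have a1 : ((s / L : ℕ) : ℝ) * L ≤ s := by
      have := Nat.div_mul_le_self s L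
      exact_mod_cast this
    have a2 : (m₀ : ℝ) < η * s / L + 1 := Nat.ceil_lt_add_one (by positivity)
    have a3 : (m₀ : ℝ) * L ≤ η * s + L := by
      have a4 : (m₀ : ℝ) * L ≤ (η * s / L + 1) * L := mul_le_mul_of_nonneg_right a2.le hLr.le
      rwa [add_mul, div_mul_cancel₀ _ hLr.ne', one_mul] at a4
    rw [hn]
    push_cast
    nlinarith
  have hln : l * n ≤ η * c' / 2 * s + 2 * l := by
    have a1 : l * n * L ≤ (η * c' / 2 * s + 2 * l) * L := by
      calc l * n * L = l * (n * L) := by ring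
        _ ≤ l * ((1 + 2 * η) * s + 2 * L) := mul_le_mul_of_nonneg_left hnU hl0
        _ = (2 * l * (1 + 2 * η)) * (s / 2) + 2 * l * L := by ring
        _ ≤ (η * c' * L) * (s / 2) + 2 * l * L := by
            have := mul_le_mul_of_nonneg_right hLl (by positivity : (0 : ℝ) ≤ s / 2)
            linarith
        _ = (η * c' / 2 * s + 2 * l) * L := by ring
    exact le_of_mul_le_mul_right a1 hLr
  have h3 : (2 * chi u' ^ 2 * ENNReal.ofReal (Real.exp (-(c' * L)))) ^ n * chi u' ≤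
      ENNReal.ofReal (Real.exp ((l - c' * L) * n) * X₀) := by
    calc (2 * chi u' ^ 2 * ENNReal.ofReal (Real.exp (-(c' * L)))) ^ n * chi u'
        ≤ (ENNReal.ofReal (Real.exp l) * ENNReal.ofReal (Real.exp (-(c' * L)))) ^ n * chi u' := by
          gcongr
      _ = ENNReal.ofReal (Real.exp ((l - c' * L) * n) * X₀) := by
          rw [← ENNReal.ofReal_mul (Real.exp_pos _).le, ← Real.exp_add,
            ← ENNReal.ofReal_pow (Real.exp_pos _).le, ← Real.exp_nat_mul, hchi',
            ← ENNReal.ofReal_mul (Real.exp_pos _).le]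
          congr 3
          ring
  refine h1.trans ?_
  calc ENNReal.ofReal (Real.exp ((1 + η) * c' * s)) *
        mass (ex u' 0 0) {w | w ∈ BrS s ∧ m₀ ≤ (bads L (s / L) w).card}
      ≤ ENNReal.ofReal (Real.exp ((1 + η) * c' * s)) *
          ENNReal.ofReal (Real.exp ((l - c' * L) * n) * X₀) := by
        gcongr
        exact h2.trans h3
    _ = ENNReal.ofReal (Real.exp ((1 + η) * c' * s + (l - c' * L) * n) * X₀) := by
        rw [← ENNReal.ofReal_mul (Real.exp_pos _).le, ← mul_assoc, ← Real.exp_add]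
    _ ≤ ENNReal.ofReal ((X₀ + 1) * Real.exp (2 * l + c' * L) *
          Real.exp (-(η * c' / 2 * s))) := by
        apply ENNReal.ofReal_le_ofReal
        have e1 : (1 + η) * c' * s + (l - c' * L) * n ≤ 2 * l + c' * L + -(η * c' / 2 * s) := by
          have a1 : c' * (s - L + 2 * η * s) ≤ c' * (n * L) :=
            mul_le_mul_of_nonneg_left hnL hc'.le
          nlinarith
        calc Real.exp ((1 + η) * c' * s + (l - c' * L) * n) * X₀
            ≤ Real.exp (2 * l + c' * L + -(η * c' / 2 * s)) * (X₀ + 1) :=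
              mul_le_mul (Real.exp_le_exp.2 e1) (by linarith) hX₀0 (Real.exp_pos _).le
          _ = (X₀ + 1) * Real.exp (2 * l + c' * L) * Real.exp (-(η * c' / 2 * s)) := by
              rw [mul_assoc (X₀ + 1), ← Real.exp_add, mul_comm]

end Pool.Agent.SAPZ
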