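import Pool.Agent.SAPZ.Exc
import Pool.Agent.SAPZ.Lev
import Pool.Agent.SAPZ.RareZ
import Pool.Agent.SAPZ.Mark

/-!
The mean span of a piece is bounded as the force tends to zero.
-/

namespace Pool.Agent.SAPZ

open scoped ENNReal
open Filter Topology Pool.Agent.SAPF

namespace MeanS

lemma summable_aux {ε : ℝ} (hε : 0 < ε) (A : ℝ) :
    Summable fun s : ℕ => (s : ℝ) * (A * Real.exp (-(ε * s))) := by
  have h := (Real.summable_pow_mul_exp_neg_nat_mul 1 hε).mul_left A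
  refine h.congr fun s => ?_
  rw [pow_one, neg_mul]
  ring

lemma tsum_aux {ε : ℝ} (hε : 0 < ε) (A : ℝ) :
    ∑' s : ℕ, (s : ℝ≥0∞) * ENNReal.ofReal (A * Real.exp (-(ε * s))) ≠ ∞ := by
  have h : ∀ s : ℕ, (s : ℝ≥0∞) * ENNReal.ofReal (A * Real.exp (-(ε * s))) =
      ENNReal.ofReal ((s : ℝ) * (A * Real.exp (-(ε * s)))) := by
    intro s
    rw [ENNReal.ofReal_mul (Nat.cast_nonneg s), ENNReal.ofReal_natCast]
  simp_rw [h]
  exact (summable_aux hε A).tsum_ofReal_ne_top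

/-- the deterministic count of the good levels -/
lemma count {v η₁ : ℝ} (hv : 0 < v) (hη : η₁ ≤ 1) {K L s N b g : ℕ} {ℓ : ℕ}
    (hK : 8 / v ≤ K) (hg : g + b = s) (h1 : K * b ≤ N + K * (2 * L * ℓ))
    (h2 : v * N ≤ (1 + η₁) * s) (h3 : (L : ℝ) * ℓ < 1 / 8 * s) : s ≤ 2 * g := by
  have hK0 : (0 : ℝ) < K := lt_of_lt_of_le (by positivity) hK
  have e1 : (K : ℝ) * b ≤ N + K * (2 * L * ℓ) := by exact_mod_cast h1
  have e2 : (g : ℝ) + b = s := by exact_mod_cast hg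
  have e3 : 8 ≤ K * v := by rwa [div_le_iff₀ hv] at hK
  have e4 : v * N ≤ 2 * s := by
    have : (0 : ℝ) ≤ s := Nat.cast_nonneg s
    nlinarith
  have e5 : (N : ℝ) * 8 ≤ (K : ℝ) * (2 * s) := by
    have h5 : (N : ℝ) * 8 ≤ N * (K * v) := mul_le_mul_of_nonneg_left e3 (Nat.cast_nonneg N)
    nlinarith
  have e6 : (K : ℝ) * (2 * L * ℓ) ≤ K * (s / 4) := by
    refine mul_le_mul_of_nonneg_left ?_ hK0.le
    nlinarith
  have e7 : (K : ℝ) * b ≤ K * (s / 2) := by nlinarith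
  have e8 : (b : ℝ) ≤ s / 2 := le_of_mul_le_mul_left e7 hK0
  have e9 : (s : ℝ) ≤ 2 * g := by linarith
  exact_mod_cast e9

end MeanS

open MeanS in
theorem mean_span {v : ℝ} (hv : Ball v) : ∃ C : ℝ≥0∞, C ≠ ∞ ∧ ∃ c' > 0, ∀ u c, Params u c →
    c < c' → mass (fun w => ex u c 0 w * ENNReal.ofReal (X w)) Irr ≤ C := by
  classical
  obtain ⟨c', hc', η₁, hη₁, hη₁1, L, hL, hbad⟩ := bads_rare hv (η := 1 / 8) (by norm_num)
  obtain ⟨K, hK⟩ := exists_nat_ge (8 / v)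
  set D : ℝ≥0∞ := ((K + 1 : ℕ) : ℝ≥0∞) * ((2 * L : ℕ) : ℝ≥0∞) ^ (2 * K) with hD
  refine ⟨2 * D, ?_, c', hc', fun u c hP hc => ?_⟩
  · rw [hD]
    finiteness
  have h1 : ∀ s : ℕ, mass (ex u c 0) (BrS s) ≤ 1 := by
    intro s
    rw [BrS_eq]
    exact mass_brZ_le_one (ex_append _ _ _) (ex_nil _ _ _) isSize_span hP.one.le s
  obtain ⟨ε, hε, hs⟩ := slow_rare hv hP hη₁
  obtain ⟨A, hA, ε', hε', hb⟩ := hbad u c hP hc
  refine mean_le hP.one (at' := fun s => ENNReal.ofReal (1 * Real.exp (-(ε * s))) +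
    ENNReal.ofReal (A * Real.exp (-(ε' * s)))) ?_ fun s => ?_
  · simp_rw [mul_add]
    rw [ENNReal.tsum_add]
    exact ENNReal.add_ne_top.2 ⟨tsum_aux hε 1, tsum_aux hε' A⟩
  -- typical words
  set T : Set Word := {w | w ∈ BrS s ∧ v * w.length ≤ (1 + η₁) * s ∧
    (L : ℝ) * (bads L (s / L) w).card < 1 / 8 * s} with hT
  have hcov : mass (ex u c 0) (BrS s) ≤ mass (ex u c 0) T +
      (ENNReal.ofReal (1 * Real.exp (-(ε * s))) + ENNReal.ofReal (A * Real.exp (-(ε' * s)))) := by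
    have hsub : (BrS s : Set Word) ⊆ T ∪ ({w | w ∈ BrS s ∧ (1 + η₁) * s < v * w.length} ∪
        {w | w ∈ BrS s ∧ v * w.length ≤ (1 + η₁) * s ∧
          1 / 8 * s ≤ (L : ℝ) * (bads L (s / L) w).card}) := by
      intro w hw
      by_cases h2 : v * w.length ≤ (1 + η₁) * s
      · by_cases h3 : (L : ℝ) * (bads L (s / L) w).card < 1 / 8 * s
        · exact Or.inl ⟨hw, h2, h3⟩
        · exact Or.inr (Or.inr ⟨hw, h2, not_lt.1 h3⟩)
      · exact Or.inr (Or.inl ⟨hw, not_le.1 h2⟩)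
    refine (mass_mono hsub).trans ((mass_union_le _ _ _).trans (add_le_add le_rfl ?_))
    refine (mass_union_le _ _ _).trans (add_le_add ?_ (hb s))
    rw [one_mul]
    exact hs s
  have hmain : (s : ℝ≥0∞) * mass (ex u c 0) T ≤ 2 * D *
      ∑ x ∈ Finset.range s, mass (ex u c 0) (BrS x) *
        mass (ex u c 0) (BrS ((s - x : ℕ) : ℤ)) := by
    have h2 : (s : ℝ≥0∞) * mass (ex u c 0) T ≤ 2 * ∑ x ∈ Finset.range s,
        mass (ex u c 0) {w | w ∈ T ∧ w ∈ Lev (2 * L) K s x} := by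
      rw [sum_mass, ← mass_const_mul, ← mass_const_mul]
      refine mass_mono_fun fun w hw => ?_
      rw [← mul_assoc]
      gcongr
      have h3 := bad_levels hL hw.1 K
      have h4 := Finset.card_filter_add_card_filter_not (s := Finset.range s)
        (fun x : ℕ => w ∈ Lev (2 * L) K s x)
      rw [Finset.card_range] at h4
      have h5 := count hv.pos hη₁1 hK h4 h3 hw.2.1 hw.2.2
      exact_mod_cast h5
    refine h2.trans ?_
    rw [mul_assoc]
    refine mul_le_mul_right ?_ 2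
    rw [Finset.mul_sum]
    refine Finset.sum_le_sum fun x hx => ?_
    have hx' := Finset.mem_range.1 hx
    refine (mass_mono (show {w | w ∈ T ∧ w ∈ Lev (2 * L) K s x} ⊆ Lev (2 * L) K s x from
      fun w hw => hw.2)).trans ?_
    have h3 := mass_Lev hP.c_pos.le h1 (m := 2 * L) (by omega) K s x
    rw [show ((s : ℤ) - x) = ((s - x : ℕ) : ℤ) by omega] at h3
    exact h3
  calc (s : ℝ≥0∞) * mass (ex u c 0) (BrS s) ≤ (s : ℝ≥0∞) * (mass (ex u c 0) T +
      (ENNReal.ofReal (1 * Real.exp (-(ε * s))) +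
        ENNReal.ofReal (A * Real.exp (-(ε' * s))))) := by gcongr
    _ = (s : ℝ≥0∞) * (ENNReal.ofReal (1 * Real.exp (-(ε * s))) +
        ENNReal.ofReal (A * Real.exp (-(ε' * s)))) + (s : ℝ≥0∞) * mass (ex u c 0) T := by ring
    _ ≤ _ := by gcongr

end Pool.Agent.SAPZ
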