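import Pool.Agent.SAPZ.Defs

/-!
Bridges of given span at zero force: renewal lower bound.
-/

namespace Pool.Agent.SAPZ

open scoped ENNReal
open Filter Topology Pool.Agent.SAPF

namespace SpanL

/-- the span -/
def sp (w : Word) : ℕ := (X w).toNat

lemma isSize_sp : IsSize sp := isSize_span

variable {u : ℝ}

lemma brZ_succ_ge (u : ℝ) (n : ℕ) :
    ex u 0 0 [Dir.E] * mass (ex u 0 0) (BrZ sp n) ≤ mass (ex u 0 0) (BrZ sp (n + 1)) := by
  rw [← mass_const_mul]
  refine mass_le_of_injOn (fun w => [Dir.E] ++ w) ?_ ?_ ?_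
  · intro a _ b _ h
    exact List.append_cancel_left h
  · rintro w ⟨h1, h2⟩
    refine ⟨isBr_singleton_E.append h1, ?_⟩
    rw [isSize_sp.add isBr_singleton_E h1, h2]
    have h3 : sp [Dir.E] = 1 := by decide
    rw [h3]
    omega
  · intro w _
    exact (ex_append u 0 0 [Dir.E] w).ge

lemma brZ_add_ge (u : ℝ) (n k : ℕ) :
    ex u 0 0 [Dir.E] ^ k * mass (ex u 0 0) (BrZ sp n) ≤ mass (ex u 0 0) (BrZ sp (n + k)) := by
  induction k with
  | zero => simp
  | succ k ih =>
    calc ex u 0 0 [Dir.E] ^ (k + 1) * mass (ex u 0 0) (BrZ sp n)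
        = ex u 0 0 [Dir.E] * (ex u 0 0 [Dir.E] ^ k * mass (ex u 0 0) (BrZ sp n)) := by
          ring
      _ ≤ ex u 0 0 [Dir.E] * mass (ex u 0 0) (BrZ sp (n + k)) := by gcongr
      _ ≤ _ := brZ_succ_ge u (n + k)

/-- the tail of the law of the span of an irreducible bridge -/
noncomputable def tls (u : ℝ) (n : ℕ) : ℝ≥0∞ := ∑' j, mass (ex u 0 0) (IrrZ sp (j + (n + 1)))

lemma tls_zero (hone : mass (ex u 0 0) Irr = 1) : tls u 0 = 1 := by
  have h := tsum_irrZ (ex u 0 0) sp
  rw [hone, tsum_eq_zero_add' ENNReal.summable, mass_irrZ_zero isSize_sp, zero_add] at h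
  exact h

lemma tls_succ (u : ℝ) (n : ℕ) :
    tls u n = mass (ex u 0 0) (IrrZ sp (n + 1)) + tls u (n + 1) := by
  unfold tls
  rw [tsum_eq_zero_add' ENNReal.summable, zero_add]
  congr 1
  refine tsum_congr fun j => ?_
  congr 2
  ring

lemma tls_le_one (hone : mass (ex u 0 0) Irr = 1) (n : ℕ) : tls u n ≤ 1 := by
  induction n with
  | zero => exact (tls_zero hone).le
  | succ n ih =>
    refine le_trans ?_ ih
    rw [tls_succ u n]
    exact le_add_self

lemma tls_conv (hone : mass (ex u 0 0) Irr = 1) (n : ℕ) :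
    ∑ k ∈ Finset.range (n + 1), tls u k * mass (ex u 0 0) (BrZ sp (n - k)) = 1 := by
  induction n with
  | zero =>
    simp [tls_zero hone, mass_brZ_zero isSize_sp (ex_nil u 0 0)]
  | succ n ih =>
    rw [Finset.sum_range_succ', tls_zero hone, one_mul]
    have hren := renewal (ex_append u 0 0) isSize_sp (n := n + 1) (by omega)
    rw [Finset.sum_range_succ', mass_irrZ_zero isSize_sp, zero_mul, add_zero] at hren
    simp only [Nat.sub_zero]
    rw [hren, ← Finset.sum_add_distrib, ← ih]
    refine Finset.sum_congr rfl fun k hk => ?_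
    have hk' := Finset.mem_range.1 hk
    have e1 : n + 1 - (k + 1) = n - k := by omega
    rw [e1, tls_succ u k]
    ring

lemma tsum_shift (a : ℕ → ℝ≥0∞) :
    ∑' n, ∑' j, a (j + (n + 1)) ≤ ∑' k : ℕ, (k : ℝ≥0∞) * a k := by
  calc ∑' n, ∑' j, a (j + (n + 1)) ≤ ∑' n : ℕ, ∑' k : ℕ, if n < k then a k else 0 := by
        refine ENNReal.tsum_le_tsum fun n => ?_
        have h1 : ∀ j : ℕ, a (j + (n + 1)) =
            (fun k : ℕ => if n < k then a k else 0) (j + (n + 1)) := by
          intro j
          simp only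
          rw [if_pos (by omega)]
        rw [tsum_congr h1]
        exact ENNReal.tsum_comp_le_tsum_of_injective (f := fun j : ℕ => j + (n + 1))
          (fun a b h => by simpa using h) (fun k : ℕ => if n < k then a k else 0)
    _ = ∑' k : ℕ, ∑' n : ℕ, if n < k then a k else 0 := ENNReal.tsum_comm
    _ = ∑' k : ℕ, (k : ℝ≥0∞) * a k := by
        refine tsum_congr fun k => ?_
        rw [tsum_eq_sum (s := Finset.range k)]
        · rw [Finset.sum_congr rfl fun n hn => if_pos (Finset.mem_range.1 hn)]
          simp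
        · intro n hn
          rw [Finset.mem_range] at hn
          exact if_neg hn

lemma tsum_tls_ne_top (h : Zero u) : ∑' n, tls u n ≠ ∞ := by
  refine ne_top_of_le_ne_top h.mean ?_
  unfold tls
  refine (tsum_shift fun k => mass (ex u 0 0) (IrrZ sp k)).trans ?_
  rw [← tsum_irrZ (fun w => ex u 0 0 w * (w.length : ℝ≥0∞)) sp]
  refine ENNReal.tsum_le_tsum fun k => ?_
  rw [← mass_const_mul]
  refine mass_mono_fun ?_
  rintro w ⟨hw1, hw2⟩
  rw [mul_comm]
  gcongr
  have h1 := abs_X_le w
  have h2 := le_abs_self (X w)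
  have h3 : sp w ≤ w.length := by
    unfold sp
    omega
  rw [← hw2]
  exact_mod_cast h3

end SpanL

open SpanL in
theorem span_low {u : ℝ} (h : Zero u) :
    ∃ κ > 0, ∀ s : ℕ, ENNReal.ofReal κ ≤ mass (ex u 0 0) (BrS s) := by
  have hone := h.one
  have hup := mass_brZ_le_one (ex_append u 0 0) (ex_nil u 0 0) isSize_sp hone.le
  have ht := ENNReal.tendsto_sum_nat_add (tls u) (tsum_tls_ne_top h)
  obtain ⟨J, hJ⟩ : ∃ J, ∑' k, tls u (k + J) < 2⁻¹ := by
    have := ht.eventually (gt_mem_nhds (show (0 : ℝ≥0∞) < 2⁻¹ by simp))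
    exact this.exists
  set a := ex u 0 0 [Dir.E] with ha
  have ha1 : a ≤ 1 := by
    refine le_trans ?_ (hup 1)
    exact le_mass (show [Dir.E] ∈ BrZ sp 1 from ⟨isBr_singleton_E, by decide⟩)
  have ha0 : 0 < a := ex_pos _ _ _ _
  have hatop : a ≠ ∞ := ex_ne_top _ _ _ _
  have key : ∀ n, a ^ J * 2⁻¹ ≤ (J : ℝ≥0∞) * mass (ex u 0 0) (BrZ sp n) := by
    intro n
    set v := fun m => mass (ex u 0 0) (BrZ sp m) with hv
    have hW : ∑ k ∈ Finset.range (n + 1), tls u k * v (n - k) = 1 := SpanL.tls_conv hone n
    have hstep : a ^ J ≤ (J : ℝ≥0∞) * v n + a ^ J * 2⁻¹ := by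
      calc a ^ J = a ^ J * ∑ k ∈ Finset.range (n + 1), tls u k * v (n - k) := by
            rw [hW, mul_one]
        _ ≤ a ^ J * ∑ k ∈ Finset.range (n + 1), ((if k < J then v (n - k) else 0) +
              (if J ≤ k then tls u k else 0)) := by
            gcongr with k hk
            by_cases hkJ : k < J
            · rw [if_pos hkJ, if_neg (by omega), add_zero]
              calc tls u k * v (n - k) ≤ 1 * v (n - k) := by gcongr; exact SpanL.tls_le_one hone k
                _ = _ := one_mul _
            · rw [if_neg hkJ, if_pos (by omega), zero_add]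
              calc tls u k * v (n - k) ≤ tls u k * 1 := by gcongr; exact hup _
                _ = _ := mul_one _
        _ = (∑ k ∈ Finset.range (n + 1), a ^ J * (if k < J then v (n - k) else 0)) +
              a ^ J * ∑ k ∈ Finset.range (n + 1), (if J ≤ k then tls u k else 0) := by
            rw [Finset.sum_add_distrib, mul_add, Finset.mul_sum]
        _ ≤ (J : ℝ≥0∞) * v n + a ^ J * 2⁻¹ := by
            gcongr ?_ + a ^ J * ?_
            · calc ∑ k ∈ Finset.range (n + 1), a ^ J * (if k < J then v (n - k) else 0)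
                  ≤ ∑ k ∈ Finset.range (n + 1), (if k ∈ Finset.range J then v n else 0) := by
                    refine Finset.sum_le_sum fun k hk => ?_
                    by_cases hkJ : k < J
                    · rw [if_pos hkJ, if_pos (Finset.mem_range.2 hkJ)]
                      have hk' := Finset.mem_range.1 hk
                      have h1 := SpanL.brZ_add_ge u (n - k) k
                      have e1 : n - k + k = n := by omega
                      rw [e1] at h1
                      refine le_trans ?_ h1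
                      gcongr ?_ * _
                      exact pow_le_pow_right_of_le_one' ha1 hkJ.le
                    · rw [if_neg hkJ]; simp
                _ ≤ ∑ k ∈ Finset.range J, v n := by
                    rw [← Finset.sum_filter]
                    refine Finset.sum_le_sum_of_subset ?_
                    intro k hk
                    exact (Finset.mem_filter.1 hk).2
                _ = (J : ℝ≥0∞) * v n := by simp
            · calc ∑ k ∈ Finset.range (n + 1), (if J ≤ k then tls u k else 0)
                  ≤ ∑' k, (if J ≤ k then tls u k else 0) := ENNReal.sum_le_tsum _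
                _ = (∑ k ∈ Finset.range J, (if J ≤ k then tls u k else 0)) +
                      ∑' k, (if J ≤ k + J then tls u (k + J) else 0) :=
                    (ENNReal.summable.sum_add_tsum_nat_add' ).symm
                _ = ∑' k, tls u (k + J) := by
                    rw [Finset.sum_eq_zero, zero_add]
                    · refine tsum_congr fun k => if_pos (by omega)
                    · intro k hk
                      have := Finset.mem_range.1 hk
                      exact if_neg (by omega)
                _ ≤ 2⁻¹ := hJ.le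
    have hfin : a ^ J * 2⁻¹ ≠ ∞ :=
      ENNReal.mul_ne_top (ENNReal.pow_ne_top hatop) (by simp)
    have hsplit : a ^ J * 2⁻¹ + a ^ J * 2⁻¹ = a ^ J := by
      rw [← mul_add, ENNReal.inv_two_add_inv_two, mul_one]
    rw [← hsplit] at hstep
    have h5 : a ^ J * 2⁻¹ + a ^ J * 2⁻¹ ≤ (J : ℝ≥0∞) * v n + a ^ J * 2⁻¹ := by
      simpa [hsplit] using hstep
    exact (ENNReal.add_le_add_iff_right hfin).1 h5
  have haJ : 0 < a ^ J * 2⁻¹ := by
    refine ENNReal.mul_pos (ENNReal.pow_pos ha0 J).ne' (by simp)
  have haJtop : a ^ J * 2⁻¹ ≠ ∞ :=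
    ENNReal.mul_ne_top (ENNReal.pow_ne_top hatop) (by simp)
  refine ⟨(a ^ J * 2⁻¹ / (J + 1)).toReal, ?_, ?_⟩
  · refine ENNReal.toReal_pos ?_ ?_
    · exact (ENNReal.div_pos haJ.ne' (by finiteness)).ne'
    · exact ENNReal.div_ne_top haJtop (by positivity)
  · intro n
    rw [BrS_eq]
    change _ ≤ mass (ex u 0 0) (BrZ sp n)
    rw [ENNReal.ofReal_toReal (ENNReal.div_ne_top haJtop (by positivity))]
    refine ENNReal.div_le_of_le_mul ?_
    calc a ^ J * 2⁻¹ ≤ (J : ℝ≥0∞) * mass (ex u 0 0) (BrZ sp n) := key n
      _ ≤ mass (ex u 0 0) (BrZ sp n) * (J + 1) := by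
          rw [mul_comm]
          gcongr
          exact le_self_add

end Pool.Agent.SAPZ
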