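import Pool.Agent.SAPY.MainY

/-!
Exchange of the two coordinates of a self-avoiding polygon.
-/

namespace Pool.Agent.SAPZ

open Pool.Agent.SAPF Pool.Agent.SAPX Pool.Agent.SAPK

/-- height: largest difference of vertical coordinates of two vertices -/
noncomputable def height {m : ℕ} (v : ZMod m → ℤ × ℤ) : ℤ :=
  sSup {d : ℤ | ∃ i j, d = (v i).2 - (v j).2}

/-- exchange of the coordinates -/
def sw {m : ℕ} (v : ZMod m → ℤ × ℤ) : ZMod m → ℤ × ℤ := fun i => ((v i).2, (v i).1)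

@[simp] lemma sw_sw {m : ℕ} (v : ZMod m → ℤ × ℤ) : sw (sw v) = v := rfl

lemma width_sw {m : ℕ} (v : ZMod m → ℤ × ℤ) : width (sw v) = height v := rfl

lemma height_sw {m : ℕ} (v : ZMod m → ℤ × ℤ) : height (sw v) = width v := rfl

lemma height_rot {m : ℕ} (v : ZMod m → ℤ × ℤ) (i : ZMod m) :
    height (SAPF.rot i v) = height v := by
  rw [← width_sw, ← width_sw]
  exact width_rot (sw v) i

lemma isSAP_sw {m : ℕ} {v : ZMod m → ℤ × ℤ} (h : IsSAP m v) : IsSAP m (sw v) := by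
  obtain ⟨h1, h2, h3⟩ := h
  refine ⟨?_, ?_, ?_⟩
  · simp [sw, h1]
  · intro i j hij
    apply h2
    simp only [sw, Prod.mk.injEq] at hij
    exact Prod.ext hij.2 hij.1
  · intro i
    have h4 := h3 i
    simp only [sw, Set.mem_insert_iff, Set.mem_singleton_iff, Prod.mk_sub_mk,
      Prod.ext_iff, Prod.fst_sub, Prod.snd_sub] at h4 ⊢
    tauto

lemma par (x y x' y' a b : ℤ) (h : (x' - x = 1 ∧ y' - y = 0) ∨ (x' - x = 0 ∧ y' - y = 1) ∨
    (x' - x = -1 ∧ y' - y = 0) ∨ (x' - x = 0 ∧ y' - y = -1)) :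
    (((if y = y' ∧ min x x' = a ∧ b < y then 1 else 0) +
      (if x = x' ∧ min y y' = b ∧ a < x then 1 else 0)) +
      ((if a < x ∧ b < y then 1 else 0) + (if a < x' ∧ b < y' then 1 else 0))) % 2 = 0 := by
  split_ifs <;> omega

/-- parity of the number of edges above a square and to the right of it -/
lemma even_above {m : ℕ} [NeZero m] {v : ZMod m → ℤ × ℤ} (h : IsSAP m v) (c : ℤ × ℤ) :
    Even ((above v c).ncard + (above (sw v) (c.2, c.1)).ncard) := by
  classical
  set q : ZMod m → ℕ := fun i => if c.1 < (v i).1 ∧ c.2 < (v i).2 then 1 else 0 with hq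
  have e1 : (above v c).ncard = ∑ i, if i ∈ above v c then 1 else 0 := by
    rw [Finset.sum_boole, Set.ncard_eq_toFinset_card']
    simp only [Nat.cast_id]
    congr 1
    ext i
    simp
  have e2 : (above (sw v) (c.2, c.1)).ncard =
      ∑ i, if i ∈ above (sw v) (c.2, c.1) then 1 else 0 := by
    rw [Finset.sum_boole, Set.ncard_eq_toFinset_card']
    simp only [Nat.cast_id]
    congr 1
    ext i
    simp
  have e3 : ∑ i, q (i + 1) = ∑ i, q i := Equiv.sum_comp (Equiv.addRight (1 : ZMod m)) q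
  have key : Even (∑ i, (((if i ∈ above v c then 1 else 0) +
      (if i ∈ above (sw v) (c.2, c.1) then 1 else 0)) + (q i + q (i + 1)))) := by
    refine Finset.even_sum _ fun i _ => ?_
    have h4 := h.2.2 i
    simp only [Set.mem_insert_iff, Set.mem_singleton_iff, Prod.ext_iff, Prod.fst_sub,
      Prod.snd_sub] at h4
    have h5 := par (v i).1 (v i).2 (v (i + 1)).1 (v (i + 1)).2 c.1 c.2 h4
    have e4 : (if i ∈ above v c then 1 else 0) =
        if (v i).2 = (v (i + 1)).2 ∧ min (v i).1 (v (i + 1)).1 = c.1 ∧ c.2 < (v i).2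
          then 1 else 0 := by
      congr 1
    have e5 : (if i ∈ above (sw v) (c.2, c.1) then 1 else 0) =
        if (v i).1 = (v (i + 1)).1 ∧ min (v i).2 (v (i + 1)).2 = c.2 ∧ c.1 < (v i).1
          then 1 else 0 := by
      congr 1
    rw [e4, e5, Nat.even_iff]
    exact h5
  rw [Finset.sum_add_distrib, Finset.sum_add_distrib, Finset.sum_add_distrib, e3, ← e1, ← e2]
    at key
  rw [Nat.even_iff] at key ⊢
  omega

lemma area_sw {m : ℕ} [NeZero m] {v : ZMod m → ℤ × ℤ} (h : IsSAP m v) :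
    area (sw v) = area v := by
  unfold area
  have hinj : Function.Injective (fun c : ℤ × ℤ => (c.2, c.1)) := by
    intro c c' hcc
    simp only [Prod.mk.injEq] at hcc
    exact Prod.ext hcc.2 hcc.1
  rw [← Set.ncard_image_of_injective {c : ℤ × ℤ | Odd (above v c).ncard} hinj]
  congr 1
  have key : ∀ c : ℤ × ℤ, Odd (above (sw v) (c.2, c.1)).ncard ↔ Odd (above v c).ncard := by
    intro c
    have := even_above h c
    rw [Nat.even_iff] at this
    rw [Nat.odd_iff, Nat.odd_iff]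
    omega
  ext c
  simp only [Set.mem_image, Set.mem_ofPred_eq]
  constructor
  · intro hc
    exact ⟨(c.2, c.1), (key (c.2, c.1)).1 hc, rfl⟩
  · rintro ⟨c', hc', rfl⟩
    exact (key c').2 hc'

/-! ### height of a canonical polygon -/

lemma Y_poly {A : Set Word} {n : ℕ} {p : PW} (hn : 2 ≤ n) (hp : p ∈ can A n) (i : ZMod (2 * n)) :
    ∃ t, (t <+: p.1 ∨ t <+: p.2) ∧ (poly n p i).2 = Y t := by
  obtain ⟨ha, hE1, hE2, -⟩ := isArcs_can hn hp
  obtain ⟨-, hcan, -, -⟩ := mem_can.1 hp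
  have hl := ha.len
  have hY : Y p.1.tail = Y p.2.tail := ha.Yab
  change ∃ t, (t <+: p.1 ∨ t <+: p.2) ∧ Y ((p.1.tail ++ rv p.2.tail).take i.val) = Y t
  set a := p.1.tail with ha'
  set b := p.2.tail with hb'
  rcases prefix_append_cases (List.take_prefix i.val (a ++ rv b)) with h | ⟨t, ht, -, he⟩
  · refine ⟨Dir.E :: (a ++ rv b).take i.val, Or.inl ?_, ?_⟩
    · rw [← hE1]
      exact (List.cons_prefix_cons).2 ⟨rfl, h⟩
    · rw [Y_cons]
      simp [Dir.dy]
  · obtain ⟨s, hs⟩ := prefix_rv.1 ht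
    refine ⟨Dir.E :: s, Or.inr ?_, ?_⟩
    · rw [← hE2]
      exact (List.cons_prefix_cons).2 ⟨rfl, ⟨_, hs⟩⟩
    · rw [he, Y_append, Y_cons]
      have h1 := congrArg Y hs
      rw [Y_append, Y_rv] at h1
      simp only [Dir.dy, zero_add]
      omega

lemma height_poly {A : Set Word} {n : ℕ} {p : PW} (hn : 2 ≤ n) (hp : p ∈ can A n) {w : ℤ}
    (hw : w ≤ height (poly n p)) : ∃ t, (t <+: p.1 ∨ t <+: p.2) ∧ w ≤ 2 * |Y t| := by
  have : NeZero (2 * n) := ⟨by omega⟩
  have hne : {d : ℤ | ∃ i j, d = (poly n p i).2 - (poly n p j).2}.Nonempty := ⟨_, 0, 0, rfl⟩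
  have hfin : {d : ℤ | ∃ i j, d = (poly n p i).2 - (poly n p j).2}.Finite := by
    have : {d : ℤ | ∃ i j, d = (poly n p i).2 - (poly n p j).2} =
        Set.range (fun x : ZMod (2 * n) × ZMod (2 * n) => (poly n p x.1).2 - (poly n p x.2).2) := by
      ext d
      simp only [Set.mem_ofPred_eq, Set.mem_range, Prod.exists]
      exact ⟨fun ⟨i, j, h⟩ => ⟨i, j, h.symm⟩, fun ⟨i, j, h⟩ => ⟨i, j, h.symm⟩⟩
    rw [this]
    exact Set.finite_range _
  obtain ⟨i, j, hij⟩ := Int.csSup_mem hne hfin.bddAbove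
  change height (poly n p) = _ at hij
  rw [hij] at hw
  obtain ⟨t, ht, h1⟩ := Y_poly hn hp i
  obtain ⟨s, hs, h2⟩ := Y_poly hn hp j
  rw [h1, h2] at hw
  rcases le_total |Y s| |Y t| with h | h
  · refine ⟨t, ht, ?_⟩
    have := le_abs_self (Y t)
    have := neg_abs_le (Y s)
    omega
  · refine ⟨s, hs, ?_⟩
    have := le_abs_self (Y t)
    have := neg_abs_le (Y s)
    omega

end Pool.Agent.SAPZ
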