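import Pool.Agent.SAPZ.Swap
import Pool.Agent.SAPF.TailsB

/-!
Polygons of macroscopic width are thin: heights larger than the width are rare.
-/

namespace Pool.Agent.SAPZ

open scoped ENNReal
open Filter Topology Pool.Agent.SAPF Pool.Agent.SAPX Pool.Agent.SAPK Pool.Agent.SAPY

lemma ofReal_wt (u c : ℝ) (p : PW) : ENNReal.ofReal (wt u c p) = pw u c p := by
  unfold wt pw ex
  rw [← ENNReal.ofReal_mul (Real.exp_pos _).le, ← Real.exp_add]
  congr 2
  unfold ln
  push_cast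
  ring

open Classical in
/-- tall canonical pairs have small weight -/
lemma tail_can {u c : ℝ} (hP : Params u c) (K : ℕ) : ∀ᶠ n : ℕ in atTop,
    ∑ p ∈ (can Set.univ n).filter (fun p => ∃ t, (t <+: p.1 ∨ t <+: p.2) ∧
      Real.sqrt n * (Real.log n) ^ (3 : ℝ) < |(Y t : ℝ)|), wt u c p ≤ 1 / (n : ℝ) ^ K := by
  filter_upwards [upper_tail hP K] with n hn
  rw [← ENNReal.ofReal_le_ofReal_iff (by positivity),
    ENNReal.ofReal_sum_of_nonneg fun p _ => (wt_pos u c p).le]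
  simp only [ofReal_wt]
  refine (sum_le_mass ?_).trans hn
  intro p hp
  rw [Finset.mem_coe, Finset.mem_filter] at hp
  obtain ⟨h1, h2⟩ := hp
  obtain ⟨h3, h4, -, -⟩ := mem_can.1 h1
  exact ⟨⟨h4.pb.br1, h4.pb.br2, h3⟩, h2⟩

/-- lower bound for the partition function at given width -/
lemma low_canW {A : Set Word} {u c : ℝ} (hA : IsClass A) (hb : SAPY.bw ∈ A)
    (hf : FreeLaw (mkf A u c one)) {w : ℕ → ℤ} {B : ℝ}
    (hB : ∀ n : ℕ, |(w n : ℝ) - 2 * muA A u c * n| ≤ B * Real.sqrt n) :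
    ∃ κ > 0, ∀ᶠ n : ℕ in atTop,
      κ ≤ ((2 * (n + 1) : ℕ) : ℝ) ^ 2 * ∑ p ∈ canW A n (w n + 1), wt u c p := by
  obtain ⟨κ₀, κ₁, b, K, h₀, h₁, hbp, hlim, hbd⟩ := fixed_main hA hb hf
  set μ := muA A u c with hμ
  set R : ℝ := |B| + 1 + 2 * |μ| with hR
  refine ⟨κ₀ * gau b R / 2, by have := gau_pos hbp R; positivity, ?_⟩
  by_contra hcon
  rw [not_eventually] at hcon
  obtain ⟨ns, hns, hlt⟩ := extraction_of_frequently_atTop hcon
  have hbdd : ∀ j, (((w (ns j) + 1 : ℤ) : ℝ) - μ * ((2 * (ns j + 1) : ℕ) : ℝ)) /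
      Real.sqrt ((2 * (ns j + 1) : ℕ) : ℝ) ∈ Set.Icc (-R) R := by
    intro j
    rw [Set.mem_Icc, ← abs_le, abs_div, abs_of_nonneg (Real.sqrt_nonneg _)]
    have hN : (1 : ℝ) ≤ ((2 * (ns j + 1) : ℕ) : ℝ) := by
      have : 1 ≤ 2 * (ns j + 1) := by omega
      exact_mod_cast this
    have hs : 1 ≤ Real.sqrt ((2 * (ns j + 1) : ℕ) : ℝ) := Real.one_le_sqrt.2 hN
    rw [div_le_iff₀ (by linarith)]
    have h1 := hB (ns j)
    have h2 : Real.sqrt (ns j) ≤ Real.sqrt ((2 * (ns j + 1) : ℕ) : ℝ) := by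
      apply Real.sqrt_le_sqrt
      have : ns j ≤ 2 * (ns j + 1) := by omega
      exact_mod_cast this
    have h3 : ((w (ns j) + 1 : ℤ) : ℝ) - μ * ((2 * (ns j + 1) : ℕ) : ℝ) =
        ((w (ns j) : ℝ) - 2 * μ * (ns j)) + (1 - 2 * μ) := by
      push_cast
      ring
    have h4 : B * Real.sqrt (ns j) ≤ |B| * Real.sqrt ((2 * (ns j + 1) : ℕ) : ℝ) := by
      calc B * Real.sqrt (ns j) ≤ |B| * Real.sqrt (ns j) :=
            mul_le_mul_of_nonneg_right (le_abs_self _) (Real.sqrt_nonneg _)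
        _ ≤ _ := mul_le_mul_of_nonneg_left h2 (abs_nonneg _)
    have h5 : |(1 : ℝ) - 2 * μ| ≤ 1 + 2 * |μ| := by
      refine (abs_sub _ _).trans ?_
      rw [abs_one, abs_mul, abs_two]
    have h6 : 1 + 2 * |μ| ≤ (1 + 2 * |μ|) * Real.sqrt ((2 * (ns j + 1) : ℕ) : ℝ) :=
      le_mul_of_one_le_right (by positivity) hs
    rw [h3, hR]
    refine (abs_add_le _ _).trans ?_
    nlinarith
  obtain ⟨z, hz', ms, hms, hz⟩ := tendsto_subseq_of_bounded (Metric.isBounded_Icc _ _) hbdd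
  have hzR : z ∈ Set.Icc (-R) R := by
    rw [isClosed_Icc.closure_eq] at hz'
    exact hz'
  have hnt : Tendsto (fun j => ns (ms j)) atTop atTop := hns.tendsto_atTop.comp hms.tendsto_atTop
  have h1 := (hlim (fun j => ns (ms j)) (fun j => w (ns (ms j)) + 1) z hnt hz).1
  have h2 : κ₀ * gau b z ≤ κ₀ * gau b R / 2 := by
    refine le_of_tendsto h1 (Eventually.of_forall fun j => ?_)
    exact (not_le.1 (hlt (ms j))).le
  have h3 : gau b R ≤ gau b z := by
    unfold gau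
    refine mul_le_mul_of_nonneg_left (Real.exp_le_exp.2 ?_) (by positivity)
    have h4 : z ^ 2 ≤ R ^ 2 := sq_le_sq' hzR.1 hzR.2
    have : z ^ 2 / (2 * b) ≤ R ^ 2 / (2 * b) := by gcongr
    linarith
  have h4 := gau_pos hbp R
  nlinarith

open Classical in
/-- canonical pairs of width in `J` and height at least `w` -/
noncomputable def tall (n : ℕ) (J : Set ℤ) (w : ℤ) : Finset PW :=
  (canJ Set.univ n J).filter fun p => w ≤ height (poly n p)

/-- tall polygons are rare -/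
theorem thin {u c α : ℝ} (hc : 0 < c) (hP : Params u c) (h : 2 * muA Set.univ u c = α)
    (hα : 0 < α) {J : ℕ → Set ℤ} {w : ℕ → ℤ} {B : ℝ} (hJ : ∀ n, IsLeast (J n) (w n))
    (hB : ∀ n : ℕ, |(w n : ℝ) - α * n| ≤ B * Real.sqrt n) :
    Tendsto (fun n : ℕ => (n : ℝ) ^ 3 * ((tall n (J n) (w n)).card : ℝ) /
      ((canJ Set.univ n (J n)).card : ℝ)) atTop (𝓝 0) := by
  classical
  have hf := freeLaw isClass_univ (paramsA_univ hP)
  obtain ⟨κ, hκ, hlow⟩ := low_canW isClass_univ (Set.mem_univ SAPY.bw) hf (w := w) (B := B)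
    (by rw [h]; exact hB)
  have hbig : ∀ᶠ n : ℕ in atTop, Real.sqrt n * (Real.log n) ^ (3 : ℝ) < (w n : ℝ) / 2 := by
    have h1 : Tendsto (fun n : ℕ => (Real.log n) ^ (3 : ℝ) / Real.sqrt n) atTop (𝓝 0) := by
      have h2 := (isLittleO_log_rpow_rpow_atTop (3 : ℝ) (show (0 : ℝ) < 1 / 2 by norm_num))
      have h3 := h2.tendsto_div_nhds_zero.comp tendsto_natCast_atTop_atTop
      refine h3.congr fun n => ?_
      simp only [Function.comp, Real.sqrt_eq_rpow]
    have h2 : Tendsto (fun n : ℕ => B / Real.sqrt n) atTop (𝓝 0) :=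
      tendsto_const_nhds.div_atTop
        (Real.tendsto_sqrt_atTop.comp tendsto_natCast_atTop_atTop)
    filter_upwards [h1.eventually (gt_mem_nhds (show (0 : ℝ) < α / 8 by positivity)),
      h2.eventually (gt_mem_nhds (show (0 : ℝ) < α / 4 by positivity)),
      eventually_gt_atTop 0] with n h3 h4 h5
    have hn : (0 : ℝ) < n := by exact_mod_cast h5
    have hs : 0 < Real.sqrt n := Real.sqrt_pos.2 hn
    have hss : Real.sqrt n * Real.sqrt n = n := Real.mul_self_sqrt hn.le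
    rw [div_lt_iff₀ hs] at h3 h4
    have h6 := (abs_le.1 (hB n)).1
    have h7 : Real.sqrt n * (Real.log n) ^ (3 : ℝ) < α / 8 * n := by
      calc Real.sqrt n * (Real.log n) ^ (3 : ℝ) < Real.sqrt n * (α / 8 * Real.sqrt n) :=
            mul_lt_mul_of_pos_left h3 hs
        _ = α / 8 * (Real.sqrt n * Real.sqrt n) := by ring
        _ = α / 8 * n := by rw [hss]
    have h8 : B * Real.sqrt n ≤ α / 4 * n := by
      calc B * Real.sqrt n ≤ (α / 4 * Real.sqrt n) * Real.sqrt n :=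
            mul_le_mul_of_nonneg_right h4.le hs.le
        _ = α / 4 * n := by rw [mul_assoc, hss]
    nlinarith
  have hlim : Tendsto (fun n : ℕ => 16 / κ * (n : ℝ)⁻¹) atTop (𝓝 0) := by
    have := tendsto_inv_atTop_nhds_zero_nat (𝕜 := ℝ) |>.const_mul (16 / κ)
    rwa [mul_zero] at this
  refine squeeze_zero' (Eventually.of_forall fun n => by positivity) ?_ hlim
  filter_upwards [hlow, hbig, tail_can hP 6, eventually_ge_atTop 2] with n h1 h2 h3 hn
  have hn0 : (0 : ℝ) < n := by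
    have : 0 < n := by omega
    exact_mod_cast this
  set e : ℝ := Real.exp (u * ((2 * (n + 1) : ℕ) : ℝ) - 2 * c * (w n + 1)) with he
  have he0 : 0 < e := Real.exp_pos _
  -- upper bound for the tall ones
  have hup : ((tall n (J n) (w n)).card : ℝ) ≤ e * (1 / (n : ℝ) ^ 6) := by
    refine le_trans ?_ (mul_le_mul_of_nonneg_left h3 he0.le)
    rw [Finset.card_eq_sum_ones, Nat.cast_sum, Finset.mul_sum]
    have hsub : tall n (J n) (w n) ⊆ (can Set.univ n).filter (fun p => ∃ t,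
        (t <+: p.1 ∨ t <+: p.2) ∧ Real.sqrt n * (Real.log n) ^ (3 : ℝ) < |(Y t : ℝ)|) := by
      intro p hp
      unfold tall canJ at hp
      rw [Finset.mem_filter, Finset.mem_filter] at hp
      obtain ⟨⟨h4, h5⟩, h6⟩ := hp
      rw [Finset.mem_filter]
      refine ⟨h4, ?_⟩
      obtain ⟨t, ht, h7⟩ := height_poly hn h4 h6
      refine ⟨t, ht, h2.trans_le ?_⟩
      have h8 : (w n : ℝ) ≤ 2 * |(Y t : ℝ)| := by exact_mod_cast h7
      linarith
    have hle : ∀ p ∈ tall n (J n) (w n), ((1 : ℕ) : ℝ) ≤ e * wt u c p := by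
      intro p hp
      unfold tall canJ at hp
      rw [Finset.mem_filter, Finset.mem_filter] at hp
      obtain ⟨⟨h4, h5⟩, -⟩ := hp
      have h6 := (hJ n).2 h5
      rw [wt_can (mem_canW.2 ⟨h4, rfl⟩), he, ← Real.exp_add, Nat.cast_one, Real.one_le_exp_iff]
      have h7 : (w n : ℝ) + 1 ≤ X p.1 := by
        have : w n + 1 ≤ X p.1 := by omega
        exact_mod_cast this
      nlinarith
    calc ∑ p ∈ tall n (J n) (w n), ((1 : ℕ) : ℝ) ≤ ∑ p ∈ tall n (J n) (w n), e * wt u c p :=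
          Finset.sum_le_sum hle
      _ ≤ _ := Finset.sum_le_sum_of_subset_of_nonneg hsub fun p _ _ =>
          mul_nonneg he0.le (wt_pos u c p).le
  -- lower bound for all of them
  have hN0 : (0 : ℝ) < ((2 * (n + 1) : ℕ) : ℝ) := by positivity
  have hlo : e * (κ / ((2 * (n + 1) : ℕ) : ℝ) ^ 2) ≤ ((canJ Set.univ n (J n)).card : ℝ) := by
    have h4 : κ / ((2 * (n + 1) : ℕ) : ℝ) ^ 2 ≤ ∑ p ∈ canW Set.univ n (w n + 1), wt u c p := by
      rw [div_le_iff₀ (by positivity), mul_comm]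
      exact h1
    have h5 : e * ∑ p ∈ canW Set.univ n (w n + 1), wt u c p =
        ((canW Set.univ n (w n + 1)).card : ℝ) := by
      rw [Finset.mul_sum, Finset.card_eq_sum_ones, Nat.cast_sum]
      refine Finset.sum_congr rfl fun p hp => ?_
      rw [wt_can hp, he, ← Real.exp_add, Nat.cast_one, Real.exp_eq_one_iff]
      push_cast
      ring
    have h6 : canW Set.univ n (w n + 1) ⊆ canJ Set.univ n (J n) := by
      intro p hp
      obtain ⟨h7, h8⟩ := mem_canW.1 hp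
      unfold canJ
      rw [Finset.mem_filter]
      refine ⟨h7, ?_⟩
      rw [h8, add_sub_cancel_right]
      exact (hJ n).1
    calc _ ≤ e * ∑ p ∈ canW Set.univ n (w n + 1), wt u c p :=
          mul_le_mul_of_nonneg_left h4 he0.le
      _ = ((canW Set.univ n (w n + 1)).card : ℝ) := h5
      _ ≤ _ := by exact_mod_cast Finset.card_le_card h6
  have hcpos : 0 < ((canJ Set.univ n (J n)).card : ℝ) :=
    lt_of_lt_of_le (by positivity) hlo
  rw [div_le_iff₀ hcpos]
  calc (n : ℝ) ^ 3 * ((tall n (J n) (w n)).card : ℝ) ≤ (n : ℝ) ^ 3 * (e * (1 / (n : ℝ) ^ 6)) := by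
        gcongr
    _ ≤ 16 / κ * (n : ℝ)⁻¹ * (e * (κ / ((2 * (n + 1) : ℕ) : ℝ) ^ 2)) := by
        have h4 : ((2 * (n + 1) : ℕ) : ℝ) ≤ 4 * n := by
          have : 2 * (n + 1) ≤ 4 * n := by omega
          exact_mod_cast this
        have h5 : ((2 * (n + 1) : ℕ) : ℝ) ^ 2 ≤ 16 * (n : ℝ) ^ 2 := by nlinarith
        have h6 : 16 / κ * (n : ℝ)⁻¹ * (e * (κ / ((2 * (n + 1) : ℕ) : ℝ) ^ 2)) =
            e * (16 / (n * ((2 * (n + 1) : ℕ) : ℝ) ^ 2)) := by
          field_simp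
        have h7 : (n : ℝ) ^ 3 * (e * (1 / (n : ℝ) ^ 6)) = e * (1 / (n : ℝ) ^ 3) := by
          field_simp
        rw [h6, h7]
        refine mul_le_mul_of_nonneg_left ?_ he0.le
        rw [div_le_div_iff₀ (by positivity) (by positivity)]
        nlinarith
    _ ≤ _ := by gcongr

end Pool.Agent.SAPZ
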